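import Pool.Agent.Lib.MP_e4697a_lc.N1.Tree

/-!
The array lemma.
-/

set_option autoImplicit false

namespace Pool.Agent.Lib.MP_e4697a_lc.N1

open FirstOrder Set Filter

variable {L : FirstOrder.Language.{0, 0}} {C : Type 1} [L.Structure C] {κ : Cardinal.{1}}
  {α β γ γ0 δ ε ζ I : Type 1}

theorem al_elim_map (x : α → C) (a : γ → C) (π : β → γ) :
    Sum.elim x a ∘ Sum.map id π = Sum.elim x (a ∘ π) := by
  funext o
  cases o <;> rfl

theorem al_mem_rows {c : ℕ → Bool → β → C} {i j : ℕ} (h : j < i) (b : Bool) (y : β) :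
    c j b y ∈ rows c i :=
  ⟨j, h, b, y, rfl⟩

theorem al_rows_mono (c : ℕ → Bool → β → C) {i j : ℕ} (h : i ≤ j) : rows c i ⊆ rows c j := by
  rintro x ⟨l, hl, b, hb⟩
  exact ⟨l, lt_of_lt_of_le hl h, b, hb⟩

/-- the first case: a shorter inconsistency number for a pair of instances -/
theorem arr_pair {D : Set (α ⊕ β → C)} {k n m i i' : ℕ} {c : ℕ → Bool → β → C}
    (hc : Arr L ∅ D (k + 1) n c) (hi : i < i') (hn : i' + m ≤ n) {x0 : α → C}
    (h0 : Sum.elim x0 (c i true) ∈ D) (h1 : ∀ j < m, Sum.elim x0 (c (i' + j) false) ∈ D) :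
    Arr L ∅ {v : α ⊕ (β ⊕ β) → C | v ∘ Sum.map id Sum.inl ∈ D ∧ v ∘ Sum.map id Sum.inr ∈ D} k m
      fun j b => Sum.elim (c (i' + j) b) (c i true) := by
  obtain ⟨e1, -, e3⟩ := hc
  refine ⟨fun j hj => ?_, ⟨x0, fun j hj => ?_⟩, fun s hs hsm hl => ?_⟩
  · refine eqv_elim_iff.mp ((e1 (i' + j) (by omega)).mono ?_)
    rintro y ((hy | ⟨l, hl, b, z, rfl⟩) | ⟨z, rfl⟩)
    · exact Or.inl hy
    · refine Or.inr ?_
      rcases z with z | z
      · exact al_mem_rows (by omega) b z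
      · exact al_mem_rows (by omega) true z
    · exact Or.inr (al_mem_rows (by omega) true z)
  · refine ⟨?_, ?_⟩
    · rw [al_elim_map]
      exact h1 j hj
    · rw [al_elim_map]
      exact h0
  · rintro ⟨x, hx⟩
    have hx1 : ∀ j ∈ s, Sum.elim x (c (i' + j) true) ∈ D := fun j hj => by
      have := (hx j hj).1
      rw [al_elim_map] at this
      exact this
    have hx2 : ∀ j ∈ s, Sum.elim x (c i true) ∈ D := fun j hj => by
      have := (hx j hj).2
      rw [al_elim_map] at this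
      exact this
    refine e3 (i :: s.map (i' + ·)) ?_ ?_ (by simp [hl]) ?_
    · refine List.pairwise_cons.mpr ⟨fun a ha => ?_, ?_⟩
      · obtain ⟨j, -, rfl⟩ := List.mem_map.mp ha
        omega
      · exact List.pairwise_map.mpr (hs.imp fun h => by omega)
    · intro a ha
      rcases List.mem_cons.mp ha with rfl | ha
      · omega
      · obtain ⟨j, hj, rfl⟩ := List.mem_map.mp ha
        have := hsm j hj
        omega
    · rcases s with _ | ⟨j0, s⟩
      · refine ⟨x0, fun a ha => ?_⟩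
        rcases List.mem_cons.mp ha with rfl | ha
        · exact h0
        · simp at ha
      · refine ⟨x, fun a ha => ?_⟩
        rcases List.mem_cons.mp ha with rfl | ha
        · exact hx2 j0 List.mem_cons_self
        · obtain ⟨j, hj, rfl⟩ := List.mem_map.mp ha
          exact hx1 j hj

/-- the second case: trees of every height for a block of instances -/
theorem arr_block (hm : Mon L C κ) (hβ : Sm κ β) {D : Set (α ⊕ β → C)} (hD : Df L ∅ D) {k m : ℕ}
    (h : ∀ n, ∃ c : ℕ → Bool → β → C, Arr L ∅ D k n c)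
    (hb : ∀ (n : ℕ) (c : ℕ → Bool → β → C) (i i' : ℕ), Arr L ∅ D k n c → i < i' → i' + m ≤ n →
      ∀ x : α → C, Sum.elim x (c i true) ∈ D → ¬ ∀ j < m, Sum.elim x (c (i' + j) false) ∈ D) :
    HasSOP1 L C := by
  classical
  have hD' : Df L ∅ {v : α ⊕ (Fin (m + 1) × β) → C |
      ∀ j ∈ (Finset.univ : Finset (Fin (m + 1))), v ∈
        {v : α ⊕ (Fin (m + 1) × β) → C | v ∘ Sum.map id (Prod.mk j) ∈ D}} :=
    Df.finsetInter _ _ fun j _ => hD.comp _
  refine sop1_of_finite_trees hm (hm.cprod (Fin (m + 1)) hβ) hD' fun n => ?_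
  obtain ⟨c, hc⟩ := h (n * (m + 1))
  have hlt : ∀ r < n, ∀ j < m + 1, r * (m + 1) + j < n * (m + 1) := fun r hr j hj => by
    have : (r + 1) * (m + 1) ≤ n * (m + 1) := Nat.mul_le_mul_right _ hr
    rw [Nat.succ_mul] at this
    omega
  have hσ : ∀ r, ∃ σ : Aut L C, r < n → Fix σ (rows c (r * (m + 1))) ∧
      σ ∘ c (r * (m + 1)) false = c (r * (m + 1)) true := fun r => by
    by_cases hr : r < n
    · have e := (hc.1 (r * (m + 1)) (by simpa using hlt r hr 0 (by omega))).mono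
        (subset_union_right : rows c (r * (m + 1)) ⊆ _)
      obtain ⟨σ, hσ⟩ := e.aut hm (hm.rows hβ c _) hβ
      exact ⟨σ, fun _ => hσ⟩
    · exact ⟨FirstOrder.Language.Equiv.refl L C, fun h => absurd h hr⟩
  choose σ hσ using hσ
  refine finite_tree hD' n (fun r p => c (r * (m + 1) + p.1) false p.2)
    (fun r => rows c (r * (m + 1))) σ
    (fun r => {x | Sum.elim x (c (r * (m + 1)) true) ∈ D}) ?_ ?_ (fun r hr => (hσ r hr).1)
    ?_ ?_ ?_ ?_
  · intro r r' hr
    exact al_rows_mono c (Nat.mul_le_mul_right _ hr)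
  · intro r p
    refine al_mem_rows ?_ false p.2
    have := p.1.2
    rw [Nat.succ_mul]
    omega
  · intro r _
    refine hD.plug (empty_subset _) fun y => al_mem_rows ?_ true y
    rw [Nat.succ_mul]
    omega
  · intro r hr x hx
    have := hx 0 (Finset.mem_univ _)
    rw [mem_ofPred_eq, al_elim_map] at this
    rw [mem_ofPred_eq, ← (hσ r hr).2]
    exact this
  · intro r r' hr hr' x hx hx'
    have h1 : r * (m + 1) ≤ r' * (m + 1) := Nat.mul_le_mul_right _ hr
    have h2 := hlt r' hr' m (by omega)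
    refine hb _ c (r * (m + 1)) (r' * (m + 1) + 1) hc (by omega) (by omega) x hx fun j hj => ?_
    have := hx' ⟨j + 1, by omega⟩ (Finset.mem_univ _)
    rw [mem_ofPred_eq, al_elim_map] at this
    rw [show r' * (m + 1) + 1 + j = r' * (m + 1) + (j + 1) by omega]
    exact this
  · obtain ⟨x, hx⟩ := hc.2.1
    refine ⟨x, fun r hr j _ => ?_⟩
    rw [mem_ofPred_eq, al_elim_map]
    exact hx _ (hlt r hr j j.2)

theorem arr_empty (hm : Mon L C κ) (k : ℕ) : ∀ {β : Type 1} (_ : Sm κ β) {D : Set (α ⊕ β → C)}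
    (_ : Df L ∅ D) (_ : ∀ n, ∃ c : ℕ → Bool → β → C, Arr L ∅ D k n c), HasSOP1 L C := by
  induction k with
  | zero =>
    intro β _ D _ h
    obtain ⟨c, hc⟩ := h 0
    obtain ⟨y⟩ := hm.ne
    exact absurd ⟨fun _ => y, fun i hi => absurd hi List.not_mem_nil⟩
      (hc.2.2 [] List.Pairwise.nil (fun i hi => absurd hi List.not_mem_nil) rfl)
  | succ k ih =>
    intro β hβ D hD h
    by_cases ha : ∀ m : ℕ, ∃ (n : ℕ) (c : ℕ → Bool → β → C) (i i' : ℕ),
        Arr L ∅ D (k + 1) n c ∧ i < i' ∧ i' + m ≤ n ∧ ∃ x : α → C, Sum.elim x (c i true) ∈ D ∧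
          ∀ j < m, Sum.elim x (c (i' + j) false) ∈ D
    · refine ih (hm.sum hβ hβ)
        (D := {v : α ⊕ (β ⊕ β) → C | v ∘ Sum.map id Sum.inl ∈ D ∧ v ∘ Sum.map id Sum.inr ∈ D})
        ((hD.comp _).inter (hD.comp _)) fun m => ?_
      obtain ⟨n, c, i, i', hc, hi, hn, x, h0, h1⟩ := ha m
      exact ⟨_, arr_pair hc hi hn h0 h1⟩
    · obtain ⟨m, hm'⟩ := not_forall.mp ha
      exact arr_block hm hβ hD (m := m) h fun n c i i' hc hi hn x h0 h1 =>
        hm' ⟨n, c, i, i', hc, hi, hn, x, h0, h1⟩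

theorem arr_sop1 (hm : Mon L C κ) (hβ : Sm κ β) {B : Set C} (hB : Sm κ B) {D : Set (α ⊕ β → C)}
    (hD : Df L B D) (k : ℕ) (h : ∀ n, ∃ c : ℕ → Bool → β → C, Arr L B D k n c) : HasSOP1 L C := by
  have hD1 : Df L (∅ ∪ range (Subtype.val : B → C)) D := hD.mono (by simp)
  obtain ⟨D', hD', e⟩ := hD1.unplug
  have key : ∀ (x : α → C) (a : β → C),
      Sum.elim x (Sum.elim a (Subtype.val : B → C)) ∘ Equiv.sumAssoc α β B ∈ D' ↔
        Sum.elim x a ∈ D := fun x a => by
    rw [e]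
    refine iff_of_eq (congrArg (· ∈ D') ?_)
    funext o
    rcases o with (o | o) | o <;> rfl
  refine arr_empty hm k (hm.sum hβ hB) (hD'.comp (Equiv.sumAssoc α β B)) fun n => ?_
  obtain ⟨c, e1, ⟨x, e2⟩, e3⟩ := h n
  refine ⟨fun i b => Sum.elim (c i b) (Subtype.val : B → C), fun i hi => ?_,
    ⟨x, fun i hi => (key _ _).mpr (e2 i hi)⟩, fun s hs hsn hl => ?_⟩
  · refine eqv_elim_iff.mp ((e1 i hi).mono ?_)
    rintro y ((hy | ⟨l, hl, b, z, rfl⟩) | ⟨z, rfl⟩)
    · exact absurd hy (notMem_empty _)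
    · rcases z with z | z
      · exact Or.inr (al_mem_rows hl b z)
      · exact Or.inl z.2
    · exact Or.inl z.2
  · rintro ⟨y, hy⟩
    exact e3 s hs hsn hl ⟨y, fun i hi => (key _ _).mp (hy i hi)⟩

end Pool.Agent.Lib.MP_e4697a_lc.N1
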