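import Pool.Agent.Lib.MP_e4697a_lc.N1.SOP1

/-!
Working definitions for the proof that NSOP_1 theories are G-compact.
-/

set_option autoImplicit false

namespace Pool.Agent.Lib.MP_e4697a_lc.N1

open FirstOrder Set

/-- small index type -/
def Sm (κ : Cardinal.{1}) (β : Type 1) : Prop := Cardinal.mk β < κ

variable (L : FirstOrder.Language.{0, 0})

/-- the hypotheses on the big model -/
structure Mon (C : Type 1) [L.Structure C] (κ : Cardinal.{1}) : Prop where
  sl : κ.IsStrongLimit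
  unc : Cardinal.aleph0 < κ
  lang : Cardinal.lift.{1} L.card < κ
  sat : Saturated L C κ
  hom : StronglyHomogeneous L C κ
  ne : Nonempty C

/-- automorphisms -/
abbrev Aut (C : Type 1) [L.Structure C] : Type 1 := FirstOrder.Language.Equiv L C C

/-- level-tagged witness terms -/
inductive Tm : Type 1
  | sk (i n : ℕ) (φ : L.Formula (Option (Fin n))) (args : Fin n → Tm) : Tm

variable {C : Type 1} [L.Structure C] {α β δ γ γ0 I : Type 1}

/-- definable over `B` -/
abbrev Df (B : Set C) (D : Set (β → C)) : Prop := B.Definable L D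

/-- same type over `B` -/
def Eqv (B : Set C) (a a' : β → C) : Prop := ∀ D : Set (β → C), Df L B D → (a ∈ D ↔ a' ∈ D)

/-- `t` realises the type of the ultrafilter `𝒬` over `B` -/
def Lim (𝒬 : Ultrafilter (β → C)) (B : Set C) (t : β → C) : Prop :=
  ∀ D : Set (β → C), Df L B D → (t ∈ D ↔ D ∈ 𝒬)

/-- Tarski-Vaught condition for tuples of every length -/
def Base (M : Set C) : Prop :=
  ∀ (β : Type 1) (D : Set (β → C)), Df L M D → D.Nonempty → ∃ v ∈ D, ∀ i, v i ∈ M

variable {L} in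
/-- `σ` fixes `B` pointwise -/
def Fix (σ : Aut L C) (B : Set C) : Prop := ∀ b ∈ B, σ b = b

/-- `𝒬` is concentrated on tuples from `M` -/
def Sup {C : Type 1} (𝒬 : Ultrafilter (β → C)) (M : Set C) : Prop := {v | ∀ i, v i ∈ M} ∈ 𝒬

/-- all values of a list of tuples -/
def rng {C : Type 1} (l : List (δ → C)) : Set C := {x | ∃ t ∈ l, x ∈ range t}

/-- Morley list: every term is generic over `B` and the later terms -/
def Mor (𝒬 : Ultrafilter (δ → C)) (B : Set C) : List (δ → C) → Prop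
  | [] => True
  | t :: l => Lim L 𝒬 (B ∪ rng l) t ∧ Mor 𝒬 B l

/-- the instances of `D` along the list have a common solution -/
def Con {C : Type 1} (D : Set (α ⊕ δ → C)) (l : List (δ → C)) : Prop :=
  ∃ a : α → C, ∀ t ∈ l, Sum.elim a t ∈ D

/-- `D(x; b)` does not Kim-divide over `M` -/
def NKD (M : Set C) (D : Set (α ⊕ δ → C)) (b : δ → C) : Prop :=
  ∀ 𝒬 : Ultrafilter (δ → C), Sup 𝒬 M → Lim L 𝒬 M b → ∀ l, Mor L 𝒬 M l → Con D l

/-- the type of `a` over `M b` does not Kim-divide over `M` -/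
def KInd (M : Set C) (a : α → C) (b : δ → C) : Prop :=
  ∀ D : Set (α ⊕ δ → C), Df L M D → Sum.elim a b ∈ D → NKD L M D b

/-- list of conjugates of `n0` whose heads are generic over the later terms -/
def HG (ℛ : Ultrafilter (γ0 → C)) (M : Set C) (n0 : γ → C) (ρ : γ0 → γ) : List (γ → C) → Prop
  | [] => True
  | t :: l => Eqv L M t n0 ∧ Lim L ℛ (M ∪ rng l) (t ∘ ρ) ∧ HG ℛ M n0 ρ l

/-- the values in the rows before row `i` -/
def rows {C : Type 1} (c : ℕ → Bool → β → C) (i : ℕ) : Set C :=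
  {x | ∃ j < i, ∃ b, x ∈ range (c j b)}

/-- array of length `n` over `B`: the two entries of a row have the same type over the earlier
rows, the first column is consistent, the second column is `k`-inconsistent -/
def Arr (B : Set C) (D : Set (α ⊕ β → C)) (k n : ℕ) (c : ℕ → Bool → β → C) : Prop :=
  (∀ i < n, Eqv L (B ∪ rows c i) (c i false) (c i true)) ∧
  (∃ x : α → C, ∀ i < n, Sum.elim x (c i false) ∈ D) ∧
  ∀ s : List ℕ, s.Pairwise (· < ·) → (∀ i ∈ s, i < n) → s.length = k →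
    ¬ ∃ x : α → C, ∀ i ∈ s, Sum.elim x (c i true) ∈ D

/-- chain of `n` steps, each step keeping the type over some member of `𝒜` -/
def Ch (𝒜 : Set (Set C)) : ℕ → (I → C) → (I → C) → Prop
  | 0, u, v => u = v
  | n + 1, u, v => ∃ w, (∃ A ∈ 𝒜, Eqv L A u w) ∧ Ch 𝒜 n w v

variable {L}

/-- relabel the levels -/
def Tm.act (g : ℕ → ℕ) : Tm L → Tm L
  | .sk i n φ args => .sk (g i) n φ fun j => (args j).act g

/-- all levels satisfy `p` -/
def Tm.All (p : ℕ → Prop) : Tm L → Prop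
  | .sk i _ _ args => p i ∧ ∀ j, (args j).All p

/-- every term is a witness for its formula -/
def Wit (m : Tm L → C) : Prop :=
  ∀ (i n : ℕ) (φ : L.Formula (Option (Fin n))) (args : Fin n → Tm L),
    (∃ y : C, φ.Realize fun o => o.elim y (m ∘ args)) →
      φ.Realize fun o => o.elim (m (.sk i n φ args)) (m ∘ args)

/-- values at terms with all levels below `b` -/
def lower {C : Type 1} (b : ℕ) (m : Tm L → C) : Set C := m '' {t | t.All (· < b)}

/-- values at terms with all levels at least `b` -/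
def upper {C : Type 1} (b : ℕ) (m : Tm L → C) : Set C := m '' {t | t.All (b ≤ ·)}

/-- image of `𝒱` under relabelling of `J` -/
def QJ {C : Type 1} (𝒱 : Ultrafilter (ℕ → ℕ)) (J : Tm L → C) : Ultrafilter (Tm L → C) :=
  𝒱.map fun g => J ∘ Tm.act g

variable (L) in
/-- ranges of witness systems -/
def WR (C : Type 1) [L.Structure C] : Set (Set C) := {A | ∃ m : Tm L → C, Wit m ∧ A = range m}

/-- depends on finitely many coordinates -/
def Cyl (P : (ℕ → ℕ) → (ℕ → ℕ) → Prop) : Prop :=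
  ∃ n : ℕ, ∀ h1 h2 k1 k2 : ℕ → ℕ, (∀ i < n, h1 i = k1 i) → (∀ i < n, h2 i = k2 i) →
    (P h1 h2 ↔ P k1 k2)

/-- the two properties of the ultrafilter on relabellings -/
structure IsV (𝒱 : Ultrafilter (ℕ → ℕ)) : Prop where
  v1 : ∀ P : (ℕ → ℕ) → (ℕ → ℕ) → Prop, Cyl P →
    ((∀ᶠ g in (𝒱 : Filter (ℕ → ℕ)), ∀ᶠ h in (𝒱 : Filter (ℕ → ℕ)), P h (h ∘ g)) ↔
      ∀ᶠ h in (𝒱 : Filter (ℕ → ℕ)), ∀ᶠ h' in (𝒱 : Filter (ℕ → ℕ)), P h h')
  v3 : ∀ k : ℕ, ∀ᶠ g in (𝒱 : Filter (ℕ → ℕ)), ∀ᶠ h in (𝒱 : Filter (ℕ → ℕ)),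
    ∀ i < k, g i < h 0 ∧ h 0 ≤ h i

end Pool.Agent.Lib.MP_e4697a_lc.N1
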