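import Pool.Agent.Lib.MP_e4697a_lc.N1.Coh

/-!
Chains.
-/

set_option autoImplicit false

namespace Pool.Agent.Lib.MP_e4697a_lc.N1

open FirstOrder Set Filter

variable {L : FirstOrder.Language.{0, 0}} {C : Type 1} [L.Structure C] {κ : Cardinal.{1}}
  {α β γ γ0 δ ε ζ I : Type 1}

theorem Ch.mono {𝒜 𝒜' : Set (Set C)} (h𝒜 : ∀ A ∈ 𝒜, ∃ A' ∈ 𝒜', A' ⊆ A) {n : ℕ} {u v : I → C}
    (h : Ch L 𝒜 n u v) : Ch L 𝒜' n u v := by
  induction n generalizing u with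
  | zero => exact h
  | succ n ih =>
    obtain ⟨w, ⟨A, hA, h1⟩, h2⟩ := h
    obtain ⟨A', hA', h3⟩ := h𝒜 A hA
    exact ⟨w, ⟨A', hA', h1.mono h3⟩, ih h2⟩

theorem Ch.single {𝒜 : Set (Set C)} {A : Set C} (hA : A ∈ 𝒜) {u v : I → C} (h : Eqv L A u v) :
    Ch L 𝒜 1 u v := by
  exact ⟨v, ⟨A, hA, h⟩, rfl⟩

theorem Ch.trans {𝒜 : Set (Set C)} {n k : ℕ} {u v w : I → C} (h : Ch L 𝒜 n u v)
    (h' : Ch L 𝒜 k v w) : Ch L 𝒜 (n + k) u w := by
  induction n generalizing u with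
  | zero =>
    obtain rfl : u = v := h
    rwa [Nat.zero_add]
  | succ n ih =>
    obtain ⟨x, h1, h2⟩ := h
    rw [Nat.add_right_comm]
    exact ⟨x, h1, ih h2⟩

theorem Ch.symm {𝒜 : Set (Set C)} {n : ℕ} {u v : I → C} (h : Ch L 𝒜 n u v) : Ch L 𝒜 n v u := by
  induction n generalizing u with
  | zero => exact Eq.symm h
  | succ n ih =>
    obtain ⟨w, ⟨A, hA, h1⟩, h2⟩ := h
    exact (ih h2).trans (Ch.single hA h1.symm)

theorem Ch.pad {𝒜 : Set (Set C)} (h𝒜 : 𝒜.Nonempty) {n k : ℕ} (hk : n ≤ k) {u v : I → C}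
    (h : Ch L 𝒜 n u v) : Ch L 𝒜 k u v := by
  obtain ⟨d, rfl⟩ := Nat.exists_eq_add_of_le hk
  obtain ⟨A, hA⟩ := h𝒜
  refine h.trans ?_
  clear hk
  induction d with
  | zero => exact rfl
  | succ d ih => exact ⟨v, ⟨A, hA, Eqv.refl A v⟩, ih⟩

theorem Ch.bind {𝒜 𝒜' : Set (Set C)} {k : ℕ}
    (h𝒜 : ∀ A ∈ 𝒜, ∀ w w' : I → C, Eqv L A w w' → Ch L 𝒜' k w w') {n : ℕ} {u v : I → C}
    (h : Ch L 𝒜 n u v) : Ch L 𝒜' (n * k) u v := by
  induction n generalizing u with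
  | zero =>
    rw [Nat.zero_mul]
    exact h
  | succ n ih =>
    obtain ⟨w, ⟨A, hA, h1⟩, h2⟩ := h
    rw [Nat.succ_mul, Nat.add_comm]
    exact (h𝒜 A hA u w h1).trans (ih h2)

theorem Ch.map {𝒜 : Set (Set C)} {n : ℕ} {u v : I → C} (h : Ch L 𝒜 n u v) (σ : Aut L C) :
    Ch L ((fun A => σ '' A) '' 𝒜) n (σ ∘ u) (σ ∘ v) := by
  induction n generalizing u with
  | zero => exact congrArg (fun x => σ ∘ x) h
  | succ n ih =>
    obtain ⟨w, ⟨A, hA, h1⟩, h2⟩ := h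
    exact ⟨σ ∘ w, ⟨σ '' A, ⟨A, hA, rfl⟩, h1.map σ⟩, ih h2⟩

theorem Ch.eqv {𝒜 : Set (Set C)} {n : ℕ} {u v : I → C} (h : Ch L 𝒜 n u v) : Eqv L ∅ u v := by
  induction n generalizing u with
  | zero =>
    obtain rfl : u = v := h
    exact Eqv.refl _ _
  | succ n ih =>
    obtain ⟨w, ⟨A, _, h1⟩, h2⟩ := h
    exact (h1.mono (empty_subset A)).trans (ih h2)

/-- a chain uses finitely many sets -/
theorem Ch.list {𝒜 : Set (Set C)} {n : ℕ} {u v : I → C} (h : Ch L 𝒜 n u v) :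
    ∃ l : List (Set C), l.length = n ∧ (∀ A ∈ l, A ∈ 𝒜) ∧ Ch L {A | A ∈ l} n u v := by
  induction n generalizing u with
  | zero => exact ⟨[], rfl, fun A hA => absurd hA List.not_mem_nil, h⟩
  | succ n ih =>
    obtain ⟨w, ⟨A, hA, h1⟩, h2⟩ := h
    obtain ⟨l, hl, hl', h3⟩ := ih h2
    refine ⟨A :: l, by rw [List.length_cons, hl], fun A' hA' => ?_,
      w, ⟨A, List.mem_cons_self, h1⟩,
      h3.mono fun A' hA' => ⟨A', List.mem_cons_of_mem A hA', subset_rfl⟩⟩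
    rcases List.mem_cons.1 hA' with rfl | hA'
    · exact hA
    · exact hl' A' hA'

/-- a chain is induced by an automorphism that moves every tuple along such a chain -/
theorem Ch.aut (hm : Mon L C κ) {𝒜 : Set (Set C)} (h𝒜 : ∀ A ∈ 𝒜, Sm κ A) (hβ : Sm κ β) {n : ℕ}
    {a b : β → C} (h : Ch L 𝒜 n a b) :
    ∃ σ : Aut L C, σ ∘ a = b ∧ ∀ w : I → C, Ch L 𝒜 n w (σ ∘ w) := by
  induction n generalizing a with
  | zero => exact ⟨Language.Equiv.refl L C, h, fun w => rfl⟩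
  | succ n ih =>
    obtain ⟨w, ⟨A, hA, h1⟩, h2⟩ := h
    obtain ⟨σ, hσ, e1⟩ := h1.aut hm (h𝒜 A hA) hβ
    obtain ⟨τ, e2, h3⟩ := ih h2
    refine ⟨τ.comp σ, ?_, fun x => ⟨σ ∘ x, ⟨A, hA, Eqv.of_fix hσ x⟩, h3 (σ ∘ x)⟩⟩
    rw [← e2, ← e1]
    rfl

/-- three steps over `A`, a generic tuple, and `A` -/
theorem three (hm : Mon L C κ) {N A : Set C} (hN : Sm κ N) (hA : Sm κ A) (hδ : Sm κ δ)
    (hI : Sm κ I) {𝒯 : Ultrafilter (δ → C)} (hS : Sup 𝒯 N) {t : δ → C}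
    (ht : Lim L 𝒯 (N ∪ A) t) {w w' : I → C} (h : Eqv L N w w') :
    Ch L {A, range t} 3 w w' := by
  obtain ⟨s, hs⟩ := limEx hm (hm.union (hm.union hN hA)
    (hm.union (hI.range w) (hI.range w'))) hδ 𝒯
  obtain ⟨τ, hτ, e⟩ := (ht.eqv (hs.mono subset_union_left)).aut hm (hm.union hN hA) hδ
  have h1 : Eqv L (N ∪ range s) w w' := h.inv hS subset_rfl hs
    (subset_union_left.trans subset_union_left) (fun i => Or.inr (Or.inl ⟨i, rfl⟩))
    (fun i => Or.inr (Or.inr ⟨i, rfl⟩))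
  have h2 : Eqv L (range t) (τ.symm ∘ w) (τ.symm ∘ w') := (h1.map τ.symm).mono (by
    rintro _ ⟨i, rfl⟩
    refine ⟨s i, Or.inr ⟨i, rfl⟩, ?_⟩
    rw [← e]
    exact τ.symm_apply_apply (t i))
  have h3 : Fix τ.symm A := (hτ.mono subset_union_right).symm
  exact ⟨_, ⟨A, Or.inl rfl, Eqv.of_fix h3 w⟩, _, ⟨range t, Or.inr rfl, h2⟩,
    w', ⟨A, Or.inl rfl, (Eqv.of_fix h3 w').symm⟩, rfl⟩

/-- chains pass to limits -/
theorem Ch.lim (hm : Mon L C κ) {B : Set C} (hB : Sm κ B) (hζ : Sm κ ζ) (hI : Sm κ I)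
    {ι : Type} [Finite ι] {X : Type*} {𝒳 : Ultrafilter X} (t : X → ζ → C) (Z : ι → Set ζ)
    (A : X → ι → Set C) (hZ : ∀ i, ∀ z ∈ Z i, ∀ᶠ x in (𝒳 : Filter X), t x z ∈ A x i)
    {T : ζ → C} (n : ℕ) : ∀ (u v : X → I → C) {U V : I → C},
      (∀ᶠ x in (𝒳 : Filter X), Ch L (range (A x)) n (u x) (v x)) →
      Lim L (𝒳.map fun x => Sum.elim (t x) (Sum.elim (u x) (v x))) B
        (Sum.elim T (Sum.elim U V)) →
      Ch L (range fun i => T '' Z i) n U V := by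
  induction n with
  | zero =>
    intro u v U V h hL
    funext i
    refine (hL _ (Df.eq B (Sum.inr (Sum.inl i)) (Sum.inr (Sum.inr i)))).2 ?_
    refine Ultrafilter.mem_map.2 ?_
    filter_upwards [h] with x hx
    exact congrFun hx i
  | succ n ih =>
    intro u v U V h hL
    have : Nonempty (I → C) := ⟨U⟩
    obtain ⟨w, hw⟩ := Filter.Eventually.choice
      (r := fun x w => (∃ A' ∈ range (A x), Eqv L A' (u x) w) ∧ Ch L (range (A x)) n w (v x)) h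
    have h1 : ∀ᶠ x in (𝒳 : Filter X), ∃ i, Eqv L (A x i) (u x) (w x) := by
      filter_upwards [hw] with x hx
      obtain ⟨_, ⟨i, rfl⟩, h2⟩ := hx.1
      exact ⟨i, h2⟩
    obtain ⟨i, hi⟩ := Ultrafilter.eventually_exists_iff.1 h1
    obtain ⟨W, hW⟩ := limExt hm hB (hm.sum hζ (hm.sum hI hI)) hI hL w
    refine ⟨W, ⟨T '' Z i, ⟨i, rfl⟩, fun D hD => ?_⟩, ih w v (hw.mono fun x hx => hx.2) ?_⟩
    · have e0 : T '' Z i = ∅ ∪ range (fun z : Z i => T z) := by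
        rw [empty_union, image_eq_range]
      rw [e0] at hD
      obtain ⟨D', hD', h2⟩ := hD.unplug
      obtain ⟨s, D0, hD0, h3⟩ := hD'.fin
      have hDB : Df L B D' := hD'.mono (empty_subset B)
      have k1 := hW _ (Df.comp hDB (γ := (ζ ⊕ I ⊕ I) ⊕ I)
        (Sum.elim (fun j => Sum.inl (Sum.inr (Sum.inl j))) fun z : Z i => Sum.inl (Sum.inl z.1)))
      have k2 := hW _ (Df.comp hDB (γ := (ζ ⊕ I ⊕ I) ⊕ I)
        (Sum.elim (fun j => Sum.inr j) fun z : Z i => Sum.inl (Sum.inl z.1)))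
      simp only [mem_ofPred_eq, Sum.comp_elim, Ultrafilter.mem_map, preimage_ofPred_eq] at k1 k2
      have h4 : ∀ᶠ x in (𝒳 : Filter X), ∀ j ∈ s, ∀ z : Z i, j = Sum.inr z → t x z ∈ A x i := by
        refine (Filter.eventually_all_finset s).2 fun j _ => ?_
        cases j with
        | inl g => exact Eventually.of_forall fun x z hz => absurd hz Sum.inl_ne_inr
        | inr z =>
          filter_upwards [hZ i z z.2] with x hx z' hz
          rw [← Sum.inr_injective hz]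
          exact hx
      have h5 : ∀ᶠ x in (𝒳 : Filter X), (Sum.elim (u x) (fun z : Z i => t x z) ∈ D' ↔
          Sum.elim (w x) (fun z : Z i => t x z) ∈ D') := by
        filter_upwards [h4, hi] with x hx hx'
        rw [h3, h3]
        refine hx' _ (Df.subst hD0 (empty_subset (A x i))
          (fun (j : s) (y : I → C) => Sum.elim y (fun z : Z i => t x z) j.1) ?_)
        rintro ⟨j, hj⟩
        cases j with
        | inl g => exact Or.inl ⟨g, fun _ => rfl⟩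
        | inr z => exact Or.inr ⟨t x z, hx _ hj z rfl, fun _ => rfl⟩
      rw [h2, h2]
      exact k1.trans ((Filter.eventually_congr h5).trans k2.symm)
    · have k := hW.comp (γ := ζ ⊕ I ⊕ I) (Sum.elim (fun z => Sum.inl (Sum.inl z))
        (Sum.elim (fun j => Sum.inr j) fun j => Sum.inl (Sum.inr (Sum.inr j))))
      rw [Ultrafilter.map_map] at k
      have e1 : ∀ (a : ζ → C) (b c d : I → C),
          Sum.elim (Sum.elim a (Sum.elim b c)) d ∘ (Sum.elim (fun z => Sum.inl (Sum.inl z))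
            (Sum.elim (fun j => Sum.inr j) fun j => Sum.inl (Sum.inr (Sum.inr j))) :
              ζ ⊕ I ⊕ I → (ζ ⊕ I ⊕ I) ⊕ I) = Sum.elim a (Sum.elim d c) := by
        intro a b c d
        funext y
        rcases y with y | y | y <;> rfl
      rw [e1] at k
      refine (congrArg (fun F => Lim L (𝒳.map F) B (Sum.elim T (Sum.elim W V))) ?_).mp k
      exact funext fun x => e1 _ _ _ _

end Pool.Agent.Lib.MP_e4697a_lc.N1
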