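import Pool.Agent.Lib.MP_e4697a_lc.N1.Tm
import Pool.Agent.Lib.MP_e4697a_lc.N1.Ch

/-!
Couplings of ultrafilters on systems.
-/

set_option autoImplicit false

namespace Pool.Agent.Lib.MP_e4697a_lc.N1

open FirstOrder Set Filter

variable {L : FirstOrder.Language.{0, 0}} {C : Type 1} [L.Structure C] {κ : Cardinal.{1}}
  {α β γ γ0 δ ε ζ I : Type 1}

/-- limit of the images of `𝒲` under a sequence of automorphisms -/
noncomputable def op {Y : Type 1} (θ : ℕ → Aut L C) (𝒲 : Ultrafilter (Y → C)) :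
    Ultrafilter (Y → C) :=
  UU.bind fun j => 𝒲.map fun m => θ j ∘ m

/-- countable support -/
def CS {Y : Type*} (𝒲 : Ultrafilter Y) : Prop := ∃ S : Set Y, S.Countable ∧ S ∈ 𝒲

theorem CS.op {θ : ℕ → Aut L C} {𝒲 : Ultrafilter (ζ → C)} (h : CS 𝒲) : CS (op θ 𝒲) := by
  obtain ⟨S, h1, h2⟩ := h
  refine ⟨⋃ j, (fun m => θ j ∘ m) '' S, countable_iUnion fun j => h1.image _,
    mem_ubind.2 (Eventually.of_forall fun j => Ultrafilter.mem_map.2 ?_)⟩
  exact mem_of_superset h2 fun m hm => mem_iUnion.2 ⟨j, m, hm, rfl⟩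

theorem block (hm : Mon L C κ) (hζ : Sm κ ζ) (hI : Sm κ I) (Ns : List (Set C))
    (hN : ∀ N ∈ Ns, Sm κ N ∧ Base L N) :
    ∃ (ι : Type) (_ : Finite ι) (_ : Nonempty ι) (ℓ : ℕ),
      ∀ Φ : Ultrafilter (ζ → C) → Prop, (∀ (θ : ℕ → Aut L C) 𝒲, Φ 𝒲 → Φ (op θ 𝒲)) →
        ∀ 𝒲, CS 𝒲 → Φ 𝒲 → ∃ (𝒲' : Ultrafilter (ζ → C)) (𝒞 : Ultrafilter (ι → ζ → C)),
          CS 𝒲' ∧ Φ 𝒲' ∧ (∀ i, (𝒞.map fun c => c i) = 𝒲') ∧
          ∀ᶠ c in (𝒞 : Filter (ι → ζ → C)), ∀ N ∈ Ns, ∀ w w' : I → C, Eqv L N w w' →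
            Ch L (range fun i => range (c i)) ℓ w w' := by
  induction Ns with
  | nil =>
    refine ⟨Unit, inferInstance, inferInstance, 0, fun Φ _ 𝒲 h1 h2 =>
      ⟨𝒲, 𝒲.map fun m _ => m, h1, h2, fun i => Ultrafilter.map_id' 𝒲,
        Eventually.of_forall fun c N hN => absurd hN List.not_mem_nil⟩⟩
  | cons N Ns ih =>
    obtain ⟨ι, fin, ⟨i0⟩, ℓ, H⟩ := ih fun N' h => hN N' (List.mem_cons_of_mem _ h)
    obtain ⟨n1, n2⟩ := hN N List.mem_cons_self
    refine ⟨Option ι, inferInstance, inferInstance, 3 + ℓ + 3, fun Φ hΦ 𝒲 h1 h2 => ?_⟩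
    obtain ⟨𝒲1, 𝒞, c1, c2, c3, c4⟩ := H Φ hΦ 𝒲 h1 h2
    obtain ⟨S, s1, s2⟩ := id c1
    have hX := hm.vals hζ s1
    obtain ⟨𝒯, t1, t2⟩ := coheir n2 (Subtype.val : {x | ∃ t ∈ S, x ∈ range t} → C)
    obtain ⟨θ, θ1, θ2⟩ := morAut hm n1 hX t2
    have mg : ∀ (i : ι) (j : ℕ) (s : Set (ζ → C)),
        (∀ᶠ c in (𝒞 : Filter (ι → ζ → C)), θ j ∘ c i ∈ s) ↔ s ∈ 𝒲1.map fun m => θ j ∘ m := by
      intro i j s
      rw [← c3 i]
      rfl
    refine ⟨op θ 𝒲1, UU.bind fun j => UU.bind fun j' =>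
      𝒞.map fun c o => o.elim (θ j' ∘ c i0) fun i => θ j ∘ c i, c1.op, hΦ θ _ c2, fun o => ?_, ?_⟩
    · refine Ultrafilter.ext fun s => ?_
      rw [Ultrafilter.mem_map, mem_ubind, op, mem_ubind]
      cases o with
      | none =>
        refine (eventually_congr (Eventually.of_forall fun j => ?_)).trans eventually_const
        rw [mem_ubind]
        exact eventually_congr (Eventually.of_forall fun j' => mg i0 j' s)
      | some i =>
        refine eventually_congr (Eventually.of_forall fun j => ?_)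
        rw [mem_ubind]
        exact (eventually_congr (Eventually.of_forall fun j' => mg i j s)).trans eventually_const
    · refine ev_ubind.2 (Eventually.of_forall fun j => ev_ubind.2 ((UU_gt j).mono fun j' hj => ?_))
      have a : ∀ᶠ c in (𝒞 : Filter (ι → ζ → C)), c i0 ∈ S := by
        rw [← c3 i0] at s2
        exact s2
      refine (a.and c4).mono ?_
      rintro c ⟨a1, a2⟩
      have sub : ∀ k, range (θ k ∘ c i0) ⊆
          range (θ k ∘ (Subtype.val : {x | ∃ t ∈ S, x ∈ range t} → C)) := by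
        rintro k x ⟨z, rfl⟩
        exact ⟨⟨c i0 z, c i0, a1, z, rfl⟩, rfl⟩
      have th : ∀ w w' : I → C, Eqv L N w w' → Ch L (range fun o : Option ι =>
          range (o.elim (θ j' ∘ c i0) fun i => θ j ∘ c i)) 3 w w' := by
        intro w w' h
        refine (three hm n1 (hζ.range (θ j ∘ c i0)) hX hI t1 ((θ2 j').mono
          (union_subset_union (Subset.refl N) fun x hx => ⟨j, hj, sub j hx⟩)) h).mono ?_
        rintro A (rfl | rfl)
        · exact ⟨_, ⟨some i0, rfl⟩, Subset.refl _⟩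
        · exact ⟨_, ⟨none, rfl⟩, sub j'⟩
      intro N' hN' w w' h
      rcases List.mem_cons.1 hN' with rfl | hN'
      · exact (th w w' h).pad (range_nonempty _) (by omega)
      · refine ((th _ _ (Eqv.of_fix (θ1 j) w)).trans (((a2 N' hN' w w' h).map (θ j)).mono ?_)).trans
          (th _ _ (Eqv.of_fix (θ1 j) w').symm)
        rintro A ⟨_, ⟨i, rfl⟩, rfl⟩
        exact ⟨_, ⟨some i, rfl⟩, (range_comp (θ j) (c i)).subset⟩

end Pool.Agent.Lib.MP_e4697a_lc.N1
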