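import Pool.Agent.Lib.MP_e4697a_lc.N1.Sat

/-!
Coheirs, invariance, binary tensor product, Morley lists.
-/

set_option autoImplicit false

namespace Pool.Agent.Lib.MP_e4697a_lc.N1

open FirstOrder Set Filter

variable {L : FirstOrder.Language.{0, 0}} {C : Type 1} [L.Structure C] {κ : Cardinal.{1}}
  {α β γ γ0 δ ε ζ I : Type 1}

theorem coh_lim_of {𝒬 : Ultrafilter (β → C)} {B : Set C} {t : β → C}
    (h : ∀ D : Set (β → C), Df L B D → t ∈ D → D ∈ 𝒬) : Lim L 𝒬 B t := by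
  intro D hD
  refine ⟨h D hD, fun hq => ?_⟩
  by_contra hn
  exact (Ultrafilter.compl_mem_iff_notMem.1 (h Dᶜ hD.compl hn)) hq

theorem coh_univ (B : Set C) : Df L B (univ : Set (β → C)) := Set.definable_univ

theorem coheir {M : Set C} (hM : Base L M) (b : β → C) :
    ∃ 𝒬 : Ultrafilter (β → C), Sup 𝒬 M ∧ Lim L 𝒬 M b := by
  obtain ⟨𝒬, h𝒬⟩ := exU (ι := {D : Set (β → C) // Df L M D ∧ b ∈ D})
    (fun D => D.1 ∩ {v | ∀ i, v i ∈ M}) (by
      intro s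
      obtain ⟨v, hv, hvM⟩ := hM β _ (Df.finsetInter s (fun D => D.1) fun D _ => D.2.1)
        ⟨b, fun D _ => D.2.2⟩
      exact ⟨v, fun D hD => ⟨hv D hD, hvM⟩⟩)
  refine ⟨𝒬, ?_, coh_lim_of fun D hD hb => ?_⟩
  · exact mem_of_superset (h𝒬 ⟨univ, coh_univ M, mem_univ _⟩) inter_subset_right
  · exact mem_of_superset (h𝒬 ⟨D, hD, hb⟩) inter_subset_left

/-- coheir with a prescribed marginal -/
theorem coheirExt [Nonempty C] {M : Set C} (hM : Base L M) {ρ : γ0 → δ}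
    (hρ : Function.Injective ρ) (r : δ → C) {ℛ : Ultrafilter (γ0 → C)} (hS : Sup ℛ M)
    (hL : Lim L ℛ M (r ∘ ρ)) :
    ∃ 𝒯 : Ultrafilter (δ → C), Sup 𝒯 M ∧ Lim L 𝒯 M r ∧ (𝒯.map fun v => v ∘ ρ) = ℛ := by
  classical
  let π : δ → δ ⊕ γ0 := Function.extend ρ Sum.inr Sum.inl
  have hπ : ∀ g, π (ρ g) = Sum.inr g := fun g => hρ.extend_apply _ _ g
  have hr : Sum.elim r (r ∘ ρ) ∘ π = r := by
    funext d
    by_cases hd : ∃ g, ρ g = d
    · obtain ⟨g, rfl⟩ := hd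
      simp only [Function.comp_apply, hπ, Sum.elim_inr]
    · have : π d = Sum.inl d := Function.extend_apply' _ _ _ hd
      simp only [Function.comp_apply, this, Sum.elim_inl]
  obtain ⟨𝒯, h𝒯⟩ := exU
    (ι := {D : Set (δ → C) // Df L M D ∧ r ∈ D} × {X : Set (γ0 → C) // X ∈ ℛ})
    (fun p => {v | v ∈ p.1.1 ∧ v ∘ ρ ∈ p.2.1 ∧ ∀ i, v i ∈ M}) (by
      intro s
      have hD : Df L M {v : δ → C | ∀ p ∈ s, v ∈ p.1.1} :=
        Df.finsetInter s (fun p => p.1.1) fun p _ => p.1.2.1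
      have hD' := hD.comp π
      have hE := (hL _ hD'.ex).1 ⟨r, by
        show Sum.elim r (r ∘ ρ) ∘ π ∈ {v : δ → C | ∀ p ∈ s, v ∈ p.1.1}
        rw [hr]
        exact fun p _ => p.1.2.2⟩
      have hX : (⋂ p ∈ s, p.2.1) ∈ (ℛ : Filter (γ0 → C)) :=
        (biInter_finset_mem s).2 fun p _ => p.2.2
      obtain ⟨h, ⟨hhE, hhX⟩, hhM⟩ :=
        Ultrafilter.nonempty_of_mem (inter_mem (inter_mem hE hX) hS)
      obtain ⟨z, hz, hzM⟩ := hM δ _ (hD'.plug Subset.rfl hhM) hhE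
      refine ⟨Sum.elim z h ∘ π, fun p hp => ⟨hz p hp, ?_, fun i => ?_⟩⟩
      · have : (Sum.elim z h ∘ π) ∘ ρ = h := by
          funext g
          simp only [Function.comp_apply, hπ, Sum.elim_inr]
        rw [this]
        exact mem_iInter₂.1 hhX p hp
      · show Sum.elim z h (π i) ∈ M
        cases π i with
        | inl d => exact hzM d
        | inr g => exact hhM g)
  refine ⟨𝒯, ?_, coh_lim_of fun D hD hb => ?_, ?_⟩
  · exact mem_of_superset (h𝒯 (⟨univ, coh_univ M, mem_univ _⟩, ⟨univ, univ_mem⟩))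
      fun v hv => hv.2.2
  · exact mem_of_superset (h𝒯 (⟨D, hD, hb⟩, ⟨univ, univ_mem⟩)) fun v hv => hv.1
  · apply Ultrafilter.eq_of_le
    intro X hX
    have : {v : δ → C | v ∘ ρ ∈ X} ∈ 𝒯 :=
      mem_of_superset (h𝒯 (⟨univ, coh_univ M, mem_univ _⟩, ⟨X, hX⟩)) fun v hv => hv.2.1
    exact this

theorem Eqv.inv {M A B : Set C} {𝒬 : Ultrafilter (δ → C)} (hS : Sup 𝒬 M) (hA : M ⊆ A)
    {a a' : β → C} (h : Eqv L A a a') {t : δ → C} (ht : Lim L 𝒬 B t) (hB : A ⊆ B)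
    (ha : ∀ i, a i ∈ B) (ha' : ∀ i, a' i ∈ B) : Eqv L (A ∪ range t) a a' := by
  intro D hD
  obtain ⟨D', hD', e⟩ := hD.unplug
  rw [e, e]
  have h1 := ht _ (hD'.plugL hB ha)
  have h2 := ht _ (hD'.plugL hB ha')
  refine h1.trans (Iff.trans ?_ h2.symm)
  have key : ∀ s : δ → C, (∀ i, s i ∈ M) → (Sum.elim a s ∈ D' ↔ Sum.elim a' s ∈ D') :=
    fun s hs => h _ (hD'.plug Subset.rfl fun i => hA (hs i))
  constructor
  · intro hq
    exact mem_of_superset (inter_mem hq hS) fun s hs => (key s hs.2).1 hs.1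
  · intro hq
    exact mem_of_superset (inter_mem hq hS) fun s hs => (key s hs.2).2 hs.1

/-- binary tensor product -/
noncomputable def ten {C : Type 1} (𝒩 : Ultrafilter (β → C)) (𝒬 : Ultrafilter (γ → C)) :
    Ultrafilter (β ⊕ γ → C) :=
  𝒩.bind fun u => 𝒬.map fun w => Sum.elim u w

omit [L.Structure C] in
theorem coh_mem_ten {𝒩 : Ultrafilter (β → C)} {𝒬 : Ultrafilter (γ → C)} {D : Set (β ⊕ γ → C)} :
    D ∈ ten 𝒩 𝒬 ↔ ∀ᶠ u in (𝒩 : Filter (β → C)), {w | Sum.elim u w ∈ D} ∈ 𝒬 := mem_ubind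

omit [L.Structure C] in
theorem Sup.ten {M : Set C} {𝒩 : Ultrafilter (β → C)} {𝒬 : Ultrafilter (γ → C)} (h : Sup 𝒩 M)
    (h' : Sup 𝒬 M) : Sup (ten 𝒩 𝒬) M := by
  refine coh_mem_ten.2 (mem_of_superset h fun u hu => mem_of_superset h' fun w hw i => ?_)
  cases i with
  | inl i => exact hu i
  | inr i => exact hw i

theorem lim_ten_iff {M B : Set C} {𝒩 : Ultrafilter (β → C)} {𝒬 : Ultrafilter (γ → C)}
    (h : Sup 𝒩 M) (hB : M ⊆ B) {t : β → C} {w : γ → C} :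
    Lim L (ten 𝒩 𝒬) B (Sum.elim t w) ↔ Lim L 𝒬 B w ∧ Lim L 𝒩 (B ∪ range w) t := by
  have key : Lim L 𝒬 B w → ∀ D : Set (β ⊕ γ → C), Df L B D →
      (D ∈ ten 𝒩 𝒬 ↔ {u | Sum.elim u w ∈ D} ∈ 𝒩) := by
    intro hw D hD
    rw [coh_mem_ten]
    have k : ∀ u : β → C, (∀ i, u i ∈ M) →
        (Sum.elim u w ∈ D ↔ {s | Sum.elim u s ∈ D} ∈ 𝒬) :=
      fun u hu => hw _ (hD.plugL Subset.rfl fun i => hB (hu i))
    constructor
    · intro hq
      exact mem_of_superset (inter_mem hq h) fun u hu => (k u hu.2).2 hu.1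
    · intro hq
      exact mem_of_superset (inter_mem hq h) fun u hu => (k u hu.2).1 hu.1
  constructor
  · intro H
    have hw : Lim L 𝒬 B w := coh_lim_of fun D hD hwD => by
      have h1 := coh_mem_ten.1 ((H _ (hD.comp Sum.inr)).1 hwD)
      obtain ⟨u, hu⟩ := h1.exists
      exact hu
    refine ⟨hw, fun D hD => ?_⟩
    obtain ⟨D', hD', e⟩ := hD.unplug
    have : D = {u | Sum.elim u w ∈ D'} := Set.ext e
    rw [e, H D' hD', key hw D' hD', this]
  · rintro ⟨hw, ht⟩ D hD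
    rw [key hw D hD]
    exact ht _ (hD.plug subset_union_left fun i => Or.inr ⟨i, rfl⟩)

omit [L.Structure C] in
theorem rng_cons (t : δ → C) (l : List (δ → C)) : rng (t :: l) = range t ∪ rng l := by
  ext x
  simp only [rng, List.mem_cons, mem_ofPred_eq, mem_union, exists_eq_or_imp]

omit [L.Structure C] in
theorem rng_append (l l' : List (δ → C)) : rng (l ++ l') = rng l ∪ rng l' := by
  ext x
  simp only [rng, List.mem_append, mem_ofPred_eq, mem_union, or_and_right, exists_or]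

theorem Mor.mono {𝒬 : Ultrafilter (δ → C)} {B B' : Set C} {l : List (δ → C)} (h : Mor L 𝒬 B' l)
    (hB : B ⊆ B') : Mor L 𝒬 B l := by
  induction l with
  | nil => trivial
  | cons t l ih => exact ⟨h.1.mono (union_subset_union_left _ hB), ih h.2⟩

theorem Mor.lim {𝒬 : Ultrafilter (δ → C)} {B : Set C} {l : List (δ → C)} (h : Mor L 𝒬 B l)
    {t : δ → C} (ht : t ∈ l) : Lim L 𝒬 B t := by
  induction l with
  | nil => cases ht
  | cons s l ih =>
    rcases List.mem_cons.1 ht with rfl | ht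
    · exact h.1.mono subset_union_left
    · exact ih h.2 ht

theorem Mor.append {𝒬 : Ultrafilter (δ → C)} {B : Set C} {l l' : List (δ → C)}
    (h : Mor L 𝒬 (B ∪ rng l') l) (h' : Mor L 𝒬 B l') : Mor L 𝒬 B (l ++ l') := by
  induction l with
  | nil => exact h'
  | cons s l ih =>
    refine ⟨h.1.mono ?_, ih h.2⟩
    show B ∪ rng (l ++ l') ⊆ _
    rw [rng_append]
    rintro x (hx | hx | hx)
    · exact Or.inl (Or.inl hx)
    · exact Or.inr hx
    · exact Or.inl (Or.inr hx)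

theorem Mor.comp {𝒬 : Ultrafilter (δ → C)} {B : Set C} {l : List (δ → C)} (h : Mor L 𝒬 B l)
    (π : γ → δ) : Mor L (𝒬.map fun v => v ∘ π) B (l.map fun t => t ∘ π) := by
  induction l with
  | nil => trivial
  | cons s l ih =>
    refine ⟨(h.1.comp π).mono (union_subset_union_right _ ?_), ih h.2⟩
    rintro x ⟨t, ht, i, rfl⟩
    obtain ⟨u, hu, rfl⟩ := List.mem_map.1 ht
    exact ⟨u, hu, π i, rfl⟩

theorem morEx (hm : Mon L C κ) {B : Set C} (hB : Sm κ B) (hδ : Sm κ δ) (𝒬 : Ultrafilter (δ → C))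
    (k : ℕ) : ∃ l : List (δ → C), l.length = k ∧ Mor L 𝒬 B l := by
  induction k with
  | zero => exact ⟨[], rfl, trivial⟩
  | succ k ih =>
    obtain ⟨l, hl, h⟩ := ih
    obtain ⟨t, ht⟩ := limEx hm (hm.union hB (hm.rng hδ l)) hδ 𝒬
    exact ⟨t :: l, by rw [List.length_cons, hl], ht, h⟩

theorem morUnique (hm : Mon L C κ) {M : Set C} (hM : Sm κ M) (hδ : Sm κ δ)
    {𝒬 : Ultrafilter (δ → C)} (hS : Sup 𝒬 M) {l l' : List (δ → C)} (h : Mor L 𝒬 M l)
    (h' : Mor L 𝒬 M l') (hl : l.length = l'.length) :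
    ∃ σ : Aut L C, Fix σ M ∧ (l.map fun t => σ ∘ t) = l' := by
  induction l generalizing l' with
  | nil =>
    refine ⟨FirstOrder.Language.Equiv.refl L C, fun _ _ => rfl, ?_⟩
    exact (List.length_eq_zero_iff.1 hl.symm).symm
  | cons t l ih =>
    cases l' with
    | nil => cases hl
    | cons t' l' =>
      obtain ⟨σ, hσ, e⟩ := ih h.2 h'.2 (Nat.succ.inj hl)
      have h1 : Lim L 𝒬 (M ∪ rng l') (σ ∘ t) := by
        refine (h.1.fix hS hσ).mono ?_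
        rintro x (hx | ⟨u, hu, i, rfl⟩)
        · exact ⟨x, Or.inl hx, hσ x hx⟩
        · rw [← e] at hu
          obtain ⟨u0, hu0, rfl⟩ := List.mem_map.1 hu
          exact ⟨u0 i, Or.inr ⟨u0, hu0, i, rfl⟩, rfl⟩
      obtain ⟨τ, hτ, e'⟩ := Eqv.aut hm (hm.union hM (hm.rng hδ l')) hδ (h1.eqv h'.1)
      refine ⟨τ.comp σ, (hτ.mono subset_union_left).comp hσ, ?_⟩
      rw [List.map_cons]
      congr 1
      rw [← e]
      refine List.map_congr_left fun u hu => ?_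
      funext i
      refine hτ (σ (u i)) (Or.inr ⟨σ ∘ u, ?_, i, rfl⟩)
      rw [← e]
      exact List.mem_map.2 ⟨u, hu, rfl⟩

theorem Con.of_mor (hm : Mon L C κ) {M : Set C} (hM : Sm κ M) (hδ : Sm κ δ)
    {𝒬 : Ultrafilter (δ → C)} (hS : Sup 𝒬 M) {l l' : List (δ → C)} (h : Mor L 𝒬 M l)
    (h' : Mor L 𝒬 M l') (hl : l.length = l'.length) {D : Set (α ⊕ δ → C)} (hD : Df L M D)
    (hc : Con D l) : Con D l' := by
  obtain ⟨σ, hσ, rfl⟩ := morUnique hm hM hδ hS h h' hl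
  obtain ⟨a, ha⟩ := hc
  refine ⟨σ ∘ a, fun t ht => ?_⟩
  obtain ⟨u, hu, rfl⟩ := List.mem_map.1 ht
  have : Sum.elim (σ ∘ a) (σ ∘ u) = σ ∘ Sum.elim a u := by
    funext i
    cases i <;> rfl
  rw [this]
  exact (hD.fix hσ _).2 (ha u hu)

/-- an infinite Morley sequence of conjugates -/
theorem morAut (hm : Mon L C κ) {M : Set C} (hM : Sm κ M) (hδ : Sm κ δ)
    {𝒯 : Ultrafilter (δ → C)} {r : δ → C} (h : Lim L 𝒯 M r) :
    ∃ θ : ℕ → Aut L C, (∀ j, Fix (θ j) M) ∧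
      ∀ j, Lim L 𝒯 (M ∪ {x | ∃ i < j, x ∈ range (θ i ∘ r)}) (θ j ∘ r) := by
  have step : ∀ l : List (δ → C), ∃ θ : Aut L C, Fix θ M ∧ Lim L 𝒯 (M ∪ rng l) (θ ∘ r) := by
    intro l
    obtain ⟨t, ht⟩ := limEx hm (hm.union hM (hm.rng hδ l)) hδ 𝒯
    obtain ⟨θ, hθ, e⟩ := Eqv.aut hm hM hδ (h.eqv (ht.mono subset_union_left))
    exact ⟨θ, hθ, e ▸ ht⟩
  choose F hF using step
  let ls : ℕ → List (δ → C) := fun n => Nat.rec [] (fun _ l => (F l ∘ r) :: l) n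
  have hls : ∀ j i, i < j → (F (ls i) ∘ r) ∈ ls j := by
    intro j
    induction j with
    | zero => intro i hi; cases hi
    | succ j ih =>
      intro i hi
      show _ ∈ (F (ls j) ∘ r) :: ls j
      rcases Nat.lt_succ_iff_lt_or_eq.1 hi with hi | rfl
      · exact List.mem_cons_of_mem _ (ih i hi)
      · exact List.mem_cons_self
  refine ⟨fun j => F (ls j), fun j => (hF _).1, fun j => (hF (ls j)).2.mono ?_⟩
  refine union_subset_union_right _ ?_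
  rintro x ⟨i, hi, hx⟩
  exact ⟨_, hls j i hi, hx⟩

theorem mor_of_seq {𝒯 : Ultrafilter (δ → C)} {M : Set C} {c : ℕ → δ → C}
    (h : ∀ j, Lim L 𝒯 (M ∪ {x | ∃ i < j, x ∈ range (c i)}) (c j)) (s : List ℕ)
    (hs : s.Pairwise (· > ·)) : Mor L 𝒯 M (s.map c) := by
  induction s with
  | nil => trivial
  | cons j s ih =>
    rw [List.pairwise_cons] at hs
    refine ⟨(h j).mono (union_subset_union_right _ ?_), ih hs.2⟩
    rintro x ⟨t, ht, hx⟩
    obtain ⟨i, hi, rfl⟩ := List.mem_map.1 ht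
    exact ⟨i, hs.1 i hi, hx⟩

end Pool.Agent.Lib.MP_e4697a_lc.N1
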