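import Pool.Agent.Lib.MP_e4697a_lc.N1.Base

/-!
Definable sets, types and limits: the elementary calculus.
-/

set_option autoImplicit false

namespace Pool.Agent.Lib.MP_e4697a_lc.N1

open FirstOrder Set Filter

variable {L : FirstOrder.Language.{0, 0}} {C : Type 1} [L.Structure C] {κ : Cardinal.{1}}
  {α β γ γ0 δ ε ζ I : Type 1}

theorem df_rel {ι : Type*} {B : Set C} {D : Set (β → C)} (φ : L.Formula ι) (g : ι → B ⊕ β)
    (h : ∀ v, v ∈ D ↔ φ.Realize (Sum.elim Subtype.val v ∘ g)) : Df L B D :=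
  definable_iff_exists_formula_sum.2 ⟨φ.relabel g, Set.ext fun v =>
    (h v).trans Language.Formula.realize_relabel.symm⟩

theorem Df.subst {B B' : Set C} {D : Set (β → C)} (hD : Df L B D) (hB : B ⊆ B')
    (f : β → (γ → C) → C)
    (hf : ∀ b, (∃ g, ∀ v, f b v = v g) ∨ ∃ c ∈ B', ∀ v, f b v = c) :
    Df L B' {v | (fun b => f b v) ∈ D} := by
  obtain ⟨φ, rfl⟩ := definable_iff_exists_formula_sum.1 hD
  have hx : ∀ b, ∃ x : B' ⊕ γ, ∀ v, f b v = Sum.elim Subtype.val v x := fun b => by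
    rcases hf b with ⟨g, hg⟩ | ⟨c, hc, hg⟩
    · exact ⟨.inr g, hg⟩
    · exact ⟨.inl ⟨c, hc⟩, hg⟩
  choose x hx using hx
  refine df_rel φ (Sum.elim (fun c => .inl ⟨c.1, hB c.2⟩) x) fun v => ?_
  refine iff_of_eq (congrArg φ.Realize (funext fun i => ?_))
  rcases i with c | b
  · rfl
  · exact hx b v

theorem Df.comp {B : Set C} {D : Set (β → C)} (hD : Df L B D) (π : β → γ) :
    Df L B {v : γ → C | v ∘ π ∈ D} := by
  exact hD.preimage_comp π

theorem Df.plug {B B' : Set C} {D : Set (α ⊕ β → C)} (hD : Df L B D) (hB : B ⊆ B') {t : β → C}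
    (ht : ∀ i, t i ∈ B') : Df L B' {a : α → C | Sum.elim a t ∈ D} := by
  have h := hD.subst hB (fun i (a : α → C) => Sum.elim a t i) fun i => by
    rcases i with i | i
    · exact Or.inl ⟨i, fun _ => rfl⟩
    · exact Or.inr ⟨t i, ht i, fun _ => rfl⟩
  exact h

theorem Df.plugL {B B' : Set C} {D : Set (α ⊕ β → C)} (hD : Df L B D) (hB : B ⊆ B') {a : α → C}
    (ha : ∀ i, a i ∈ B') : Df L B' {t : β → C | Sum.elim a t ∈ D} := by
  have h := hD.subst hB (fun i (t : β → C) => Sum.elim a t i) fun i => by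
    rcases i with i | i
    · exact Or.inr ⟨a i, ha i, fun _ => rfl⟩
    · exact Or.inl ⟨i, fun _ => rfl⟩
  exact h

theorem Df.unplug {B : Set C} {t : γ → C} {D : Set (β → C)} (hD : Df L (B ∪ range t) D) :
    ∃ D' : Set (β ⊕ γ → C), Df L B D' ∧ ∀ v, v ∈ D ↔ Sum.elim v t ∈ D' := by
  obtain ⟨φ, rfl⟩ := definable_iff_exists_formula_sum.1 hD
  have hx : ∀ c : ↥(B ∪ range t), ∃ x : B ⊕ (β ⊕ γ), ∀ v : β → C,
      c.1 = Sum.elim Subtype.val (Sum.elim v t) x := by
    rintro ⟨c, hc | ⟨g, rfl⟩⟩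
    · exact ⟨.inl ⟨c, hc⟩, fun _ => rfl⟩
    · exact ⟨.inr (.inr g), fun _ => rfl⟩
  choose x hx using hx
  refine ⟨_, df_rel φ (Sum.elim x fun b => .inr (.inl b)) fun _ => Iff.rfl, fun v => ?_⟩
  refine iff_of_eq (congrArg φ.Realize (funext fun i => ?_))
  rcases i with c | b
  · exact hx c v
  · rfl

theorem Df.fin {B : Set C} {D : Set (β → C)} (hD : Df L B D) :
    ∃ (s : Finset β) (D0 : Set (s → C)), Df L B D0 ∧ ∀ v, v ∈ D ↔ (fun i : s => v i) ∈ D0 := by
  classical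
  obtain ⟨φ, rfl⟩ := definable_iff_exists_formula_sum.1 hD
  refine ⟨φ.freeVarFinset.toRight, _, definable_iff_exists_formula_sum.2
    ⟨φ.restrictFreeVar fun x => Sum.casesOn x.1 (fun c _ => Sum.inl c)
      (fun b hb => Sum.inr ⟨b, Finset.mem_toRight.2 hb⟩) x.2, rfl⟩, fun v => ?_⟩
  refine (Language.BoundedFormula.realize_restrictFreeVar _ ?_).symm
  rintro ⟨c | b, hx⟩ <;> rfl

theorem Df.supp {B : Set C} {D : Set (β → C)} (hD : Df L B D) :
    ∃ s : Finset β, ∀ v w : β → C, (∀ i ∈ s, v i = w i) → (v ∈ D ↔ w ∈ D) := by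
  obtain ⟨s, D0, -, h⟩ := hD.fin
  refine ⟨s, fun v w hvw => ?_⟩
  rw [h, h, show (fun i : s => v i) = fun i : s => w i from funext fun i => hvw i i.2]

theorem Df.ex [Nonempty C] {B : Set C} {D : Set (α ⊕ β → C)} (hD : Df L B D) :
    Df L B {v : β → C | ∃ a : α → C, Sum.elim a v ∈ D} := by
  classical
  obtain ⟨s, D0, h0, h⟩ := hD.fin
  let π : s → β ⊕ s.toLeft := fun x => Sum.casesOn x.1
    (fun a ha => Sum.inr ⟨a, Finset.mem_toLeft.2 ha⟩) (fun b _ => Sum.inl b) x.2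
  have h1 := (h0.comp π).exists_of_finite
  have e : {v : β → C | ∃ a : α → C, Sum.elim a v ∈ D} = {v : β → C | ∃ u : s.toLeft → C,
      Sum.elim v u ∈ {w : β ⊕ s.toLeft → C | w ∘ π ∈ D0}} := by
    ext v
    constructor
    · rintro ⟨a, ha⟩
      refine ⟨fun i => a i, ?_⟩
      have e1 : (Sum.elim v fun i : s.toLeft => a i) ∘ π = fun i : s => Sum.elim a v i := by
        funext ⟨i, hi⟩
        rcases i with i | i <;> rfl
      show _ ∘ π ∈ D0
      rw [e1]
      exact (h _).1 ha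
    · rintro ⟨u, hu⟩
      refine ⟨fun i => if hi : i ∈ s.toLeft then u ⟨i, hi⟩ else Classical.arbitrary C, (h _).2 ?_⟩
      have e1 : (fun i : s => Sum.elim (fun i => if hi : i ∈ s.toLeft then u ⟨i, hi⟩
          else Classical.arbitrary C) v i) = Sum.elim v u ∘ π := by
        funext ⟨i, hi⟩
        rcases i with i | i
        · exact dif_pos (Finset.mem_toLeft.2 hi)
        · rfl
      rw [e1]
      exact hu
  rw [e]
  exact h1

theorem Df.eq (B : Set C) (i j : β) : Df L B {v : β → C | v i = v j} := by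
  refine df_rel ((Language.Term.var false).equal (Language.Term.var true))
    (fun b : Bool => .inr (if b then j else i)) fun v => ?_
  simp

theorem Df.eqc {B : Set C} (i : β) {c : C} (hc : c ∈ B) : Df L B {v : β → C | v i = c} := by
  refine df_rel ((Language.Term.var false).equal (Language.Term.var true))
    (fun b : Bool => if b then .inl ⟨c, hc⟩ else .inr i) fun v => ?_
  simp

theorem Df.formula {ι : Type} (B : Set C) (φ : L.Formula ι) (f : ι → β) :
    Df L B {v : β → C | φ.Realize (v ∘ f)} := by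
  exact df_rel φ (fun i => .inr (f i)) fun _ => Iff.rfl

theorem Df.aut {B : Set C} {D : Set (β → C)} (hD : Df L B D) (σ : Aut L C) :
    Df L (σ '' B) {v | σ.symm ∘ v ∈ D} := by
  obtain ⟨φ, rfl⟩ := definable_iff_exists_formula_sum.1 hD
  refine df_rel φ (Sum.map (fun c => ⟨σ c.1, mem_image_of_mem _ c.2⟩) id) fun v => ?_
  refine (Language.StrongHomClass.realize_formula σ φ).symm.trans
    (iff_of_eq (congrArg φ.Realize (funext fun i => ?_)))
  rcases i with c | b
  · rfl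
  · exact σ.apply_symm_apply (v b)

theorem df_pull {B : Set C} {D : Set (β → C)} {σ : Aut L C} (hD : Df L (σ '' B) D) :
    Df L B {v | σ ∘ v ∈ D} := by
  have h := hD.aut σ.symm
  have e : σ.symm '' (σ '' B) = B := by
    rw [image_image]
    simp
  rw [e] at h
  exact h

theorem Df.fix {B : Set C} {D : Set (β → C)} (hD : Df L B D) {σ : Aut L C} (hσ : Fix σ B)
    (v : β → C) : σ ∘ v ∈ D ↔ v ∈ D := by
  obtain ⟨φ, rfl⟩ := definable_iff_exists_formula_sum.1 hD
  refine Iff.trans (iff_of_eq (congrArg φ.Realize (funext fun i => ?_)))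
    (Language.StrongHomClass.realize_formula σ φ)
  rcases i with c | b
  · exact (hσ c.1 c.2).symm
  · rfl

theorem Df.listInter {ι : Type*} {B : Set C} (l : List ι) (D : ι → Set (β → C))
    (h : ∀ i ∈ l, Df L B (D i)) : Df L B {v | ∀ i ∈ l, v ∈ D i} := by
  induction l with
  | nil => simp
  | cons i l ih =>
    have e : {v | ∀ j ∈ i :: l, v ∈ D j} = D i ∩ {v | ∀ j ∈ l, v ∈ D j} := by
      ext v
      simp
    rw [e]
    exact (h i List.mem_cons_self).inter (ih fun j hj => h j (List.mem_cons_of_mem _ hj))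

theorem Df.finsetInter {ι : Type*} {B : Set C} (s : Finset ι) (D : ι → Set (β → C))
    (h : ∀ i ∈ s, Df L B (D i)) : Df L B {v | ∀ i ∈ s, v ∈ D i} := by
  simpa using Df.listInter s.toList D fun i hi => h i (Finset.mem_toList.1 hi)

theorem Fix.mono {σ : Aut L C} {A B : Set C} (h : Fix σ B) (hA : A ⊆ B) : Fix σ A := by
  exact fun b hb => h b (hA hb)

theorem Fix.symm {σ : Aut L C} {B : Set C} (h : Fix σ B) : Fix σ.symm B := by
  intro b hb
  conv_lhs => rw [← h b hb]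
  exact σ.symm_apply_apply b

theorem Fix.comp {σ τ : Aut L C} {B : Set C} (h : Fix σ B) (h' : Fix τ B) : Fix (σ.comp τ) B := by
  intro b hb
  rw [Language.Equiv.comp_apply, h' b hb, h b hb]

theorem Fix.image {σ : Aut L C} {B : Set C} (h : Fix σ B) : σ '' B = B := by
  ext x
  exact ⟨fun ⟨b, hb, e⟩ => e ▸ (h b hb).symm ▸ hb, fun hx => ⟨x, hx, h x hx⟩⟩

theorem Fix.comp_eq {σ : Aut L C} {B : Set C} (h : Fix σ B) {t : β → C} (ht : ∀ i, t i ∈ B) :
    σ ∘ t = t := by
  exact funext fun i => h _ (ht i)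

theorem Eqv.refl (B : Set C) (a : β → C) : Eqv L B a a := by
  exact fun _ _ => Iff.rfl

theorem Eqv.symm {B : Set C} {a a' : β → C} (h : Eqv L B a a') : Eqv L B a' a := by
  exact fun D hD => (h D hD).symm

theorem Eqv.trans {B : Set C} {a a' a'' : β → C} (h : Eqv L B a a') (h' : Eqv L B a' a'') :
    Eqv L B a a'' := by
  exact fun D hD => (h D hD).trans (h' D hD)

theorem Eqv.mono {B B' : Set C} {a a' : β → C} (h : Eqv L B' a a') (hB : B ⊆ B') :
    Eqv L B a a' := by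
  exact fun D hD => h D (Definable.mono hD hB)

theorem Eqv.comp {B : Set C} {a a' : β → C} (h : Eqv L B a a') (π : γ → β) :
    Eqv L B (a ∘ π) (a' ∘ π) := by
  exact fun D hD => h _ (hD.comp π)

theorem Eqv.of_fix {B : Set C} {σ : Aut L C} (hσ : Fix σ B) (a : β → C) : Eqv L B a (σ ∘ a) := by
  exact fun D hD => (hD.fix hσ a).symm

theorem Eqv.map {B : Set C} {a a' : β → C} (h : Eqv L B a a') (σ : Aut L C) :
    Eqv L (σ '' B) (σ ∘ a) (σ ∘ a') := by
  exact fun D hD => h _ (df_pull hD)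

theorem eqv_elim_iff {B : Set C} {a a' : β → C} {t : γ → C} :
    Eqv L (B ∪ range t) a a' ↔ Eqv L B (Sum.elim a t) (Sum.elim a' t) := by
  constructor
  · exact fun h D hD => h _ (hD.plug subset_union_left fun i => Or.inr (mem_range_self i))
  · intro h D hD
    obtain ⟨D', h1, h2⟩ := hD.unplug
    rw [h2, h2]
    exact h D' h1

theorem Lim.mono {𝒬 : Ultrafilter (β → C)} {B B' : Set C} {t : β → C} (h : Lim L 𝒬 B' t)
    (hB : B ⊆ B') : Lim L 𝒬 B t := by
  exact fun D hD => h D (Definable.mono hD hB)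

theorem Lim.eqv {𝒬 : Ultrafilter (β → C)} {B : Set C} {t t' : β → C} (h : Lim L 𝒬 B t)
    (h' : Lim L 𝒬 B t') : Eqv L B t t' := by
  exact fun D hD => (h D hD).trans (h' D hD).symm

theorem Lim.of_eqv {𝒬 : Ultrafilter (β → C)} {B : Set C} {t t' : β → C} (h : Lim L 𝒬 B t)
    (h' : Eqv L B t t') : Lim L 𝒬 B t' := by
  exact fun D hD => (h' D hD).symm.trans (h D hD)

theorem Lim.comp {𝒬 : Ultrafilter (β → C)} {B : Set C} {t : β → C} (h : Lim L 𝒬 B t)
    (π : γ → β) : Lim L (𝒬.map fun v => v ∘ π) B (t ∘ π) := by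
  exact fun D hD => h _ (hD.comp π)

theorem Lim.map {𝒬 : Ultrafilter (β → C)} {B : Set C} {t : β → C} (h : Lim L 𝒬 B t)
    (σ : Aut L C) : Lim L (𝒬.map fun v => σ ∘ v) (σ '' B) (σ ∘ t) := by
  exact fun D hD => h _ (df_pull hD)

theorem Sup.map_fix {𝒬 : Ultrafilter (β → C)} {M : Set C} (h : Sup 𝒬 M) {σ : Aut L C}
    (hσ : Fix σ M) : (𝒬.map fun v => σ ∘ v) = 𝒬 := by
  have e : (fun v : β → C => σ ∘ v) =ᶠ[(𝒬 : Filter (β → C))] id :=
    Filter.mem_of_superset h fun v hv => hσ.comp_eq hv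
  refine Ultrafilter.coe_injective ?_
  rw [Ultrafilter.coe_map, Filter.map_congr e, Filter.map_id]

theorem Lim.fix {𝒬 : Ultrafilter (β → C)} {M B : Set C} {t : β → C} (h : Lim L 𝒬 B t)
    (hS : Sup 𝒬 M) {σ : Aut L C} (hσ : Fix σ M) : Lim L 𝒬 (σ '' B) (σ ∘ t) := by
  have h1 := h.map σ
  rwa [hS.map_fix hσ] at h1

omit [L.Structure C] in
theorem Sup.comp {𝒬 : Ultrafilter (β → C)} {M : Set C} (h : Sup 𝒬 M) (π : γ → β) :
    Sup (𝒬.map fun v => v ∘ π) M := by
  exact Ultrafilter.mem_map.2 (Filter.mem_of_superset h fun v hv i => hv (π i))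

/-- having a given type is closed under limits -/
theorem Lim.eqv_of_eventually {X : Type*} {𝒳 : Ultrafilter X} {f : X → β → C} {B : Set C}
    {t a : β → C} (h : Lim L (𝒳.map f) B t) (ha : ∀ᶠ x in (𝒳 : Filter X), Eqv L B (f x) a) :
    Eqv L B t a := by
  intro D hD
  rw [h D hD, Ultrafilter.mem_map]
  constructor
  · intro h1
    obtain ⟨x, h2, h3⟩ := (ha.and h1).exists
    exact (h2 D hD).1 h3
  · exact fun h1 => ha.mono fun x hx => (hx D hD).2 h1

end Pool.Agent.Lib.MP_e4697a_lc.N1
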