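import Pool.Agent.Lib.MP_e4697a_lc.N1.Tm
import Pool.Agent.Lib.MP_e4697a_lc.N1.Coh

/-!
The reversal lemma for the types attached to witness systems.
-/

set_option autoImplicit false

namespace Pool.Agent.Lib.MP_e4697a_lc.N1

open FirstOrder Set Filter

variable {L : FirstOrder.Language.{0, 0}} {C : Type 1} [L.Structure C] {κ : Cardinal.{1}}
  {α β γ γ0 δ ε ζ I : Type 1}

variable {𝒱 : Ultrafilter (ℕ → ℕ)}

omit [L.Structure C] in
theorem sup_QJ (J : Tm L → C) : Sup (QJ 𝒱 J) (range J) := by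
  exact Ultrafilter.mem_map.2 (univ_mem' fun g i => ⟨_, rfl⟩)

theorem Wit.of_lim {J K : Tm L → C} {B : Set C} (hJ : Wit J) (h : Lim L (QJ 𝒱 J) B K) :
    Wit K := by
  exact Wit.lim h (Eventually.of_forall fun g => hJ.act g)

theorem Lim.qj_aut {J K : Tm L → C} {B : Set C} (h : Lim L (QJ 𝒱 J) B K) (σ : Aut L C) :
    Lim L (QJ 𝒱 (σ ∘ J)) (σ '' B) (σ ∘ K) := by
  exact h.map σ

theorem g0_iff (hV : IsV 𝒱) {J K1 K : Tm L → C} {B : Set C} (h1 : Lim L (QJ 𝒱 J) B K1)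
    (h2 : Lim L (QJ 𝒱 K1) (B ∪ range K1) K) {D : Set (Tm L ⊕ Tm L → C)} (hD : Df L B D) :
    Sum.elim K1 K ∈ D ↔ ∀ᶠ h in (𝒱 : Filter (ℕ → ℕ)), ∀ᶠ h' in (𝒱 : Filter (ℕ → ℕ)),
      Sum.elim (J ∘ Tm.act h) (J ∘ Tm.act h') ∈ D := by
  have c : Cyl fun h h' => Sum.elim (J ∘ Tm.act h) (J ∘ Tm.act h') ∈ D := by
    classical
    obtain ⟨s, hs⟩ := hD.supp
    obtain ⟨k, hk⟩ := Tm.bound_finset (s.image (Sum.elim id id))
    refine ⟨k, fun h1 h2 k1 k2 e1 e2 => hs _ _ ?_⟩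
    rintro (t | t) ht
    · exact congrArg J (Tm.act_congr (hk t (Finset.mem_image_of_mem _ ht)) e1)
    · exact congrArg J (Tm.act_congr (hk t (Finset.mem_image_of_mem _ ht)) e2)
  refine (h2 _ (hD.plugL subset_union_left fun i => Or.inr ⟨i, rfl⟩)).trans
    (Iff.trans ?_ (hV.v1 _ c))
  refine eventually_congr (p := fun g => Sum.elim K1 (K1 ∘ Tm.act g) ∈ D)
    (Eventually.of_forall fun g => ?_)
  have e : ∀ v : Tm L → C, v ∘ Sum.elim id (Tm.act g) = Sum.elim v (v ∘ Tm.act g) := fun v =>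
    funext fun i => by cases i <;> rfl
  have k := h1 _ (hD.comp (Sum.elim id (Tm.act g)))
  rw [mem_ofPred_eq, e] at k
  refine k.trans (eventually_congr (p := fun h => (J ∘ Tm.act h) ∘ Sum.elim id (Tm.act g) ∈ D)
    (Eventually.of_forall fun h => ?_))
  have e2 : (J ∘ Tm.act h) ∘ Tm.act g = J ∘ Tm.act (h ∘ g) :=
    funext fun t => congrArg J (Tm.act_act g h t)
  rw [e, e2]

theorem g0 (hV : IsV 𝒱) {J K1 K : Tm L → C} {B : Set C} (h1 : Lim L (QJ 𝒱 J) B K1)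
    (h2 : Lim L (QJ 𝒱 K1) (B ∪ range K1) K) :
    Lim L ((𝒱.bind fun h => 𝒱.map fun h' => (h, h')).map
      fun x => Sum.elim (J ∘ Tm.act x.1) (J ∘ Tm.act x.2)) B (Sum.elim K1 K) := by
  intro D hD
  rw [g0_iff hV h1 h2 hD, Ultrafilter.mem_map, mem_ubind]
  rfl

theorem gSt (hV : IsV 𝒱) {J K1 K : Tm L → C} {B : Set C} (h1 : Lim L (QJ 𝒱 J) B K1)
    (h2 : Lim L (QJ 𝒱 K1) (B ∪ range K1) K) : Lim L (QJ 𝒱 J) B K := by
  intro D hD
  exact (g0_iff hV h1 h2 (hD.comp Sum.inr)).trans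
    (eventually_const (p := ∀ᶠ h' in (𝒱 : Filter (ℕ → ℕ)), J ∘ Tm.act h' ∈ D))

theorem gRev (hV : IsV 𝒱) {J K1 K : Tm L → C} {B : Set C} (hB : range J ⊆ B)
    (h1 : Lim L (QJ 𝒱 J) B K1) (h2 : Lim L (QJ 𝒱 K1) (B ∪ range K1) K) :
    Lim L (QJ 𝒱 J) (B ∪ range K) K1 := by
  intro D hD
  obtain ⟨D', hD', e⟩ := hD.unplug
  refine (e K1).trans ((g0_iff hV h1 h2 hD').trans
    (eventually_congr (q := fun h => J ∘ Tm.act h ∈ D) (Eventually.of_forall fun h => ?_)))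
  exact ((e _).trans (gSt hV h1 h2 _ (hD'.plugL (Subset.refl B) fun i => hB ⟨_, rfl⟩))).symm

theorem gMor (hV : IsV 𝒱) {J K1 : Tm L → C} {B : Set C} (hB : range J ⊆ B)
    (h1 : Lim L (QJ 𝒱 J) B K1) {l : List (Tm L → C)}
    (h2 : Mor L (QJ 𝒱 K1) (B ∪ range K1) l) :
    Mor L (QJ 𝒱 J) B l ∧ Lim L (QJ 𝒱 J) (B ∪ rng l) K1 := by
  induction l with
  | nil =>
    refine ⟨trivial, h1.mono (union_subset (Subset.refl B) ?_)⟩
    rintro x ⟨t, ht, -⟩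
    exact absurd ht List.not_mem_nil
  | cons t l ih =>
    obtain ⟨i1, i2⟩ := ih h2.2
    have k : Lim L (QJ 𝒱 K1) (B ∪ rng l ∪ range K1) t :=
      h2.1.mono (union_right_comm B (rng l) (range K1)).subset
    refine ⟨⟨gSt hV i2 k, i1⟩, (gRev hV (hB.trans subset_union_left) i2 k).mono ?_⟩
    rw [rng_cons, union_comm (range t), ← union_assoc]

end Pool.Agent.Lib.MP_e4697a_lc.N1
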