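import Pool.Agent.Lib.MP_e4697a_lc.N1.Coh
import Pool.Agent.Lib.MP_e4697a_lc.N1.AL

/-!
Kim's lemma over models and the chain condition.
-/

set_option autoImplicit false

namespace Pool.Agent.Lib.MP_e4697a_lc.N1

open FirstOrder Set Filter

variable {L : FirstOrder.Language.{0, 0}} {C : Type 1} [L.Structure C] {κ : Cardinal.{1}}
  {α β γ γ0 δ ε ζ I : Type 1}

theorem kl_elim {α' : Type 1} (a : α → C) (t : ζ → C) (π' : α' → α) (π : δ → ζ) :
    Sum.elim a t ∘ Sum.map π' π = Sum.elim (a ∘ π') (t ∘ π) := by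
  funext i
  cases i <;> rfl

theorem kl_rows (hm : Mon L C κ) {M : Set C} (hM : Sm κ M) (hδ : Sm κ δ) {b : δ → C}
    {𝒬 : Bool → Ultrafilter (δ → C)} (hS : ∀ e, Sup (𝒬 e) M) (hL : ∀ e, Lim L (𝒬 e) M b) (n : ℕ) :
    ∃ c : ℕ → Bool → δ → C, (∀ i < n, Eqv L (M ∪ rows c i) (c i false) (c i true)) ∧
      ∀ i < n, ∀ e, Lim L (𝒬 e) (M ∪ {x | ∃ j, i < j ∧ j < n ∧ ∃ e', x ∈ range (c j e')})
        (c i e) := by
  induction n with
  | zero => exact ⟨fun _ _ => b, fun _ h => absurd h (Nat.not_lt_zero _),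
      fun _ h => absurd h (Nat.not_lt_zero _)⟩
  | succ n ih =>
    obtain ⟨c, h1, h2⟩ := ih
    have hB := hm.union hM (hm.rows hδ c n)
    obtain ⟨r1, hr1⟩ := limEx hm hB hδ (𝒬 true)
    obtain ⟨r0, hr0⟩ := limEx hm (hm.union hB (hδ.range r1)) hδ (𝒬 false)
    refine ⟨fun i => Nat.casesOn i (fun e => Bool.casesOn e r0 r1) c, fun i hi => ?_,
      fun i hi e => ?_⟩
    · cases i with
      | zero =>
        refine Eqv.mono (B' := M) (((hr0.mono (subset_union_left.trans subset_union_left)).eqv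
          (hL false)).trans ((hL true).eqv (hr1.mono subset_union_left))) ?_
        rintro x (hx | ⟨j, hj, -⟩)
        · exact hx
        · exact absurd hj (Nat.not_lt_zero _)
      | succ i =>
        have hi : i < n := Nat.lt_of_succ_lt_succ hi
        have e1 : M ∪ rows c i ⊆ M ∪ rows c n :=
          union_subset_union_right _ fun x ⟨j, hj, hx⟩ => ⟨j, hj.trans hi, hx⟩
        have e2 : ∀ e d, c i e d ∈ M ∪ rows c n := fun e d => Or.inr ⟨i, hi, e, d, rfl⟩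
        have e3 := (h1 i hi).inv (hS true) subset_union_left hr1 e1 (e2 false) (e2 true)
        have e4 := e3.inv (hS false) (subset_union_left.trans subset_union_left) hr0
          (union_subset_union_left _ e1) (fun d => Or.inl (e2 false d))
          fun d => Or.inl (e2 true d)
        refine e4.mono ?_
        rintro x (hx | ⟨j, hj, e, hx⟩)
        · exact Or.inl (Or.inl (Or.inl hx))
        · cases j with
          | zero =>
            cases e with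
            | false => exact Or.inr hx
            | true => exact Or.inl (Or.inr hx)
          | succ j => exact Or.inl (Or.inl (Or.inr ⟨j, Nat.lt_of_succ_lt_succ hj, e, hx⟩))
    · cases i with
      | zero =>
        have e1 : M ∪ {x | ∃ j, 0 < j ∧ j < n + 1 ∧ ∃ e', x ∈ range
            ((fun i => Nat.casesOn i (fun e => Bool.casesOn e r0 r1) c :
              ℕ → Bool → δ → C) j e')} ⊆ M ∪ rows c n := by
          rintro x (hx | ⟨j, hj, hj', e, hx⟩)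
          · exact Or.inl hx
          · cases j with
            | zero => exact absurd hj (lt_irrefl _)
            | succ j => exact Or.inr ⟨j, Nat.lt_of_succ_lt_succ hj', e, hx⟩
        cases e with
        | false => exact hr0.mono (e1.trans subset_union_left)
        | true => exact hr1.mono e1
      | succ i =>
        refine (h2 i (Nat.lt_of_succ_lt_succ hi) e).mono ?_
        rintro x (hx | ⟨j, hj, hj', e, hx⟩)
        · exact Or.inl hx
        · cases j with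
          | zero => exact absurd hj (Nat.not_lt_zero _)
          | succ j =>
            exact Or.inr ⟨j, Nat.lt_of_succ_lt_succ hj, Nat.lt_of_succ_lt_succ hj', e, hx⟩

theorem kl_col {M : Set C} {𝒯 : Ultrafilter (δ → C)} {c : ℕ → Bool → δ → C} {n : ℕ} {e : Bool}
    (h : ∀ i < n, Lim L 𝒯 (M ∪ {x | ∃ j, i < j ∧ j < n ∧ ∃ e', x ∈ range (c j e')}) (c i e))
    (s : List ℕ) (hs : s.Pairwise (· < ·)) (hn : ∀ i ∈ s, i < n) :
    Mor L 𝒯 M (s.map fun i => c i e) := by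
  induction s with
  | nil => trivial
  | cons i s ih =>
    rw [List.pairwise_cons] at hs
    refine ⟨(h i (hn i List.mem_cons_self)).mono (union_subset_union_right _ ?_),
      ih hs.2 fun j hj => hn j (List.mem_cons_of_mem _ hj)⟩
    rintro x ⟨t, ht, hx⟩
    obtain ⟨j, hj, rfl⟩ := List.mem_map.1 ht
    exact ⟨j, hs.1 j hj, hn j (List.mem_cons_of_mem _ hj), e, hx⟩

theorem kimLemma (hm : Mon L C κ) (hN : ¬ HasSOP1 L C) {M : Set C} (hM : Sm κ M) (hδ : Sm κ δ)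
    {D : Set (α ⊕ δ → C)} (hD : Df L M D) {b : δ → C} {𝒬 : Ultrafilter (δ → C)} (hS : Sup 𝒬 M)
    (hL : Lim L 𝒬 M b) (h : ∀ k, ∃ l : List (δ → C), l.length = k ∧ Mor L 𝒬 M l ∧ Con D l) :
    NKD L M D b := by
  intro 𝒬' hS' hL' l hl
  by_contra hc
  refine hN (arr_sop1 hm hδ hM hD l.length fun n => ?_)
  obtain ⟨c, h1, h2⟩ := kl_rows hm hM hδ (𝒬 := fun e => Bool.casesOn e 𝒬 𝒬')
    (fun e => Bool.casesOn e hS hS') (fun e => Bool.casesOn e hL hL') n
  refine ⟨c, h1, ?_, fun s hs hn hk ⟨x, hx⟩ => hc ?_⟩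
  · obtain ⟨l0, e1, e2, e3⟩ := h n
    obtain ⟨x, hx⟩ := Con.of_mor hm hM hδ hS e2
      (kl_col (fun i hi => h2 i hi false) (List.range n) List.pairwise_lt_range
        fun i hi => List.mem_range.1 hi) (by simp [e1]) hD e3
    exact ⟨x, fun i hi => hx _ (List.mem_map.2 ⟨i, List.mem_range.2 hi, rfl⟩)⟩
  · refine Con.of_mor hm hM hδ hS' (kl_col (fun i hi => h2 i hi true) s hs hn) hl
      (by simp [hk]) hD ⟨x, fun t ht => ?_⟩
    obtain ⟨i, hi, rfl⟩ := List.mem_map.1 ht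
    exact hx i hi

theorem NKD.up {M : Set C} {D : Set (α ⊕ δ → C)} {w : ζ → C} {π : δ → ζ}
    (h : NKD L M D (w ∘ π)) : NKD L M {v | v ∘ Sum.map id π ∈ D} w := by
  intro 𝒬 hS hL l hl
  obtain ⟨a, ha⟩ := h _ (hS.comp π) (hL.comp π) _ (hl.comp π)
  refine ⟨a, fun t ht => ?_⟩
  change Sum.elim a t ∘ Sum.map id π ∈ D
  rw [kl_elim]
  exact ha _ (List.mem_map.2 ⟨t, ht, rfl⟩)

theorem NKD.mono {M : Set C} {D D' : Set (α ⊕ δ → C)} {b : δ → C} (h : NKD L M D b)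
    (hD : D ⊆ D') : NKD L M D' b := by
  intro 𝒬 hS hL l hl
  obtain ⟨a, ha⟩ := h 𝒬 hS hL l hl
  exact ⟨a, fun t ht => hD (ha t ht)⟩

/-- it is consistent -/
theorem NKD.ex {M : Set C} (hm : Mon L C κ) (hM : Sm κ M) (hb : Base L M) (hδ : Sm κ δ)
    {D : Set (α ⊕ δ → C)} (hD : Df L M D) {b : δ → C} (h : NKD L M D b) :
    ∃ a : α → C, Sum.elim a b ∈ D := by
  obtain ⟨𝒬, hS, hL⟩ := coheir hb b
  obtain ⟨a, ha⟩ := h 𝒬 hS hL [b] ⟨hL.mono (by
    rintro x (hx | ⟨t, ht, -⟩)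
    · exact hx
    · exact absurd ht List.not_mem_nil), trivial⟩
  exact ⟨a, ha b List.mem_cons_self⟩

theorem KInd.left {M : Set C} {a : α → C} {b : δ → C} (h : KInd L M a b) (π : γ → α) :
    KInd L M (a ∘ π) b := by
  intro D hD ha 𝒬 hS hL l hl
  obtain ⟨a', ha'⟩ := h _ (hD.comp (Sum.map π id)) (by
    change Sum.elim a b ∘ Sum.map π id ∈ D
    rwa [kl_elim]) 𝒬 hS hL l hl
  refine ⟨a' ∘ π, fun t ht => ?_⟩
  have : Sum.elim a' t ∘ Sum.map π id ∈ D := ha' t ht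
  rwa [kl_elim] at this

/-- tensor power along a Morley list of subtuples -/
theorem tenList (hm : Mon L C κ) {M : Set C} (hδ : Sm κ δ) {𝒯 : Ultrafilter (δ → C)}
    (hS : Sup 𝒯 M) (w : ζ → C) (ρs : List (δ → ζ)) (h : Mor L 𝒯 M (ρs.map fun ρ => w ∘ ρ)) :
    ∃ (ε : Type 1) (π : ε → ζ) (τs : List (δ → ε)) (𝒬 : Ultrafilter (ε → C)), Sm κ ε ∧
      (τs.map fun τ => π ∘ τ) = ρs ∧ (∀ e, ∃ τ ∈ τs, e ∈ range τ) ∧ Sup 𝒬 M ∧
      Lim L 𝒬 M (w ∘ π) ∧
      ∀ (B : Set C) (w' : ε → C), M ⊆ B → Lim L 𝒬 B w' → Mor L 𝒯 B (τs.map fun τ => w' ∘ τ) := by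
  induction ρs with
  | nil =>
    refine ⟨PEmpty, PEmpty.elim, [], pure PEmpty.elim, hm.countable _, rfl, fun e => e.elim,
      Ultrafilter.mem_pure.2 fun e => e.elim, fun D _ => ?_, fun _ _ _ _ => trivial⟩
    rw [Ultrafilter.mem_pure, Subsingleton.elim (w ∘ PEmpty.elim) PEmpty.elim]
  | cons ρ ρs ih =>
    obtain ⟨ε, π, τs, 𝒬, h1, h2, h3, h4, h5, h6⟩ := ih h.2
    refine ⟨δ ⊕ ε, Sum.elim ρ π, Sum.inl :: τs.map fun τ => Sum.inr ∘ τ, ten 𝒯 𝒬, hm.sum hδ h1,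
      ?_, ?_, hS.ten h4, ?_, fun B w' hB hw => ?_⟩
    · rw [List.map_cons, List.map_map, ← h2]
      rfl
    · rintro (d | e)
      · exact ⟨_, List.mem_cons_self, d, rfl⟩
      · obtain ⟨τ, hτ, d, rfl⟩ := h3 e
        exact ⟨_, List.mem_cons_of_mem _ (List.mem_map.2 ⟨τ, hτ, rfl⟩), d, rfl⟩
    · rw [Sum.comp_elim]
      refine (lim_ten_iff hS subset_rfl).2 ⟨h5, h.1.mono (union_subset_union_right _ ?_)⟩
      rintro _ ⟨e, rfl⟩
      obtain ⟨τ, hτ, d, rfl⟩ := h3 e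
      exact ⟨_, List.mem_map.2 ⟨π ∘ τ, h2 ▸ List.mem_map.2 ⟨τ, hτ, rfl⟩, rfl⟩, d, rfl⟩
    · rw [← Sum.elim_comp_inl_inr w'] at hw
      obtain ⟨e1, e2⟩ := (lim_ten_iff hS hB).1 hw
      rw [List.map_cons, List.map_map]
      refine ⟨e2.mono (union_subset_union_right _ ?_), h6 B _ hB e1⟩
      rintro _ ⟨t, ht, d, rfl⟩
      obtain ⟨τ, -, rfl⟩ := List.mem_map.1 ht
      exact ⟨τ d, rfl⟩

theorem chainCond (hm : Mon L C κ) (hN : ¬ HasSOP1 L C) {M : Set C} (hM : Sm κ M) (hδ : Sm κ δ)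
    {D : Set (α ⊕ δ → C)} (hD : Df L M D) {b : δ → C} (h : NKD L M D b)
    {𝒯 : Ultrafilter (δ → C)} (hS : Sup 𝒯 M) (hL : Lim L 𝒯 M b) (w : ζ → C) (ρs : List (δ → ζ))
    (hρ : Mor L 𝒯 M (ρs.map fun ρ => w ∘ ρ)) :
    NKD L M {v | ∀ ρ ∈ ρs, v ∘ Sum.map id ρ ∈ D} w := by
  obtain ⟨ε, π, τs, 𝒬, h1, h2, -, h4, h5, h6⟩ := tenList hm hδ hS w ρs hρ
  have e1 : ∀ l, Mor L 𝒬 M l → Mor L 𝒯 M (l.flatMap fun w' => τs.map fun τ => w' ∘ τ) := by
    intro l hl
    induction l with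
    | nil => trivial
    | cons w' l ih =>
      rw [List.flatMap_cons]
      refine Mor.append ((h6 _ w' subset_union_left hl.1).mono (union_subset_union_right _ ?_))
        (ih hl.2)
      rintro _ ⟨t, ht, d, rfl⟩
      obtain ⟨u, hu, ht⟩ := List.mem_flatMap.1 ht
      obtain ⟨τ, -, rfl⟩ := List.mem_map.1 ht
      exact ⟨u, hu, τ d, rfl⟩
  have e2 : NKD L M {v : α ⊕ ε → C | ∀ τ ∈ τs, v ∘ Sum.map id τ ∈ D} (w ∘ π) := by
    refine kimLemma hm hN hM h1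
      (Df.listInter τs (fun τ => {v : α ⊕ ε → C | v ∘ Sum.map id τ ∈ D}) fun τ _ => hD.comp _)
      h4 h5 fun k => ?_
    obtain ⟨l, hl, hl'⟩ := morEx hm hM h1 𝒬 k
    obtain ⟨a, ha⟩ := h 𝒯 hS hL _ (e1 l hl')
    refine ⟨l, hl, hl', a, fun t ht τ hτ => ?_⟩
    change Sum.elim a t ∘ Sum.map id τ ∈ D
    rw [kl_elim]
    exact ha _ (List.mem_flatMap.2 ⟨t, ht, List.mem_map.2 ⟨τ, hτ, rfl⟩⟩)
  refine e2.up.mono fun v hv ρ hρ => ?_
  rw [← h2] at hρ
  obtain ⟨τ, hτ, rfl⟩ := List.mem_map.1 hρ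
  have := hv τ hτ
  rwa [Function.comp_assoc, Sum.map_comp_map] at this

end Pool.Agent.Lib.MP_e4697a_lc.N1
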