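import Pool.Agent.Lib.MP_e4697a_lc.N1.Block
import Pool.Agent.Lib.MP_e4697a_lc.N1.G

/-!
A system with short chains across every cut, and the adjacent pair it gives.
-/

set_option autoImplicit false

namespace Pool.Agent.Lib.MP_e4697a_lc.N1

open FirstOrder Set Filter

variable {L : FirstOrder.Language.{0, 0}} {C : Type 1} [L.Structure C] {κ : Cardinal.{1}}
  {α β γ γ0 δ ε ζ I : Type 1}

/-- certificate for the cut `b` -/
def Cert (u v : I → C) (ι : Type) (ℓ b : ℕ) (𝒲 : Ultrafilter (Tm L → C)) : Prop :=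
  ∃ 𝒞 : Ultrafilter (ι → Tm L → C), (∀ i, (𝒞.map fun c => c i) = 𝒲) ∧
    ∀ᶠ c in (𝒞 : Filter (ι → Tm L → C)), (∀ i i' t, t.All (b ≤ ·) → c i t = c i' t) ∧
      ∃ u' v' : I → C, Eqv L ∅ (Sum.elim u' v') (Sum.elim u v) ∧
        Ch L (range fun i => lower b (c i)) ℓ u' v'

theorem p4_empty (σ : Aut L C) (u v : I → C) :
    Eqv L ∅ (Sum.elim (σ ∘ u) (σ ∘ v)) (Sum.elim u v) := by
  have h := (Eqv.of_fix (B := ∅) (σ := σ) (fun _ h => h.elim) (Sum.elim u v)).symm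
  rwa [Sum.comp_elim] at h

theorem Cert.op {u v : I → C} {ι : Type} {ℓ b : ℕ} {𝒲 : Ultrafilter (Tm L → C)}
    (h : Cert u v ι ℓ b 𝒲) (θ : ℕ → Aut L C) : Cert u v ι ℓ b (op θ 𝒲) := by
  obtain ⟨𝒞, h1, h2⟩ := h
  refine ⟨UU.bind fun j => 𝒞.map fun c i => θ j ∘ c i, fun i => ?_, ?_⟩
  · refine Ultrafilter.ext fun s => ?_
    rw [Ultrafilter.mem_map, mem_ubind, N1.op, mem_ubind, ← h1 i]
    exact Iff.rfl
  · rw [ev_ubind]
    refine Eventually.of_forall fun j => ?_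
    rw [Ultrafilter.coe_map, eventually_map]
    filter_upwards [h2] with c hc
    obtain ⟨ha, u', v', he, hc⟩ := hc
    refine ⟨fun i i' t ht => congrArg (θ j) (ha i i' t ht), θ j ∘ u', θ j ∘ v',
      (p4_empty _ _ _).trans he, (hc.map (θ j)).mono ?_⟩
    rintro _ ⟨_, ⟨i, rfl⟩, rfl⟩
    exact ⟨_, ⟨i, rfl⟩, (image_comp _ _ _).subset⟩

theorem p4_not_all {k : ℕ} {t : Tm L} (h : t.All (k ≤ ·)) (h' : t.All (· < k)) : False := by
  cases t with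
  | sk i n φ args => exact absurd h'.1 (not_lt.2 h.1)

theorem stages (hm : Mon L C κ) (hI : Sm κ I) {n : ℕ} {u v : I → C} (h : Ch L (WR L C) n u v) :
    ∃ (ι : Type) (_ : Finite ι) (_ : Nonempty ι) (ℓ : ℕ), ∀ k : ℕ,
      ∃ 𝒲 : Ultrafilter (Tm L → C), (∀ᶠ m in (𝒲 : Filter (Tm L → C)), Wit m) ∧
        ∀ b < k, Cert u v ι ℓ b 𝒲 := by
  classical
  have := hm.ne
  obtain ⟨l, -, hl, hch⟩ := h.list
  obtain ⟨ι, hf, hne, ℓ, hb⟩ := block hm hm.tm hI l fun N hN => by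
    obtain ⟨m, hw, rfl⟩ := hl N hN
    exact ⟨hm.tm.range m, hw.base⟩
  obtain ⟨F, F0, F1, F2, F3⟩ := exF (L := L) (C := C)
  refine ⟨ι, hf, hne, n * ℓ, fun k => ?_⟩
  suffices H : ∃ 𝒲 : Ultrafilter (Tm L → C), CS 𝒲 ∧
      (∀ᶠ m in (𝒲 : Filter (Tm L → C)), Wit m) ∧ ∀ b < k, Cert u v ι (n * ℓ) b 𝒲 by
    obtain ⟨𝒲, -, h1⟩ := H
    exact ⟨𝒲, h1⟩
  induction k with
  | zero =>
    refine ⟨pure (F 0 fun _ => Classical.arbitrary C), ⟨{F 0 fun _ => Classical.arbitrary C},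
      countable_singleton _, by simp⟩, ?_, fun b hb => absurd hb (Nat.not_lt_zero b)⟩
    rw [Ultrafilter.coe_pure, eventually_pure]
    exact F0 _
  | succ k ih =>
    obtain ⟨𝒲, hcs, hΦ⟩ := ih
    obtain ⟨𝒲', 𝒞, ⟨S, hS, hS'⟩, ⟨hw, hc⟩, hmar, hae⟩ := hb
      (fun 𝒲 => (∀ᶠ m in (𝒲 : Filter (Tm L → C)), Wit m) ∧ ∀ b < k, Cert u v ι (n * ℓ) b 𝒲)
      (fun θ 𝒲 h => ⟨by
        rw [op, ev_ubind]
        refine Eventually.of_forall fun j => ?_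
        rw [Ultrafilter.coe_map, eventually_map]
        exact h.1.mono fun m hm => hm.aut (θ j), fun b hb => (h.2 b hb).op θ⟩) 𝒲 hcs hΦ
    have hlow : ∀ b ≤ k, ∀ m : Tm L → C, lower b (F k m) ⊆ lower b m := by
      rintro b hb m _ ⟨t, ht, rfl⟩
      exact ⟨t, ht, (F2 k m t (Tm.All.mono (fun i hi => lt_of_lt_of_le hi hb) ht)).symm⟩
    refine ⟨𝒲'.map (F k), ⟨F k '' S, hS.image _, Ultrafilter.mem_map.2
      (mem_of_superset hS' (subset_preimage_image _ _))⟩, ?_, fun b hb => ?_⟩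
    · rw [Ultrafilter.coe_map, eventually_map]
      exact hw.mono fun m hm => F1 k m hm
    · rcases (Nat.lt_succ_iff.1 hb).eq_or_lt with rfl | hlt
      · refine ⟨𝒞.map fun c i => F b (c i), fun i => by rw [← hmar i]; rfl, ?_⟩
        rw [Ultrafilter.coe_map, eventually_map]
        filter_upwards [hae] with c hc
        refine ⟨fun i i' t ht => F3 b b _ _ (fun t h1 h2 => (p4_not_all h1 h2).elim) t ht,
          u, v, Eqv.refl _ _, (Ch.bind (fun A hA => hc A hA) hch).mono ?_⟩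
        rintro _ ⟨i, rfl⟩
        exact ⟨_, ⟨i, rfl⟩, (hlow b le_rfl _).trans (image_subset_range _ _)⟩
      · obtain ⟨𝒟, h1, h2⟩ := hc b hlt
        refine ⟨𝒟.map fun c i => F k (c i), fun i => by rw [← h1 i]; rfl, ?_⟩
        rw [Ultrafilter.coe_map, eventually_map]
        filter_upwards [h2] with c hc
        obtain ⟨ha, u', v', he, hc⟩ := hc
        refine ⟨fun i i' t ht => F3 k b _ _ (fun t h1 _ => ha i i' t h1) t ht,
          u', v', he, hc.mono ?_⟩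
        rintro _ ⟨i, rfl⟩
        exact ⟨_, ⟨i, rfl⟩, hlow b hlt.le _⟩

/-- a certificate gives a chain over the two sides of the cut -/
theorem Cert.cut (hm : Mon L C κ) (hI : Sm κ I) {u v : I → C} {ι : Type} [Finite ι] [Nonempty ι]
    {ℓ b : ℕ} {𝒲 : Ultrafilter (Tm L → C)} (h : Cert u v ι ℓ b 𝒲) {P : Tm L → C}
    (hP : Lim L 𝒲 ∅ P) : ∃ u' v' : I → C, Eqv L ∅ (Sum.elim u' v') (Sum.elim u v) ∧
      Ch L {lower b P, upper b P} (ℓ * 3) u' v' := by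
  classical
  obtain ⟨𝒞, h1, h2⟩ := h
  have hch : ∀ c : ι → Tm L → C, ∃ u' v' : I → C,
      (∃ u' v' : I → C, Eqv L ∅ (Sum.elim u' v') (Sum.elim u v) ∧
        Ch L (range fun i => lower b (c i)) ℓ u' v') →
      Eqv L ∅ (Sum.elim u' v') (Sum.elim u v) ∧ Ch L (range fun i => lower b (c i)) ℓ u' v' := by
    intro c
    by_cases hc : ∃ u' v' : I → C, Eqv L ∅ (Sum.elim u' v') (Sum.elim u v) ∧
        Ch L (range fun i => lower b (c i)) ℓ u' v'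
    · obtain ⟨u', v', h⟩ := hc
      exact ⟨u', v', fun _ => h⟩
    · exact ⟨u, v, fun h => absurd h hc⟩
  choose u' v' huv using hch
  have hζ : Sm κ (ι × Tm L) := hm.cprod ι hm.tm
  obtain ⟨W, hW⟩ := limEx hm hm.empty (hm.sum hζ (hm.sum hI hI))
    (𝒞.map fun c => Sum.elim (fun z : ι × Tm L => c z.1 z.2) (Sum.elim (u' c) (v' c)))
  set T : ι → Tm L → C := fun i s => W (Sum.inl (i, s)) with hT
  set U : I → C := fun x => W (Sum.inr (Sum.inl x)) with hU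
  set V : I → C := fun x => W (Sum.inr (Sum.inr x)) with hV
  have hWe : W = Sum.elim (fun z : ι × Tm L => T z.1 z.2) (Sum.elim U V) := by
    funext z
    rcases z with z | z | z <;> rfl
  have hlim := Ch.lim hm hm.empty hζ hI (𝒳 := 𝒞) (fun c z => c z.1 z.2)
    (fun i => {z | z.1 = i ∧ z.2.All (· < b)}) (fun c i => lower b (c i))
    (by
      rintro i z ⟨rfl, hz⟩
      exact Eventually.of_forall fun c => ⟨z.2, hz, rfl⟩)
    (T := fun z => T z.1 z.2) ℓ u' v' (U := U) (V := V)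
    (h2.mono fun c hc => (huv c hc.2).2) (hWe ▸ hW)
  have heq : Eqv L ∅ (Sum.elim U V) (Sum.elim u v) := by
    have h3 : Lim L (𝒞.map fun c => Sum.elim (u' c) (v' c)) ∅ (W ∘ Sum.inr) := hW.comp Sum.inr
    have h4 : W ∘ Sum.inr = Sum.elim U V := by
      funext z
      rcases z with z | z <;> rfl
    rw [h4] at h3
    exact h3.eqv_of_eventually (h2.mono fun c hc => (huv c hc.2).1)
  have hrow : ∀ i, Lim L 𝒲 ∅ (T i) := fun i => by
    rw [← h1 i]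
    exact hW.comp fun s => Sum.inl (i, s)
  have hagr : ∀ i i' s, s.All (b ≤ ·) → T i s = T i' s := fun i i' s hs =>
    (hW _ (Df.eq ∅ (Sum.inl (i, s)) (Sum.inl (i', s)))).2
      (Ultrafilter.mem_map.2 (h2.mono fun c hc => hc.1 i i' s hs))
  obtain ⟨i0⟩ := ‹Nonempty ι›
  have h3 : Ch L {lower b (T i0), upper b (T i0)} (ℓ * 3) U V := by
    refine Ch.bind ?_ hlim
    rintro _ ⟨i, rfl⟩ w w' hw
    obtain ⟨σ, -, hσ⟩ := ((hrow i).eqv (hrow i0)).aut hm hm.empty hm.tm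
    have hfix : Fix σ (upper b (T i0)) := by
      rintro _ ⟨s, hs, rfl⟩
      rw [← hagr i i0 s hs]
      exact (congrFun hσ s).trans (hagr i0 i s hs)
    have hmid : Eqv L (lower b (T i0)) (σ ∘ w) (σ ∘ w') := by
      refine (hw.map σ).mono ?_
      rintro _ ⟨s, hs, rfl⟩
      exact ⟨T i s, ⟨(i, s), ⟨rfl, hs⟩, rfl⟩, congrFun hσ s⟩
    exact ((Ch.single (Or.inr rfl) (Eqv.of_fix hfix w)).trans (Ch.single (Or.inl rfl) hmid)).trans
      (Ch.single (Or.inr rfl) (Eqv.of_fix hfix w').symm)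
  obtain ⟨τ, -, hτ⟩ := ((hrow i0).eqv hP).aut hm hm.empty hm.tm
  refine ⟨τ ∘ U, τ ∘ V, (p4_empty τ U V).trans heq, (h3.map τ).mono ?_⟩
  rintro _ ⟨_, rfl | rfl, rfl⟩
  · exact ⟨_, Or.inl rfl, by rw [← hτ]; exact (image_comp _ _ _).subset⟩
  · exact ⟨_, Or.inr rfl, by rw [← hτ]; exact (image_comp _ _ _).subset⟩

theorem Cert.bind {u v : I → C} {ι : Type} {ℓ b : ℕ} {𝒲 : ℕ → Ultrafilter (Tm L → C)}
    (h : ∀ᶠ k in (UU : Filter ℕ), Cert u v ι ℓ b (𝒲 k)) : Cert u v ι ℓ b (UU.bind 𝒲) := by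
  classical
  obtain ⟨k0, 𝒞0, -⟩ := h.exists
  have hch : ∀ k, ∃ 𝒞 : Ultrafilter (ι → Tm L → C), Cert u v ι ℓ b (𝒲 k) →
      (∀ i, (𝒞.map fun c => c i) = 𝒲 k) ∧
      ∀ᶠ c in (𝒞 : Filter (ι → Tm L → C)), (∀ i i' t, t.All (b ≤ ·) → c i t = c i' t) ∧
        ∃ u' v' : I → C, Eqv L ∅ (Sum.elim u' v') (Sum.elim u v) ∧
          Ch L (range fun i => lower b (c i)) ℓ u' v' := by
    intro k
    by_cases hc : Cert u v ι ℓ b (𝒲 k)
    · obtain ⟨𝒞, h⟩ := hc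
      exact ⟨𝒞, fun _ => h⟩
    · exact ⟨𝒞0, fun h => absurd h hc⟩
  choose 𝒞 h𝒞 using hch
  refine ⟨UU.bind 𝒞, fun i => Ultrafilter.ext fun s => ?_, ?_⟩
  · rw [Ultrafilter.mem_map, mem_ubind, mem_ubind]
    refine eventually_congr (h.mono fun k hk => ?_)
    rw [← (h𝒞 k hk).1 i]
    exact Iff.rfl
  · rw [ev_ubind]
    exact h.mono fun k hk => (h𝒞 k hk).2

theorem allCuts (hm : Mon L C κ) (hI : Sm κ I) {n : ℕ} {u v : I → C}
    (h : Ch L (WR L C) n u v) : ∃ (P : Tm L → C) (ℓ : ℕ), Wit P ∧ ∀ b, ∃ u' v' : I → C,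
      Eqv L ∅ (Sum.elim u' v') (Sum.elim u v) ∧ Ch L {lower b P, upper b P} ℓ u' v' := by
  obtain ⟨ι, _, _, ℓ, hs⟩ := stages hm hI h
  choose 𝒲 hw hc using hs
  obtain ⟨P, hP⟩ := limEx hm hm.empty hm.tm (UU.bind 𝒲)
  refine ⟨P, ℓ * 3, Wit.lim (𝒳 := UU.bind 𝒲) (f := id) (B := ∅)
    (by rw [Ultrafilter.map_id]; exact hP) ?_, fun b => ?_⟩
  · rw [ev_ubind]
    exact Eventually.of_forall hw
  · exact (Cert.bind ((UU_gt b).mono fun k hk => hc k b hk)).cut hm hI hP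

theorem adjPair (hm : Mon L C κ) {𝒱 : Ultrafilter (ℕ → ℕ)} (hV : IsV 𝒱) (hI : Sm κ I) {n : ℕ}
    {u v : I → C} (h : Ch L (WR L C) n u v) :
    ∃ (P m0 K0 : Tm L → C) (u' v' : I → C) (ℓ : ℕ), Wit P ∧ Lim L (QJ 𝒱 P) (range P) m0 ∧
      Lim L (QJ 𝒱 m0) (range m0) K0 ∧ Eqv L ∅ (Sum.elim u' v') (Sum.elim u v) ∧
      Ch L {range m0, range K0} ℓ u' v' := by
  obtain ⟨P, ℓ, hP, hc⟩ := allCuts hm hI h
  choose u' v' he hc using hc
  obtain ⟨m0, h0⟩ := limEx hm (hm.tm.range P) hm.tm (QJ 𝒱 P)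
  obtain ⟨K0, h1⟩ := limEx hm (hm.tm.range m0) hm.tm (QJ 𝒱 m0)
  have hg := g0 hV (B := ∅) (h0.mono (empty_subset _)) (by rw [empty_union]; exact h1)
  have hζ : Sm κ (Tm L ⊕ Tm L) := hm.sum hm.tm hm.tm
  obtain ⟨w, hw⟩ := limExt hm hm.empty hζ (hm.sum hI hI) hg
    fun x => Sum.elim (u' (x.2 0)) (v' (x.2 0))
  have hwe : w = Sum.elim (w ∘ Sum.inl) (w ∘ Sum.inr) := by
    funext z
    rcases z with z | z <;> rfl
  have hv : ∀ s : Tm L, ∀ᶠ x in ((𝒱.bind fun h => 𝒱.map fun h' => (h, h') :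
      Ultrafilter ((ℕ → ℕ) × (ℕ → ℕ))) : Filter ((ℕ → ℕ) × (ℕ → ℕ))),
      (s.act x.1).All (· < x.2 0) ∧ (s.act x.2).All (x.2 0 ≤ ·) := by
    intro s
    obtain ⟨k, hk⟩ := s.bound
    rw [ev_ubind]
    filter_upwards [hV.v3 k] with g hg
    rw [Ultrafilter.coe_map, eventually_map]
    filter_upwards [hg] with h' hh
    exact ⟨Tm.all_act hk fun i hi => (hh i hi).1, Tm.all_act hk fun i hi => (hh i hi).2⟩
  have hlim := Ch.lim hm hm.empty hζ hI (𝒳 := 𝒱.bind fun h => 𝒱.map fun h' => (h, h'))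
    (fun x => Sum.elim (P ∘ Tm.act x.1) (P ∘ Tm.act x.2))
    (fun i : Bool => bif i then range Sum.inr else range Sum.inl)
    (fun x i => bif i then upper (x.2 0) P else lower (x.2 0) P)
    (by
      rintro (_ | _) _ ⟨s, rfl⟩
      · exact (hv s).mono fun x hx => ⟨_, hx.1, rfl⟩
      · exact (hv s).mono fun x hx => ⟨_, hx.2, rfl⟩)
    (T := Sum.elim m0 K0) ℓ (fun x => u' (x.2 0)) (fun x => v' (x.2 0))
    (U := w ∘ Sum.inl) (V := w ∘ Sum.inr)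
    (Eventually.of_forall fun x => (hc (x.2 0)).mono (by
      rintro _ (rfl | rfl)
      · exact ⟨_, ⟨false, rfl⟩, Subset.rfl⟩
      · exact ⟨_, ⟨true, rfl⟩, Subset.rfl⟩))
    (hwe ▸ hw)
  refine ⟨P, m0, K0, w ∘ Sum.inl, w ∘ Sum.inr, ℓ, hP, h0, h1, ?_, hlim.mono ?_⟩
  · have h3 : Lim L ((𝒱.bind fun h => 𝒱.map fun h' => (h, h')).map
        fun x => Sum.elim (u' (x.2 0)) (v' (x.2 0))) ∅ w := hw.comp Sum.inr
    rw [← hwe]
    exact h3.eqv_of_eventually (Eventually.of_forall fun x => he (x.2 0))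
  · rintro _ ⟨_ | _, rfl⟩
    · refine ⟨_, Or.inl rfl, ?_⟩
      rintro _ ⟨s, rfl⟩
      exact ⟨Sum.inl s, ⟨s, rfl⟩, rfl⟩
    · refine ⟨_, Or.inr rfl, ?_⟩
      rintro _ ⟨s, rfl⟩
      exact ⟨Sum.inr s, ⟨s, rfl⟩, rfl⟩

end Pool.Agent.Lib.MP_e4697a_lc.N1
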