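import Pool.Agent.Lib.MP_e4697a_lc.N1.Tm
import Pool.Agent.Lib.MP_e4697a_lc.N1.Ch

/-!
The relation of being joined by finitely many steps over witness systems.
-/

set_option autoImplicit false

namespace Pool.Agent.Lib.MP_e4697a_lc.N1

open FirstOrder Set Filter

variable {L : FirstOrder.Language.{0, 0}} {C : Type 1} [L.Structure C] {κ : Cardinal.{1}}
  {α β γ γ0 δ ε ζ I : Type 1}

variable (L C I) in
/-- joined by finitely many steps -/
def E0 : Setoid (I → C) where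
  r u v := ∃ n, Ch L (WR L C) n u v
  iseqv := ⟨fun _ => ⟨0, rfl⟩, fun ⟨n, h⟩ => ⟨n, h.symm⟩, fun ⟨_, h⟩ ⟨_, h'⟩ => ⟨_, h.trans h'⟩⟩

theorem Ch.wr_aut {n : ℕ} {u v : I → C} (h : Ch L (WR L C) n u v) (σ : Aut L C) :
    Ch L (WR L C) n (σ ∘ u) (σ ∘ v) := by
  refine (h.map σ).mono ?_
  rintro _ ⟨_, ⟨m, hw, rfl⟩, rfl⟩
  exact ⟨range (σ ∘ m), ⟨_, hw.aut σ, rfl⟩, (range_comp _ _).le⟩

theorem E0_invariant : Invariant L C (E0 L C I) := by
  rintro σ a b ⟨n, h⟩
  exact ⟨n, h.wr_aut σ⟩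

theorem E0_bounded (hm : Mon L C κ) (hI : Sm κ I) : Bounded C κ (E0 L C I) := by
  have := hm.ne
  obtain ⟨F, hF, -⟩ := exF (L := L) (C := C)
  obtain ⟨m, hw⟩ : ∃ m : Tm L → C, Wit (L := L) m := ⟨_, hF fun _ => Classical.arbitrary C⟩
  refine Sm.of_inj (hm.set (hm.formula (hm.sum hI hm.tm)))
    (f := fun q : Quotient (E0 L C I) =>
      {φ : L.Formula (I ⊕ Tm L) | φ.Realize (Sum.elim q.out m)}) ?_
  intro q q' hq
  rw [← q.out_eq, ← q'.out_eq]
  refine Quotient.sound ⟨1, Ch.single (𝒜 := WR L C) (A := range m) ⟨m, hw, rfl⟩ ?_⟩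
  rw [← empty_union (range m), eqv_elim_iff]
  intro D hD
  obtain ⟨φ, rfl⟩ := empty_definable_iff.1 hD
  exact Set.ext_iff.1 hq φ

theorem E0_le (hm : Mon L C κ) (hI : Sm κ I) {F : Setoid (I → C)} (h1 : Invariant L C F)
    (h2 : Bounded C κ F) : E0 L C I ≤ F := by
  have := hm.ne
  have step : ∀ m : Tm L → C, Wit m → ∀ a b : I → C, Eqv L (range m) a b → F a b := by
    intro m hw a b hab
    have hM : Sm κ (range m) := hm.tm.range m
    have hr : ∀ q : Quotient F, ∃ r : I → C, Eqv L (range m) a r ∧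
        ∀ c, Eqv L (range m) a c → Quotient.mk F c = q → Quotient.mk F r = q := by
      intro q
      by_cases h : ∃ c, Eqv L (range m) a c ∧ Quotient.mk F c = q
      · obtain ⟨c, h1, h2⟩ := h
        exact ⟨c, h1, fun _ _ _ => h2⟩
      · exact ⟨a, Eqv.refl _ _, fun c h1 h2 => (h ⟨c, h1, h2⟩).elim⟩
    choose r hr1 hr2 using hr
    obtain ⟨𝒬, hS, hL⟩ := coheir hw.base a
    have hR : Sm κ (range fun p : Quotient F × I => r p.1 p.2) := (hm.prod h2 hI).range _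
    obtain ⟨c, hc⟩ := limEx hm
      (hm.union (hm.union hM hR) (hm.union (hI.range a) (hI.range b))) hI 𝒬
    have hMB : range m ⊆ (range m ∪ range fun p : Quotient F × I => r p.1 p.2) ∪
        (range a ∪ range b) := subset_union_left.trans subset_union_left
    have hac : Eqv L (range m) a c := hL.eqv (hc.mono hMB)
    have hrc : F (r (Quotient.mk F c)) c := Quotient.exact (hr2 _ c hac rfl)
    have key : ∀ x : I → C, Eqv L (range m) a x → (∀ i, x i ∈ range a ∪ range b) → F x c := by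
      intro x hx hx'
      have h3 := Eqv.inv hS subset_rfl ((hr1 (Quotient.mk F c)).symm.trans hx) hc hMB
        (fun i => Or.inl (Or.inr ⟨(Quotient.mk F c, i), rfl⟩)) fun i => Or.inr (hx' i)
      obtain ⟨σ, hσ, he⟩ := h3.aut hm (hm.union hM (hI.range c)) hI
      have h4 := h1 σ _ _ hrc
      rwa [he, hσ.comp_eq fun i => Or.inr ⟨i, rfl⟩] at h4
    exact F.trans (key a (Eqv.refl _ _) fun i => Or.inl ⟨i, rfl⟩)
      (F.symm (key b hab fun i => Or.inr ⟨i, rfl⟩))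
  have all : ∀ (n : ℕ) (u v : I → C), Ch L (WR L C) n u v → F u v := by
    intro n
    induction n with
    | zero =>
      intro u v h
      obtain rfl : u = v := h
      exact F.refl u
    | succ n ih =>
      rintro u v ⟨w, ⟨_, ⟨m, hw, rfl⟩, h3⟩, h4⟩
      exact F.trans (step m hw u w h3) (ih w v h4)
  rintro u v ⟨n, h⟩
  exact all n u v h

theorem invariant_of_typeDefinable {F : Setoid (I → C)} (h : TypeDefinable L C F) :
    Invariant L C F := by
  obtain ⟨p, hp⟩ := h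
  intro σ a b hab
  rw [hp] at hab ⊢
  intro φ hφ
  rw [← Sum.comp_elim, FirstOrder.Language.StrongHomClass.realize_formula]
  exact hab φ hφ

theorem p5_comp {X : Type*} {𝒳 : Ultrafilter X} {f : X → β → C} {B : Set C} {t : β → C}
    (h : Lim L (𝒳.map f) B t) (π : γ → β) {g : X → γ → C} {s : γ → C}
    (hg : ∀ x, g x = f x ∘ π) (hs : s = t ∘ π) : Lim L (𝒳.map g) B s := by
  obtain rfl : g = fun x => f x ∘ π := funext hg
  subst hs
  exact h.comp π

theorem p5_fin (k : ℕ) : ∀ u v : I → C, Ch L (WR L C) k u v → ∃ m : Fin k → Tm L → C,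
    (∀ i, Wit (m i)) ∧ Ch L (range fun i => range (m i)) k u v := by
  induction k with
  | zero => exact fun u v h => ⟨Fin.elim0, fun i => i.elim0, h⟩
  | succ k ih =>
    rintro u v ⟨w, ⟨_, ⟨m0, hw, rfl⟩, h3⟩, h4⟩
    obtain ⟨m, hm, h5⟩ := ih w v h4
    refine ⟨Fin.cons m0 m, fun i => Fin.cases hw hm i, w, ⟨range m0, ⟨0, rfl⟩, h3⟩, h5.mono ?_⟩
    rintro _ ⟨i, rfl⟩
    exact ⟨range (m i), ⟨i.succ, rfl⟩, subset_rfl⟩

theorem E0_typeDefinable (hm : Mon L C κ) (hI : Sm κ I) {k : ℕ}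
    (h : ∀ (n : ℕ) (u v : I → C), Ch L (WR L C) n u v → Ch L (WR L C) k u v) :
    TypeDefinable L C (E0 L C I) := by
  refine ⟨{φ | ∀ a b : I → C, E0 L C I a b → φ.Realize (Sum.elim a b)}, fun a b =>
    ⟨fun hab φ hφ => hφ a b hab, fun hab => ?_⟩⟩
  obtain ⟨𝒳, h𝒳⟩ := exU (Y := {x : (I → C) × (I → C) // E0 L C I x.1 x.2})
    (fun D : {D : Set (I ⊕ I → C) // Df L ∅ D ∧ Sum.elim a b ∈ D} =>
      {x | Sum.elim x.1.1 x.1.2 ∈ D.1}) (by
      intro s
      by_contra hne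
      obtain ⟨ψ, hψ⟩ := empty_definable_iff.1
        (Df.finsetInter s (fun D => D.1) fun D _ => D.2.1).compl
      have h1 : Sum.elim a b ∈ Set.ofPred ψ.Realize := by
        refine hab ψ fun u v huv => ?_
        have h2 : Sum.elim u v ∈ Set.ofPred ψ.Realize := by
          rw [← hψ]
          exact fun h3 => hne ⟨⟨(u, v), huv⟩, h3⟩
        exact h2
      rw [← hψ] at h1
      exact h1 fun D _ => D.2.2)
  have hL : Lim L (𝒳.map fun x => Sum.elim x.1.1 x.1.2) ∅ (Sum.elim a b) := by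
    intro D hD
    refine ⟨fun h1 => h𝒳 ⟨D, hD, h1⟩, fun h1 => ?_⟩
    by_contra h2
    have h3 : Dᶜ ∈ 𝒳.map fun x => Sum.elim x.1.1 x.1.2 := h𝒳 ⟨Dᶜ, hD.compl, h2⟩
    exact Ultrafilter.compl_mem_iff_notMem.1 h3 h1
  have hx : ∀ x : {x : (I → C) × (I → C) // E0 L C I x.1 x.2}, ∃ m : Fin k → Tm L → C,
      (∀ i, Wit (m i)) ∧ Ch L (range fun i => range (m i)) k x.1.1 x.1.2 := fun x => by
    obtain ⟨n, hn⟩ := x.2
    exact p5_fin k _ _ (h n _ _ hn)
  choose m hw hch using hx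
  have hζ : Sm κ (Fin k × Tm L) := hm.cprod _ hm.tm
  obtain ⟨w, hW⟩ := limExt hm hm.empty (hm.sum hI hI) hζ hL
    (fun x (z : Fin k × Tm L) => m x z.1 z.2)
  have h1 := Ch.lim hm hm.empty hζ hI (𝒳 := 𝒳) (fun x (z : Fin k × Tm L) => m x z.1 z.2)
    (fun i => {z | z.1 = i}) (fun x i => range (m x i))
    (fun i z hz => Eventually.of_forall fun x => ⟨z.2, by rw [show z.1 = i from hz]⟩) (T := w) k
    (fun x => x.1.1) (fun x => x.1.2) (U := a) (V := b) (Eventually.of_forall hch)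
    (p5_comp hW Sum.swap (fun x => Sum.elim_swap.symm) Sum.elim_swap.symm)
  refine ⟨k, h1.mono ?_⟩
  rintro _ ⟨i, rfl⟩
  refine ⟨range fun t => w (i, t), ⟨_, ?_, rfl⟩, ?_⟩
  · exact Wit.lim (f := fun x => m x i)
      (p5_comp hW (fun t => Sum.inr (i, t)) (fun _ => rfl) rfl) (Eventually.of_forall fun x => hw x i)
  · rintro _ ⟨t, rfl⟩
    exact ⟨(i, t), rfl, rfl⟩

end Pool.Agent.Lib.MP_e4697a_lc.N1
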