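import Pool.Agent.Lib.MP_e4697a_lc.N1.Sm

/-!
The ultrafilter on relabellings: a limit of tensor powers of a nonprincipal ultrafilter.
-/

set_option autoImplicit false

namespace Pool.Agent.Lib.MP_e4697a_lc.N1

open Set Filter

namespace VV

/-- put a value in front -/
def cons (a : ℕ) (h : ℕ → ℕ) : ℕ → ℕ := fun i => Nat.casesOn i a h

/-- tensor powers -/
noncomputable def Vn (U : Ultrafilter ℕ) : ℕ → Ultrafilter (ℕ → ℕ)
  | 0 => pure fun _ => 0
  | n + 1 => U.bind fun a => (Vn U n).map (cons a)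

/-- limit of the tensor powers -/
noncomputable def V (U : Ultrafilter ℕ) : Ultrafilter (ℕ → ℕ) := (Filter.hyperfilter ℕ).bind (Vn U)

/-- depends on the first `n` coordinates -/
def Dep (n : ℕ) (P : (ℕ → ℕ) → Prop) : Prop := ∀ h h' : ℕ → ℕ, (∀ i < n, h i = h' i) → P h → P h'

theorem ev_bind {α β : Type*} (U : Ultrafilter α) (F : α → Ultrafilter β) (P : β → Prop) :
    (∀ᶠ b in (U.bind F : Filter β), P b) ↔ ∀ᶠ a in (U : Filter α), ∀ᶠ b in (F a : Filter β), P b := by
  change (∀ᶠ b in Filter.bind (U : Filter α) (fun a => (F a : Filter β)), P b) ↔ _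
  exact Filter.eventually_bind

theorem Dep.cons {n : ℕ} {P : (ℕ → ℕ) → Prop} (h : Dep (n + 1) P) (a : ℕ) :
    Dep n fun k => P (cons a k) := fun k k' e => h _ _ fun i hi => by
  cases i with
  | zero => rfl
  | succ i => exact e i (by omega)

theorem Dep.mono {n m : ℕ} {P : (ℕ → ℕ) → Prop} (h : Dep n P) (e : n ≤ m) : Dep m P :=
  fun k k' a => h k k' fun i hi => a i (by omega)

theorem Vn_succ (U : Ultrafilter ℕ) (n : ℕ) (P : (ℕ → ℕ) → Prop) :
    (∀ᶠ h in (Vn U (n + 1) : Filter _), P h) ↔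
      ∀ᶠ a in (U : Filter ℕ), ∀ᶠ h in (Vn U n : Filter _), P (cons a h) := by
  rw [Vn, ev_bind]; rfl

theorem ev_dep0 {P : (ℕ → ℕ) → Prop} (h : Dep 0 P) (W : Ultrafilter (ℕ → ℕ)) (k : ℕ → ℕ) :
    (∀ᶠ x in (W : Filter _), P x) ↔ P k :=
  ⟨fun e => by obtain ⟨x, hx⟩ := e.exists; exact h _ _ (by simp) hx,
    fun e => Eventually.of_forall fun x => h _ _ (by simp) e⟩

theorem Vn_stable (U : Ultrafilter ℕ) : ∀ (n m : ℕ) (P : (ℕ → ℕ) → Prop), Dep n P → n ≤ m →
    ((∀ᶠ h in (Vn U m : Filter _), P h) ↔ ∀ᶠ h in (Vn U n : Filter _), P h)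
  | 0, m, P, h, _ => by rw [ev_dep0 h _ (fun _ => 0), ev_dep0 h _ (fun _ => 0)]
  | n + 1, 0, P, h, e => by omega
  | n + 1, m + 1, P, h, e => by
    rw [Vn_succ, Vn_succ]
    exact eventually_congr (Eventually.of_forall fun a => Vn_stable U n m _ (h.cons a) (by omega))

theorem V_iff (U : Ultrafilter ℕ) {n : ℕ} {P : (ℕ → ℕ) → Prop} (h : Dep n P) :
    (∀ᶠ x in (V U : Filter _), P x) ↔ ∀ᶠ x in (Vn U n : Filter _), P x := by
  rw [V, ev_bind]
  have e : ∀ᶠ m in (hyperfilter ℕ : Filter ℕ), n ≤ m :=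
    (Nat.hyperfilter_le_atTop) (eventually_ge_atTop n)
  rw [eventually_congr (e.mono fun m hm => Vn_stable U n m P h hm)]
  exact eventually_const

theorem V_cons (U : Ultrafilter ℕ) {n : ℕ} {P : (ℕ → ℕ) → Prop} (h : Dep n P) :
    (∀ᶠ x in (V U : Filter _), P x) ↔
      ∀ᶠ a in (U : Filter ℕ), ∀ᶠ x in (V U : Filter _), P (cons a x) := by
  have h1 := h.mono (Nat.le_succ n)
  rw [V_iff U h1, Vn_succ]
  exact eventually_congr (Eventually.of_forall fun a => (V_iff U (h1.cons a)).symm)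

theorem V_shift (U : Ultrafilter ℕ) {n : ℕ} {P : (ℕ → ℕ) → Prop} (h : Dep n P) (k : ℕ) :
    (∀ᶠ x : ℕ → ℕ in (V U : Filter _), P fun i => x (i + k)) ↔ ∀ᶠ x in (V U : Filter _), P x := by
  induction k with
  | zero => rfl
  | succ k ih =>
    have d : Dep (n + k + 1) fun x => P fun i => x (i + (k + 1)) :=
      fun x y e => h _ _ fun i hi => e _ (by omega)
    rw [V_cons U d, ← ih]
    exact eventually_const (f := (U : Filter ℕ))
      (p := ∀ᶠ x : ℕ → ℕ in (V U : Filter _), P fun i => x (i + k))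

theorem V_spread (U : Ultrafilter ℕ) : ∀ (n : ℕ) (P : (ℕ → ℕ) → Prop) (g : ℕ → ℕ), Dep n P →
    (∀ i, i + 1 < n → g i < g (i + 1)) →
    ((∀ᶠ x in (V U : Filter _), P (x ∘ g)) ↔ ∀ᶠ x in (V U : Filter _), P x)
  | 0, P, g, h, _ => by
    rw [ev_dep0 h _ (fun _ => 0), ev_dep0 (P := fun x => P (x ∘ g))
      (fun x y _ => h _ _ (by simp)) _ (fun _ => 0)]
    rfl
  | n + 1, P, g, h, hg => by
    have m0 : ∀ i, i < n → g 0 < g (i + 1) := by
      intro i
      induction i with
      | zero => exact fun e => hg 0 (by omega)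
      | succ i ih => exact fun e => (ih (by omega)).trans (hg (i + 1) (by omega))
    let R : (ℕ → ℕ) → Prop := fun y => P fun i => y (g i - g 0)
    have dR : Dep ((Finset.range (n + 1)).sup g + 1) R := fun x y e => h _ _ fun i hi => e _ (by
      have : g i ≤ (Finset.range (n + 1)).sup g := Finset.le_sup (Finset.mem_range.2 hi)
      omega)
    have e1 : ∀ x : ℕ → ℕ, P (x ∘ g) ↔ R fun i => x (i + g 0) := by
      intro x
      have e : ∀ i < n + 1, (x ∘ g) i = x (g i - g 0 + g 0) := by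
        intro i hi
        cases i with
        | zero => simp
        | succ i => have := m0 i (by omega); simp only [Function.comp]; congr 1; omega
      exact ⟨h _ _ e, h _ _ fun i hi => (e i hi).symm⟩
    simp only [e1]
    rw [V_shift U dR, V_cons U dR, V_cons U h]
    refine eventually_congr (Eventually.of_forall fun a => ?_)
    rw [← V_spread U n _ (fun i => g (i + 1) - g 0 - 1) (h.cons a) (fun i hi => by
      have := m0 i (by omega); have := hg (i + 1) (by omega); omega)]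
    refine eventually_congr (Eventually.of_forall fun x => ?_)
    have e : ∀ i < n + 1, cons a x (g i - g 0) = cons a (x ∘ fun i => g (i + 1) - g 0 - 1) i := by
      intro i hi
      cases i with
      | zero => simp [cons]
      | succ i =>
        have := m0 i (by omega)
        obtain ⟨j, hj⟩ : ∃ j, g (i + 1) - g 0 = j + 1 := ⟨g (i + 1) - g 0 - 1, by omega⟩
        simp only [cons, hj, Function.comp, Nat.add_sub_cancel]
    exact ⟨h _ _ e, h _ _ fun i hi => (e i hi).symm⟩

/-- `P` depends on the first `n` coordinates of each argument -/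
def Dep2 (n : ℕ) (P : (ℕ → ℕ) → (ℕ → ℕ) → Prop) : Prop :=
  ∀ h k h' k' : ℕ → ℕ, (∀ i < n, h i = k i) → (∀ i < n, h' i = k' i) → P h h' → P k k'

theorem V_two (U : Ultrafilter ℕ) (m : ℕ) : ∀ (n : ℕ) (P : (ℕ → ℕ) → (ℕ → ℕ) → Prop),
    (∀ h k h' k' : ℕ → ℕ, (∀ i < n, h i = k i) → (∀ i < m, h' i = k' i) → P h h' → P k k') →
    ((∀ᶠ h in (V U : Filter _), ∀ᶠ h' in (V U : Filter _), P h h') ↔
      ∀ᶠ h : ℕ → ℕ in (V U : Filter _), P h fun i => h (i + n))
  | 0, P, d => by
    rw [ev_dep0 (P := fun h => ∀ᶠ h' in (V U : Filter _), P h h')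
      (fun x y _ e => e.mono fun z => d _ _ _ _ (by simp) (by simp)) _ (fun _ => 0)]
    exact eventually_congr (Eventually.of_forall fun x =>
      ⟨d _ _ _ _ (by simp) (by simp), d _ _ _ _ (by simp) (by simp)⟩)
  | n + 1, P, d => by
    have d1 : Dep (n + 1) fun h => ∀ᶠ h' in (V U : Filter _), P h h' :=
      fun x y e a => a.mono fun z => d _ _ _ _ e (by simp)
    have d2 : Dep (m + n + 1) fun h => P h fun i => h (i + (n + 1)) :=
      fun x y e => d _ _ _ _ (fun i hi => e i (by omega)) fun i hi => e _ (by omega)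
    rw [V_cons U d1, V_cons U d2]
    refine eventually_congr (Eventually.of_forall fun a => ?_)
    exact V_two U m n (fun h h' => P (cons a h) h') fun h k h' k' e e' => d _ _ _ _ (fun i hi => by
      cases i with
      | zero => rfl
      | succ i => exact e i (by omega)) e'

theorem V_high (U : Ultrafilter ℕ) (hU : (U : Filter ℕ) ≤ atTop) : ∀ n b : ℕ,
    ∀ᶠ g : ℕ → ℕ in (V U : Filter _), b ≤ g 0 ∧ ∀ i, i + 1 < n → g i < g (i + 1)
  | 0, b => by
    have d : Dep 1 fun g => b ≤ g 0 ∧ ∀ i, i + 1 < 0 → g i < g (i + 1) :=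
      fun x y e a => ⟨e 0 (by omega) ▸ a.1, by simp⟩
    rw [V_cons U d]
    exact ((eventually_ge_atTop b).filter_mono hU).mono fun a ha => Eventually.of_forall fun x => ⟨ha, by simp⟩
  | n + 1, b => by
    have d : Dep (n + 1) fun g => b ≤ g 0 ∧ ∀ i, i + 1 < n + 1 → g i < g (i + 1) :=
      fun x y e a => ⟨e 0 (by omega) ▸ a.1, fun i hi => by
        rw [← e i (by omega), ← e (i + 1) hi]; exact a.2 i hi⟩
    rw [V_cons U d]
    refine ((eventually_ge_atTop b).filter_mono hU).mono fun a ha => (V_high U hU n (a + 1)).mono fun x hx =>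
      ⟨ha, fun i hi => ?_⟩
    cases i with
    | zero => exact hx.1
    | succ i => exact hx.2 i (by omega)

theorem V1 (U : Ultrafilter ℕ) (hU : (U : Filter ℕ) ≤ atTop) {n : ℕ}
    {P : (ℕ → ℕ) → (ℕ → ℕ) → Prop} (d : Dep2 n P) :
    (∀ᶠ g : ℕ → ℕ in (V U : Filter _), ∀ᶠ h : ℕ → ℕ in (V U : Filter _), P h (h ∘ g)) ↔
      ∀ᶠ h in (V U : Filter _), ∀ᶠ h' in (V U : Filter _), P h h' := by
  rw [V_two U n n P d]
  have d2 : Dep (n + n) fun h => P h fun i => h (i + n) :=
    fun x y e => d _ _ _ _ (fun i hi => e i (by omega)) fun i hi => e _ (by omega)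
  have key : ∀ᶠ g : ℕ → ℕ in (V U : Filter _),
      ((∀ᶠ h : ℕ → ℕ in (V U : Filter _), P h (h ∘ g)) ↔
        ∀ᶠ h : ℕ → ℕ in (V U : Filter _), P h fun i => h (i + n)) := by
    refine (V_high U hU n n).mono fun g hg => ?_
    rw [← V_spread U (n + n) _ (fun i => if i < n then i else g (i - n)) d2 (fun i hi => by
      by_cases a : i + 1 < n
      · rw [if_pos a, if_pos (by omega)]; omega
      · rw [if_neg a]
        by_cases c : i < n
        · rw [if_pos c, show i + 1 - n = 0 by omega]; omega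
        · rw [if_neg c, show i + 1 - n = i - n + 1 by omega]; exact hg.2 _ (by omega))]
    refine eventually_congr (Eventually.of_forall fun h => ?_)
    have e1 : ∀ i < n, h i = (h ∘ fun i => if i < n then i else g (i - n)) i :=
      fun i hi => by simp [hi]
    have e2 : ∀ i < n, (h ∘ g) i = (h ∘ fun i => if i < n then i else g (i - n)) (i + n) :=
      fun i _ => by simp
    exact ⟨d _ _ _ _ e1 e2, d _ _ _ _ (fun i hi => (e1 i hi).symm) fun i hi => (e2 i hi).symm⟩
  rw [eventually_congr key]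
  exact eventually_const

theorem V3 (U : Ultrafilter ℕ) (hU : (U : Filter ℕ) ≤ atTop) (k : ℕ) (g : ℕ → ℕ) :
    ∀ᶠ h : ℕ → ℕ in (V U : Filter _), ∀ i < k, g i < h 0 ∧ h 0 ≤ h i := by
  refine (V_high U hU k ((Finset.range k).sup g + 1)).mono fun h hh i hi => ⟨?_, ?_⟩
  · have : g i ≤ (Finset.range k).sup g := Finset.le_sup (Finset.mem_range.2 hi)
    have := hh.1
    omega
  · induction i with
    | zero => exact le_rfl
    | succ i ih => exact (ih (by omega)).trans (hh.2 i hi).le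

end VV

theorem exV : ∃ 𝒱 : Ultrafilter (ℕ → ℕ), IsV 𝒱 := by
  refine ⟨VV.V (hyperfilter ℕ), fun P ⟨n, hP⟩ => ?_, fun k => ?_⟩
  · exact VV.V1 _ Nat.hyperfilter_le_atTop (n := n) fun a b c d e f => (hP a c b d e f).1
  · exact Eventually.of_forall fun g => VV.V3 _ Nat.hyperfilter_le_atTop k g

end Pool.Agent.Lib.MP_e4697a_lc.N1
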