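import Pool.Agent.Lib.MP_e4697a_lc.N1.P3
import Pool.Agent.Lib.MP_e4697a_lc.N1.P4
import Pool.Agent.Lib.MP_e4697a_lc.N1.P5
import Pool.Agent.Lib.MP_e4697a_lc.N1.V

/-!
Every NSOP_1 theory is G-compact.
-/

set_option autoImplicit false

namespace Pool.Agent.Lib.MP_e4697a_lc.N1

open FirstOrder Set Filter

variable {L : FirstOrder.Language.{0, 0}} {C : Type 1} [L.Structure C] {κ : Cardinal.{1}}
  {α β γ γ0 δ ε ζ I : Type 1}

theorem steps_five (hm : Mon L C κ) (hN : ¬ HasSOP1 L C) (hI : Sm κ I) (n : ℕ) (u v : I → C)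
    (h : Ch L (WR L C) n u v) : Ch L (WR L C) 5 u v := by
  obtain ⟨𝒱, hV⟩ := exV
  obtain ⟨P, m0, K0, u', v', ℓ, hP, h0, hK, he, hc⟩ := adjPair hm hV hI h
  obtain ⟨σ, -, hσ⟩ := he.aut hm hm.empty (hm.sum hI hI)
  have hu : σ ∘ u' = u := funext fun i => congrFun hσ (.inl i)
  have hv : σ ∘ v' = v := funext fun i => congrFun hσ (.inr i)
  have := (five hm hN hV hI hP h0 hK hc).wr_aut σ
  rwa [hu, hv] at this

theorem main (hm : Mon L C κ) (hN : ¬ HasSOP1 L C) (hI : Sm κ I) :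
    IsLascar L C κ (E0 L C I) ∧ IsKimPillay L C κ (E0 L C I) :=
  ⟨⟨⟨E0_invariant, E0_bounded hm hI⟩, fun _ hF => E0_le hm hI hF.1 hF.2⟩,
    ⟨⟨E0_typeDefinable hm hI (steps_five hm hN hI), E0_bounded hm hI⟩,
      fun _ hF => E0_le hm hI (invariant_of_typeDefinable hF.1) hF.2⟩⟩

end Pool.Agent.Lib.MP_e4697a_lc.N1
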