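import Pool.Agent.Lib.MP_e4697a_lc.N1.TL

/-!
Symmetry and the weak independence theorem over models.
-/

set_option autoImplicit false

namespace Pool.Agent.Lib.MP_e4697a_lc.N1

open FirstOrder Set Filter

variable {L : FirstOrder.Language.{0, 0}} {C : Type 1} [L.Structure C] {κ : Cardinal.{1}}
  {α β γ γ0 δ ε ζ I : Type 1}

omit [L.Structure C] in
theorem wit_swap (a : α → C) (b : β → C) : Sum.elim a b ∘ Sum.swap = Sum.elim b a := by
  funext i
  cases i <;> rfl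

theorem wit_mor {ℛ : Ultrafilter (α → C)} {M : Set C} {a : α → C} :
    ∀ {l : List (α → C)}, HG L ℛ M a id l → Mor L ℛ M l
  | [], _ => trivial
  | _ :: _, h => ⟨h.2.1, wit_mor h.2.2⟩

theorem wit_eqv {M : Set C} {a a' : β → C} (h : ∀ D, Df L M D → a' ∈ D → a ∈ D) :
    Eqv L M a a' := fun D hD =>
  ⟨fun ha => by_contra fun h' => h Dᶜ hD.compl h' ha, h D hD⟩

theorem wit_real (hm : Mon L C κ) {M : Set C} (hM : Sm κ M) (hα : Sm κ α) (hβ : Sm κ β)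
    {x : α → C} {e : β → C} (he : KInd L M e x) {𝒩 : Ultrafilter (α → C)} (hS : Sup 𝒩 M)
    (hL : Lim L 𝒩 M x) {c : ℕ → α → C}
    (hc : ∀ j, Lim L 𝒩 (M ∪ {y | ∃ i < j, y ∈ range (c i)}) (c j)) :
    ∃ e' : β → C, ∀ j, Eqv L M (Sum.elim e' (c j)) (Sum.elim e x) := by
  classical
  obtain ⟨e', h⟩ := sat hm (hm.union hM (hm.vals hα (countable_range c))) hβ
    (ι := {D : Set (β ⊕ α → C) // Df L M D ∧ Sum.elim e x ∈ D} × ℕ)
    (fun i => {v | Sum.elim v (c i.2) ∈ i.1.1})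
    (fun i => i.1.2.1.plug subset_union_left fun k => Or.inr ⟨_, ⟨i.2, rfl⟩, k, rfl⟩)
    (fun s => by
      obtain ⟨v, hv⟩ := he {v | ∀ i ∈ s, v ∈ i.1.1} (Df.finsetInter s _ fun i _ => i.1.2.1)
        (fun i _ => i.1.2.2) 𝒩 hS hL _
        (mor_of_seq hc (List.range (s.sup (·.2) + 1)).reverse
          (List.pairwise_reverse.2 List.pairwise_lt_range))
      refine ⟨v, fun i hi => hv (c i.2) (List.mem_map.2 ⟨i.2, ?_, rfl⟩) i hi⟩
      rw [List.mem_reverse, List.mem_range]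
      exact Nat.lt_succ_of_le (Finset.le_sup (f := fun i => i.2) hi))
  exact ⟨e', fun j => wit_eqv fun D hD h0 => h (⟨D, hD, h0⟩, j)⟩

theorem KInd.symm (hm : Mon L C κ) (hN : ¬ HasSOP1 L C) {M : Set C} (hM : Sm κ M)
    (hb : Base L M) (hα : Sm κ α) (hβ : Sm κ β) {a : α → C} {b : β → C} (h : KInd L M a b) :
    KInd L M b a := by
  intro D hD h0
  obtain ⟨ℛ, hS, hL⟩ := coheir hb a
  refine kimLemma hm hN hM hα hD hS hL fun k => ?_
  obtain ⟨l, hl, hg, x, hx⟩ := treeLemma hm hN hM hb hβ hα h (ρ := id) Function.injective_id hS hL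
    (hD.comp Sum.swap) (by
      change Sum.elim a b ∘ Sum.swap ∈ D
      rwa [wit_swap]) k
  refine ⟨l, hl, wit_mor hg, x, fun t ht => ?_⟩
  have h1 : Sum.elim t x ∘ Sum.swap ∈ D := hx t ht
  rwa [wit_swap] at h1

theorem KInd.join (hm : Mon L C κ) (hN : ¬ HasSOP1 L C) {M : Set C} (hM : Sm κ M)
    (hb : Base L M) (hα : Sm κ α) (hβ : Sm κ β) (hγ : Sm κ γ) {x : α → C} {e : β → C}
    {f : γ → C} (he : KInd L M e x) (hf : KInd L M f x) :
    ∃ (x' : α → C) (e' : β → C) (f' : γ → C), Eqv L M (Sum.elim e' x') (Sum.elim e x) ∧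
      Eqv L M (Sum.elim f' x') (Sum.elim f x) ∧ KInd L M (Sum.elim e' f') x' := by
  obtain ⟨𝒩, hS, hL⟩ := coheir hb x
  obtain ⟨θ, -, hθ⟩ := morAut hm hM hα hL
  obtain ⟨e', he'⟩ := wit_real hm hM hα hβ he hS hL hθ
  obtain ⟨f', hf'⟩ := wit_real hm hM hα hγ hf hS hL hθ
  obtain ⟨x', hx'⟩ := limEx hm (hm.union hM ((hm.sum hβ hγ).range (Sum.elim e' f'))) hα
    (UU.map fun j => θ j ∘ x)
  have key : ∀ {ζ : Type 1} (g : ζ → C), (∀ i, g i ∈ range (Sum.elim e' f')) →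
      ∀ D : Set (ζ ⊕ α → C), Df L M D →
        (Sum.elim g x' ∈ D ↔ ∀ᶠ j in (UU : Filter ℕ), Sum.elim g (θ j ∘ x) ∈ D) :=
    fun g hg D hD => hx' _ (hD.plugL subset_union_left fun i => Or.inr (hg i))
  have h1 : Eqv L M (Sum.elim e' x') (Sum.elim e x) := wit_eqv fun D hD h0 =>
    (key e' (fun i => ⟨.inl i, rfl⟩) D hD).2 (Eventually.of_forall fun j => (he' j D hD).2 h0)
  have h2 : Eqv L M (Sum.elim f' x') (Sum.elim f x) := wit_eqv fun D hD h0 =>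
    (key f' (fun i => ⟨.inr i, rfl⟩) D hD).2 (Eventually.of_forall fun j => (hf' j D hD).2 h0)
  refine ⟨x', e', f', h1, h2, fun D hD h0 => ?_⟩
  refine kimLemma hm hN hM hα hD hS (hL.of_eqv (h1.comp Sum.inr).symm) fun k => ?_
  obtain ⟨s, h3, h4, h5⟩ := UU_list ((key _ (fun i => ⟨i, rfl⟩) D hD).1 h0) k
  refine ⟨s.map fun j => θ j ∘ x, by rw [List.length_map, h3], mor_of_seq hθ s h4,
    Sum.elim e' f', fun t ht => ?_⟩
  obtain ⟨j, hj, rfl⟩ := List.mem_map.1 ht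
  exact h5 j hj

theorem weakInd (hm : Mon L C κ) (hN : ¬ HasSOP1 L C) {M : Set C} (hM : Sm κ M)
    (hb : Base L M) (hα : Sm κ α) (hε : Sm κ ε) {𝒬 : Ultrafilter (ε → C)} (hS : Sup 𝒬 M)
    {x : α → C} {e f e' f' : ε → C} (he : Lim L 𝒬 M e) (hf : Lim L 𝒬 M f) (hxe : KInd L M x e)
    (hxf : KInd L M x f) (hf' : Lim L 𝒬 M f') (he' : Lim L 𝒬 (M ∪ range f') e') :
    ∃ x' : α → C, Eqv L M (Sum.elim x' e') (Sum.elim x e) ∧
      Eqv L M (Sum.elim x' f') (Sum.elim x f) := by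
  classical
  obtain ⟨x₁, e₁, f₁, h1, h2, h3⟩ := KInd.join hm hN hM hb hα hε hε
    (hxe.symm hm hN hM hb hα hε) (hxf.symm hm hN hM hb hα hε)
  have h1' : Eqv L M (Sum.elim x₁ e₁) (Sum.elim x e) := by
    have := h1.comp Sum.swap
    rwa [wit_swap, wit_swap] at this
  have h2' : Eqv L M (Sum.elim x₁ f₁) (Sum.elim x f) := by
    have := h2.comp Sum.swap
    rwa [wit_swap, wit_swap] at this
  have hr : rng ([] : List (ε → C)) = ∅ := by
    ext y
    simp [rng]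
  have hmor : Mor L 𝒬 M [e', f'] := by
    refine ⟨?_, ?_, trivial⟩
    · rwa [rng_cons, hr, union_empty]
    · rwa [hr, union_empty]
  have key : ∀ D1 D2 : Set (α ⊕ ε → C), Df L M D1 → Df L M D2 → Sum.elim x e ∈ D1 →
      Sum.elim x f ∈ D2 → ∃ y, Sum.elim y e' ∈ D1 ∧ Sum.elim y f' ∈ D2 := by
    intro D1 D2 hD1 hD2 k1 k2
    have e1 : ∀ (t : ε ⊕ ε → C) (y : α → C) (π : ε → ε ⊕ ε),
        Sum.elim t y ∘ Sum.elim Sum.inr (Sum.inl ∘ π) = Sum.elim y (t ∘ π) := fun t y π => by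
      funext i
      cases i <;> rfl
    obtain ⟨l, hl, hg, y, hy⟩ := treeLemma hm hN hM hb hα (hm.sum hε hε) h3 (ρ := Sum.inl)
      Sum.inl_injective hS (he.of_eqv (h1.comp Sum.inl).symm)
      ((hD1.comp (Sum.elim Sum.inr (Sum.inl ∘ Sum.inl))).inter
        (hD2.comp (Sum.elim Sum.inr (Sum.inl ∘ Sum.inr))))
      (by
        refine ⟨?_, ?_⟩
        · change _ ∘ _ ∈ D1
          rw [e1]
          exact (h1' D1 hD1).2 k1
        · change _ ∘ _ ∈ D2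
          rw [e1]
          exact (h2' D2 hD2).2 k2) 2
    obtain ⟨t1, t2, rfl⟩ := List.length_eq_two.1 hl
    have hmor' : Mor L 𝒬 M [t1 ∘ Sum.inl, t2 ∘ Sum.inr] := by
      refine ⟨hg.2.1.mono (union_subset_union_right _ ?_), ?_, trivial⟩
      · rintro z ⟨t, ht, i, rfl⟩
        rw [List.mem_singleton] at ht
        subst ht
        exact ⟨t2, List.mem_singleton_self _, _, rfl⟩
      · rw [hr, union_empty]
        exact hf.of_eqv ((hg.2.2.1.comp Sum.inr).trans (h2.comp Sum.inl)).symm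
    obtain ⟨σ, hσ, hσl⟩ := morUnique hm hM hε hS hmor' hmor rfl
    simp only [List.map_cons, List.map_nil, List.cons.injEq, and_true] at hσl
    have e2 : ∀ t : ε → C, Sum.elim (σ ∘ y) (σ ∘ t) = σ ∘ Sum.elim y t := fun t => by
      funext i
      cases i <;> rfl
    refine ⟨σ ∘ y, ?_, ?_⟩
    · rw [← hσl.1, e2, hD1.fix hσ, ← e1]
      exact (hy t1 (by simp)).1
    · rw [← hσl.2, e2, hD2.fix hσ, ← e1]
      exact (hy t2 (by simp)).2
  obtain ⟨x', h⟩ := sat hm (hm.union hM ((hm.sum hε hε).range (Sum.elim e' f'))) hα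
    (ι := {D : Set (α ⊕ ε → C) // Df L M D ∧ Sum.elim x e ∈ D} ×
      {D : Set (α ⊕ ε → C) // Df L M D ∧ Sum.elim x f ∈ D})
    (fun i => {v | Sum.elim v e' ∈ i.1.1} ∩ {v | Sum.elim v f' ∈ i.2.1})
    (fun i => (i.1.2.1.plug subset_union_left fun k => Or.inr (mem_range_self (Sum.inl k))).inter
      (i.2.2.1.plug subset_union_left fun k => Or.inr (mem_range_self (Sum.inr k))))
    (fun s => by
      obtain ⟨y, k1, k2⟩ := key {v | ∀ i ∈ s, v ∈ i.1.1} {v | ∀ i ∈ s, v ∈ i.2.1}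
        (Df.finsetInter s _ fun i _ => i.1.2.1) (Df.finsetInter s _ fun i _ => i.2.2.1)
        (fun i _ => i.1.2.2) (fun i _ => i.2.2.2)
      exact ⟨y, fun i hi => ⟨k1 i hi, k2 i hi⟩⟩)
  exact ⟨x', wit_eqv fun D hD h0 => (h (⟨D, hD, h0⟩, ⟨univ, Set.definable_univ, trivial⟩)).1,
    wit_eqv fun D hD h0 => (h (⟨univ, Set.definable_univ, trivial⟩, ⟨D, hD, h0⟩)).2⟩

end Pool.Agent.Lib.MP_e4697a_lc.N1
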