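import Pool.Agent.Lib.MP_e4697a_lc.N1.G
import Pool.Agent.Lib.MP_e4697a_lc.N1.Ch
import Pool.Agent.Lib.MP_e4697a_lc.N1.WIT

/-!
In an NSOP_1 theory, chains over an adjacent pair of systems have bounded length.
-/

set_option autoImplicit false

namespace Pool.Agent.Lib.MP_e4697a_lc.N1

open FirstOrder Set Filter

variable {L : FirstOrder.Language.{0, 0}} {C : Type 1} [L.Structure C] {κ : Cardinal.{1}}
  {α β γ γ0 δ ε ζ I : Type 1}

variable {𝒱 : Ultrafilter (ℕ → ℕ)}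

/-- some conjugate of `K` over `X` is generic over `J` -/
def Rel (𝒱 : Ultrafilter (ℕ → ℕ)) (X : Set C) (J K : Tm L → C) : Prop :=
  ∃ K', Eqv L X K' K ∧ Lim L (QJ 𝒱 J) (range J) K'

/-- generic copies over `X` have the same type over `X` -/
def Stb (𝒱 : Ultrafilter (ℕ → ℕ)) (X : Set C) (K : Tm L → C) : Prop :=
  ∀ K', Lim L (QJ 𝒱 K) (range K ∪ X) K' → Eqv L X K' K

theorem Rel.left (hm : Mon L C κ) {X : Set C} (hX : Sm κ X) {J J' K : Tm L → C}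
    (h : Rel 𝒱 X J K) (hJ : Eqv L X J J') : Rel 𝒱 X J' K := by
  obtain ⟨K', h1, h2⟩ := h
  obtain ⟨σ, hσ, rfl⟩ := hJ.aut hm hX hm.tm
  refine ⟨σ ∘ K', (Eqv.of_fix hσ K').symm.trans h1, ?_⟩
  have := h2.qj_aut σ
  rwa [← range_comp] at this

theorem Stb.of_eqv (hm : Mon L C κ) {X : Set C} (hX : Sm κ X) {K K' : Tm L → C}
    (h : Stb 𝒱 X K) (hK : Eqv L X K K') : Stb 𝒱 X K' := by
  obtain ⟨σ, hσ, rfl⟩ := hK.aut hm hX hm.tm
  intro K'' hK''
  have h1 := hK''.qj_aut σ.symm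
  have e : σ.symm ∘ σ ∘ K = K := funext fun t => σ.symm_apply_apply _
  rw [image_union, ← range_comp, e, hσ.symm.image] at h1
  exact ((Eqv.of_fix hσ.symm K'').trans (h _ h1)).trans (Eqv.of_fix hσ K)

theorem Stb.of_lim (hm : Mon L C κ) (hV : IsV 𝒱) {X : Set C} (hX : Sm κ X) {J J' : Tm L → C}
    (h : Lim L (QJ 𝒱 J) X J') : Stb 𝒱 X J' := by
  intro K' hK'
  rw [union_comm] at hK'
  exact (gSt hV h hK').eqv h

/-- the fixed tuple is Kim-independent from a generic copy -/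
theorem kind_generic (hm : Mon L C κ) (hN : ¬ HasSOP1 L C) (hV : IsV 𝒱) (hα : Sm κ α)
    (x : α → C) {J K K' : Tm L → C} (h : Lim L (QJ 𝒱 J) (range J) K)
    (h' : Lim L (QJ 𝒱 K) (range J ∪ range K ∪ range x) K') : KInd L (range J) x K' := by
  intro D hD hx
  have hJ : Sm κ (range J) := hm.tm.range J
  have hB : Sm κ (range J ∪ range K ∪ range x : Set C) :=
    hm.union (hm.union hJ (hm.tm.range K)) (hα.range x)
  refine kimLemma hm hN hJ hm.tm hD (sup_QJ J) (gSt hV h (h'.mono subset_union_left)) fun k => ?_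
  obtain ⟨l, hl, hmor⟩ := morEx hm hB hm.tm (QJ 𝒱 K) k
  refine ⟨l, hl, (gMor hV subset_rfl h (hmor.mono subset_union_left)).1, x, fun t ht => ?_⟩
  exact (((hmor.lim ht).eqv h') _ (hD.plugL (subset_union_left.trans subset_union_left)
    fun i => Or.inr ⟨i, rfl⟩)).2 hx

theorem euclid (hm : Mon L C κ) (hN : ¬ HasSOP1 L C) (hV : IsV 𝒱) (hα : Sm κ α) (x : α → C)
    {J K1 K2 : Tm L → C} (hJ : Wit J) (h1 : Rel 𝒱 (range x) J K1) (h2 : Rel 𝒱 (range x) J K2)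
    (s1 : Stb 𝒱 (range x) K1) (s2 : Stb 𝒱 (range x) K2) : Rel 𝒱 (range x) K1 K2 := by
  have := hm.ne
  obtain ⟨K1', e1, a1⟩ := h1
  obtain ⟨K2', e2, a2⟩ := h2
  have hX : Sm κ (range x) := hα.range x
  have hM : Sm κ (range J) := hm.tm.range J
  obtain ⟨L1, l1⟩ := limEx hm (hm.union (hm.union hM (hm.tm.range K1')) hX) hm.tm (QJ 𝒱 K1')
  obtain ⟨L2, l2⟩ := limEx hm (hm.union (hm.union hM (hm.tm.range K2')) hX) hm.tm (QJ 𝒱 K2')
  have f1 : Eqv L (range x) L1 K1 := (s1.of_eqv hm hX e1.symm L1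
    (l1.mono (union_subset_union_left _ subset_union_right))).trans e1
  have f2 : Eqv L (range x) L2 K2 := (s2.of_eqv hm hX e2.symm L2
    (l2.mono (union_subset_union_left _ subset_union_right))).trans e2
  have g1 := gSt hV a1 (l1.mono subset_union_left)
  have g2 := gSt hV a2 (l2.mono subset_union_left)
  obtain ⟨K, hK⟩ := limEx hm (hm.union hM (hm.tm.range L1)) hm.tm (QJ 𝒱 L1)
  obtain ⟨x', y1, y2⟩ := weakInd hm hN hM hJ.base hα hm.tm (sup_QJ J) g1 g2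
    (kind_generic hm hN hV hα x a1 l1) (kind_generic hm hN hV hα x a2 l2) (gSt hV g1 hK)
    (gRev hV subset_rfl g1 hK)
  obtain ⟨σ, hσ, hs⟩ := y1.aut hm hM (hm.sum hα hm.tm)
  have hx : σ ∘ x' = x := funext fun i => congrFun hs (.inl i)
  have hL : σ ∘ L1 = L1 := funext fun i => congrFun hs (.inr i)
  refine Rel.left hm hX (J := L1) ⟨σ ∘ K, Eqv.trans ?_ f2, ?_⟩ f1
  · have h3 : Eqv L (range J) (Sum.elim x (σ ∘ K)) (Sum.elim x L2) := by
      refine Eqv.trans ?_ y2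
      have := (Eqv.of_fix hσ (Sum.elim x' K)).symm
      rwa [Sum.comp_elim, hx] at this
    have h4 : Eqv L (range J) (Sum.elim (σ ∘ K) x) (Sum.elim L2 x) := by
      have := h3.comp Sum.swap
      rwa [Sum.elim_swap, Sum.elim_swap] at this
    exact (eqv_elim_iff.2 h4).mono subset_union_right
  · have := (hK.mono subset_union_right).qj_aut σ
    rwa [← range_comp, hL] at this

/-- related to the base point -/
def Good (𝒱 : Ultrafilter (ℕ → ℕ)) (X : Set C) (m1 J : Tm L → C) : Prop :=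
  ∀ J', Lim L (QJ 𝒱 J) (range J ∪ X) J' → Rel 𝒱 X J' m1

theorem good_iff (hm : Mon L C κ) (hN : ¬ HasSOP1 L C) (hV : IsV 𝒱) (hα : Sm κ α) (x : α → C)
    {m1 J K : Tm L → C} (hs : Stb 𝒱 (range x) m1) (hJ : Wit J)
    (h : Lim L (QJ 𝒱 J) (range J) K) : Good 𝒱 (range x) m1 J ↔ Good 𝒱 (range x) m1 K := by
  have hX : Sm κ (range x) := hα.range x
  have hK : Wit K := hJ.of_lim h
  have key : ∀ J' K' : Tm L → C, Lim L (QJ 𝒱 J) (range J ∪ range x) J' →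
      Lim L (QJ 𝒱 K) (range K ∪ range x) K' →
      Rel 𝒱 (range x) J' K' ∧ Rel 𝒱 (range x) K' J' := by
    intro J' K' hJ' hK'
    obtain ⟨K'', hK''⟩ := limEx hm (hm.union (hm.union (hm.tm.range J) (hm.tm.range K)) hX)
      hm.tm (QJ 𝒱 K)
    have r1 : Rel 𝒱 (range x) J J' := ⟨J', Eqv.refl _ _, hJ'.mono subset_union_left⟩
    have r2 : Rel 𝒱 (range x) J K' := ⟨K'', (hK''.mono subset_union_right).eqv
      (hK'.mono subset_union_right), gSt hV h (hK''.mono subset_union_left)⟩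
    have s1 := Stb.of_lim hm hV hX (hJ'.mono subset_union_right)
    have s2 := Stb.of_lim hm hV hX (hK'.mono subset_union_right)
    exact ⟨euclid hm hN hV hα x hJ r1 r2 s1 s2, euclid hm hN hV hα x hJ r2 r1 s2 s1⟩
  constructor
  · intro hg K' hK'
    obtain ⟨J', hJ'⟩ := limEx hm (hm.union (hm.tm.range J) hX) hm.tm (QJ 𝒱 J)
    exact euclid hm hN hV hα x (hJ.of_lim hJ') (key J' K' hJ' hK').1 (hg J' hJ')
      (Stb.of_lim hm hV hX (hK'.mono subset_union_right)) hs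
  · intro hg J' hJ'
    obtain ⟨K', hK'⟩ := limEx hm (hm.union (hm.tm.range K) hX) hm.tm (QJ 𝒱 K)
    exact euclid hm hN hV hα x (hK.of_lim hK') (key J' K' hJ' hK').2 (hg K' hK')
      (Stb.of_lim hm hV hX (hJ'.mono subset_union_right)) hs

theorem Good.four (hm : Mon L C κ) (hV : IsV 𝒱) {P m0 m1 : Tm L → C} (hP : Wit P)
    (h0 : Lim L (QJ 𝒱 P) (range P) m0) (h1 : Lim L (QJ 𝒱 m0) (range P ∪ range m0) m1)
    (σ : Aut L C) (h : Good 𝒱 (range m0) m1 (σ ∘ m0)) : Ch L (WR L C) 4 m0 (σ ∘ m0) := by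
  have hm0 : Wit m0 := hP.of_lim h0
  have h0' := h0.qj_aut σ
  rw [← range_comp] at h0'
  obtain ⟨J', hJ'⟩ := limEx hm (hm.union (hm.union (hm.tm.range (σ ∘ P)) (hm.tm.range (σ ∘ m0)))
    (hm.tm.range m0)) hm.tm (QJ 𝒱 (σ ∘ m0))
  obtain ⟨K', e, hK'⟩ := h J' (hJ'.mono (union_subset_union_left _ subset_union_right))
  obtain ⟨K'', hK''⟩ := limEx hm (hm.union (hm.tm.range (σ ∘ P)) (hm.tm.range J')) hm.tm
    (QJ 𝒱 J')
  have a1 := gSt hV h0' (hJ'.mono subset_union_left)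
  have a2 := gSt hV a1 hK''
  exact ⟨m1, ⟨_, ⟨P, hP, rfl⟩, h0.eqv (gSt hV h0 h1)⟩, K', ⟨_, ⟨m0, hm0, rfl⟩, e.symm⟩,
    K'', ⟨_, ⟨J', (hm0.aut σ).of_lim hJ', rfl⟩, hK'.eqv (hK''.mono subset_union_right)⟩,
    σ ∘ m0, ⟨_, ⟨σ ∘ P, hP.aut σ, rfl⟩, a2.eqv h0'⟩, rfl⟩

theorem five (hm : Mon L C κ) (hN : ¬ HasSOP1 L C) (hV : IsV 𝒱) (hI : Sm κ I)
    {P m0 K0 : Tm L → C} (hP : Wit P) (h0 : Lim L (QJ 𝒱 P) (range P) m0)
    (hK : Lim L (QJ 𝒱 m0) (range m0) K0) {n : ℕ} {u v : I → C}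
    (h : Ch L {range m0, range K0} n u v) : Ch L (WR L C) 5 u v := by
  have hm0 : Wit m0 := hP.of_lim h0
  have hX : Sm κ (range m0) := hm.tm.range m0
  obtain ⟨m1, h1⟩ := limEx hm (hm.union (hm.tm.range P) hX) hm.tm (QJ 𝒱 m0)
  have hs : Stb 𝒱 (range m0) m1 := Stb.of_lim hm hV hX (h1.mono subset_union_right)
  have hiff : ∀ σ : Aut L C,
      Good 𝒱 (range m0) m1 (σ ∘ m0) ↔ Good 𝒱 (range m0) m1 (σ ∘ K0) := fun σ => by
    have := hK.qj_aut σ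
    rw [← range_comp] at this
    exact good_iff hm hN hV hm.tm m0 hs (hm0.aut σ) this
  have key : ∀ (n : ℕ) (u : I → C), Ch L {range m0, range K0} n u v →
      ∃ σ : Aut L C, σ ∘ u = v ∧ Good 𝒱 (range m0) m1 (σ ∘ m0) := by
    intro n
    induction n with
    | zero =>
      intro u h
      refine ⟨FirstOrder.Language.Equiv.refl L C, h, fun J' hJ' => ?_⟩
      have hJ'' : Lim L (QJ 𝒱 m0) (range m0) J' := hJ'.mono subset_union_right
      exact euclid hm hN hV hm.tm m0 hm0 ⟨J', Eqv.refl _ _, hJ''⟩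
        ⟨m1, Eqv.refl _ _, h1.mono subset_union_right⟩ (Stb.of_lim hm hV hX hJ'') hs
    | succ n ih =>
      rintro u ⟨w, ⟨A, hA, e⟩, h⟩
      obtain ⟨σ, hσ, hg⟩ := ih w h
      rcases hA with rfl | rfl
      · obtain ⟨ρ, hρ, rfl⟩ := e.aut hm hX hI
        refine ⟨σ.comp ρ, hσ, ?_⟩
        have : σ.comp ρ ∘ m0 = σ ∘ m0 := congrArg (σ ∘ ·) (hρ.comp_eq fun i => ⟨i, rfl⟩)
        rwa [this]
      · obtain ⟨ρ, hρ, rfl⟩ := e.aut hm (hm.tm.range K0) hI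
        refine ⟨σ.comp ρ, hσ, (hiff _).2 ?_⟩
        have : σ.comp ρ ∘ K0 = σ ∘ K0 := congrArg (σ ∘ ·) (hρ.comp_eq fun i => ⟨i, rfl⟩)
        rw [this]
        exact (hiff σ).1 hg
  obtain ⟨σ, rfl, hg⟩ := key n u h
  obtain ⟨τ, hτ, hc⟩ := (hg.four hm hV hP h0 h1 σ).aut (I := I) hm
    (by rintro _ ⟨m, -, rfl⟩; exact hm.tm.range m) hm.tm
  have hfix : Fix (τ.symm.comp σ) (range m0) := by
    rintro _ ⟨t, rfl⟩
    have := congrFun hτ t
    simp only [Function.comp_apply] at this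
    simp [← this]
  refine ⟨τ.symm.comp σ ∘ u, ⟨_, ⟨m0, hm0, rfl⟩, Eqv.of_fix hfix u⟩, ?_⟩
  have := hc (τ.symm.comp σ ∘ u)
  have e : τ ∘ τ.symm.comp σ ∘ u = σ ∘ u := funext fun i => by simp
  rwa [e] at this

end Pool.Agent.Lib.MP_e4697a_lc.N1
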