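import Pool.Agent.Lib.MP_e4697a_lc.Defs

/-!
The property SOP_1.
-/

set_option autoImplicit false

namespace Pool.Agent.Lib.MP_e4697a_lc

open FirstOrder

/-- `SOP_1`: a formula `φ(x;y)` and parameters `a η` indexed by the binary tree such that along
every branch the instances are consistent (finitely satisfiable in `M`), while the instances at
`η⌢1` and at `ν` are inconsistent whenever `η⌢0` is an initial segment of `ν`
(`false` stands for `0` and `true` for `1`). -/
def HasSOP1 (L : FirstOrder.Language.{0, 0}) (M : Type 1) [L.Structure M] : Prop :=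
  ∃ (n m : ℕ) (φ : L.Formula (Fin n ⊕ Fin m)) (a : List Bool → Fin m → M),
    (∀ (η : ℕ → Bool) (N : ℕ), ∃ x : Fin n → M, ∀ k < N,
      φ.Realize (Sum.elim x (a (List.ofFn fun i : Fin k => η i)))) ∧
    ∀ η ν : List Bool, η ++ [false] <+: ν →
      ¬ ∃ x : Fin n → M, φ.Realize (Sum.elim x (a (η ++ [true]))) ∧ φ.Realize (Sum.elim x (a ν))

end Pool.Agent.Lib.MP_e4697a_lc
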