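import Pool.Agent.Lib.MP_e4697a_lc.N1.Base

/-!
Small types, and two helpers on ultrafilters.
-/

set_option autoImplicit false

namespace Pool.Agent.Lib.MP_e4697a_lc.N1

open FirstOrder Set Filter

variable {L : FirstOrder.Language.{0, 0}} {C : Type 1} [L.Structure C] {κ : Cardinal.{1}}
  {α β γ γ0 δ ε ζ I : Type 1}

theorem Sm.of_inj (h : Sm κ β) {f : α → β} (hf : Function.Injective f) : Sm κ α := by
  exact (Cardinal.mk_le_of_injective hf).trans_lt h

theorem Sm.of_surj (h : Sm κ α) {f : α → β} (hf : Function.Surjective f) : Sm κ β := by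
  exact (Cardinal.mk_le_of_surjective hf).trans_lt h

theorem Mon.countable (hm : Mon L C κ) (β : Type 1) [Countable β] : Sm κ β := by
  exact Cardinal.mk_le_aleph0.trans_lt hm.unc

theorem Mon.sum (hm : Mon L C κ) (h : Sm κ α) (h' : Sm κ β) : Sm κ (α ⊕ β) := by
  unfold Sm at *
  rw [Cardinal.mk_sum, Cardinal.lift_id, Cardinal.lift_id]
  exact Cardinal.add_lt_of_lt hm.unc.le h h'

theorem Mon.prod (hm : Mon L C κ) (h : Sm κ α) (h' : Sm κ β) : Sm κ (α × β) := by
  unfold Sm at *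
  rw [Cardinal.mk_prod, Cardinal.lift_id, Cardinal.lift_id]
  exact Cardinal.mul_lt_of_lt hm.unc.le h h'

theorem Mon.cprod (hm : Mon L C κ) (ι : Type) [Countable ι] (h : Sm κ β) : Sm κ (ι × β) := by
  refine Sm.of_inj (hm.prod (hm.countable (ULift.{1} ι)) h)
    (f := fun x => (ULift.up x.1, x.2)) fun x y e => ?_
  exact Prod.ext (congrArg (fun z => z.1.down) e) (congrArg (fun z => z.2) e)

theorem Mon.set (hm : Mon L C κ) (h : Sm κ β) : Sm κ (Set β) := by
  unfold Sm at *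
  rw [Cardinal.mk_set]
  exact hm.sl.isStrongPrelimit h

theorem Mon.formula (hm : Mon L C κ) (h : Sm κ β) : Sm κ (L.Formula β) := by
  have h1 := Cardinal.mk_le_of_injective
    (sigma_mk_injective (β := fun n => L.BoundedFormula β n) (i := 0))
  have h2 := Language.BoundedFormula.card_le (L := L) (α := β)
  refine (h1.trans h2).trans_lt (max_lt hm.unc ?_)
  rw [Cardinal.lift_id']
  exact Cardinal.add_lt_of_lt hm.unc.le h hm.lang

theorem Sm.subset {A B : Set β} (h : Sm κ B) (hA : A ⊆ B) : Sm κ A := by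
  exact (Cardinal.mk_le_mk_of_subset hA).trans_lt h

theorem Sm.range (h : Sm κ α) (t : α → β) : Sm κ (range t) := by
  exact Cardinal.mk_range_le.trans_lt h

theorem Sm.image {A : Set α} (h : Sm κ A) (f : α → β) : Sm κ (f '' A) := by
  exact Cardinal.mk_image_le.trans_lt h

theorem Mon.empty (hm : Mon L C κ) : Sm κ (∅ : Set C) := by
  exact hm.countable _

theorem Mon.union (hm : Mon L C κ) {A B : Set C} (h : Sm κ A) (h' : Sm κ B) :
    Sm κ (A ∪ B : Set C) := by
  exact (Cardinal.mk_union_le A B).trans_lt (Cardinal.add_lt_of_lt hm.unc.le h h')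

theorem sm_vals (hm : Mon L C κ) (h : Sm κ δ) {S : Set (δ → C)} (hS : S.Countable) :
    Sm κ {x | ∃ t ∈ S, x ∈ range t} := by
  have := hS.to_subtype
  refine Sm.subset ((hm.prod (hm.countable S) h).range fun x => x.1.1 x.2) ?_
  rintro x ⟨t, ht, y, rfl⟩
  exact ⟨(⟨t, ht⟩, y), rfl⟩

theorem Mon.rng (hm : Mon L C κ) (h : Sm κ δ) (l : List (δ → C)) : Sm κ (rng l) := by
  exact sm_vals hm h l.finite_toSet.countable

theorem Mon.rows (hm : Mon L C κ) (h : Sm κ β) (c : ℕ → Bool → β → C) (i : ℕ) :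
    Sm κ (rows c i) := by
  refine Sm.subset ((hm.cprod (ℕ × Bool) h).range fun x => c x.1.1 x.1.2 x.2) ?_
  rintro x ⟨j, -, b, y, rfl⟩
  exact ⟨((j, b), y), rfl⟩

/-- the values of countably many small tuples -/
theorem Mon.vals (hm : Mon L C κ) (h : Sm κ δ) {S : Set (δ → C)} (hS : S.Countable) :
    Sm κ {x | ∃ t ∈ S, x ∈ range t} := by
  exact sm_vals hm h hS

theorem exU {ι Y : Type*} (X : ι → Set Y) (h : ∀ s : Finset ι, ∃ y, ∀ i ∈ s, y ∈ X i) :
    ∃ 𝒬 : Ultrafilter Y, ∀ i, X i ∈ 𝒬 := by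
  obtain ⟨𝒬, h𝒬⟩ := Ultrafilter.exists_ultrafilter_of_finite_inter_nonempty (range X) (by
    intro T hT
    choose g hg using fun t : T => hT t.2
    classical
    obtain ⟨y, hy⟩ := h (Finset.univ.image g)
    refine ⟨y, fun t ht => ?_⟩
    have := hy (g ⟨t, ht⟩) (Finset.mem_image_of_mem _ (Finset.mem_univ _))
    rwa [hg] at this)
  exact ⟨𝒬, fun i => h𝒬 ⟨i, rfl⟩⟩

theorem mem_ubind {X Y : Type*} {𝒳 : Ultrafilter X} {m : X → Ultrafilter Y} {s : Set Y} :
    s ∈ 𝒳.bind m ↔ ∀ᶠ x in (𝒳 : Filter X), s ∈ m x := by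
  exact Filter.mem_bind'

theorem ev_ubind {X Y : Type*} {𝒳 : Ultrafilter X} {m : X → Ultrafilter Y} {p : Y → Prop} :
    (∀ᶠ y in (𝒳.bind m : Filter Y), p y) ↔
      ∀ᶠ x in (𝒳 : Filter X), ∀ᶠ y in (m x : Filter Y), p y := by
  exact mem_ubind

/-- a nonprincipal ultrafilter on the natural numbers -/
noncomputable abbrev UU : Ultrafilter ℕ := Filter.hyperfilter ℕ

theorem UU_gt (k : ℕ) : ∀ᶠ j in (UU : Filter ℕ), k < j := by
  exact Nat.hyperfilter_le_atTop (eventually_gt_atTop k)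

/-- a large set contains decreasing lists of every length -/
theorem UU_list {p : ℕ → Prop} (h : ∀ᶠ j in (UU : Filter ℕ), p j) (k : ℕ) :
    ∃ s : List ℕ, s.length = k ∧ s.Pairwise (· > ·) ∧ ∀ j ∈ s, p j := by
  induction k with
  | zero => exact ⟨[], rfl, List.Pairwise.nil, fun _ hj => absurd hj List.not_mem_nil⟩
  | succ k ih =>
    obtain ⟨s, h1, h2, h3⟩ := ih
    obtain ⟨j, hj, hj'⟩ := (h.and (UU_gt s.sum)).exists
    refine ⟨j :: s, by rw [List.length_cons, h1], List.Pairwise.cons (fun a ha => ?_) h2, ?_⟩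
    · exact (List.le_sum_of_mem ha).trans_lt hj'
    · intro a ha
      rcases List.mem_cons.1 ha with rfl | ha
      · exact hj
      · exact h3 a ha

end Pool.Agent.Lib.MP_e4697a_lc.N1
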