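import Pool.Agent.Lib.MP_e4697a_lc.N1.Df
import Pool.Agent.Lib.MP_e4697a_lc.N1.Sm

/-!
Homogeneity with parameters, existence of limits, compactness.
-/

set_option autoImplicit false

namespace Pool.Agent.Lib.MP_e4697a_lc.N1

open FirstOrder Set Filter

variable {L : FirstOrder.Language.{0, 0}} {C : Type 1} [L.Structure C] {κ : Cardinal.{1}}
  {α β γ γ0 δ ε ζ I : Type 1}

theorem Eqv.aut (hm : Mon L C κ) {B : Set C} (hB : Sm κ B) (hβ : Sm κ β) {a a' : β → C}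
    (h : Eqv L B a a') : ∃ σ : Aut L C, Fix σ B ∧ σ ∘ a = a' := by
  obtain ⟨σ, hσ⟩ := hm.hom (B ⊕ β) (hm.sum hB hβ) (Sum.elim Subtype.val a)
    (Sum.elim Subtype.val a') fun φ =>
      h {v | φ.Realize (Sum.elim Subtype.val v)} (definable_iff_exists_formula_sum.2 ⟨φ, rfl⟩)
  exact ⟨σ, fun b hb => congrFun hσ (Sum.inl ⟨b, hb⟩), funext fun i => congrFun hσ (Sum.inr i)⟩

/-- saturation for definable sets in one variable -/
theorem sat_one (hm : Mon L C κ) {A : Set C} (hA : Sm κ A) {ι : Type*}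
    (E : ι → Set (PUnit.{2} → C)) (hE : ∀ i, Df L A (E i))
    (h : ∀ s : Finset ι, ∃ y : C, ∀ i ∈ s, (fun _ => y) ∈ E i) :
    ∃ y : C, ∀ i, (fun _ => y) ∈ E i := by
  classical
  choose φ hφ using fun i => definable_iff_exists_formula_sum.1 (hE i)
  let ψ : ι → L.Formula (Option A) := fun i => (φ i).relabel (Sum.elim some fun _ => none)
  have key : ∀ i (c : C), ((ψ i).Realize fun o => o.elim c Subtype.val) ↔ (fun _ => c) ∈ E i := by
    intro i c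
    rw [hφ i, Language.Formula.realize_relabel, mem_ofPred_eq]
    refine iff_of_eq (congrArg _ (funext fun x => ?_))
    cases x <;> rfl
  obtain ⟨c, hc⟩ := hm.sat A hA (range ψ) fun s hs => by
    choose r hr using fun x : s => hs x.2
    obtain ⟨y, hy⟩ := h (Finset.univ.image r)
    refine ⟨y, fun θ hθ => ?_⟩
    have := (key _ y).2 (hy (r ⟨θ, hθ⟩) (Finset.mem_image_of_mem _ (Finset.mem_univ _)))
    rwa [hr] at this
  exact ⟨c, fun i => (key i c).1 (hc _ ⟨i, rfl⟩)⟩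

variable (L) in
/-- every finite part of `G` is matched in every definable member of `𝒬` -/
def SatGood (𝒬 : Ultrafilter (β → C)) (B : Set C) (G : Set (β × C)) : Prop :=
  ∀ F ⊆ G, F.Finite → ∀ D : Set (β → C), Df L B D → D ∈ 𝒬 → ∃ v ∈ D, ∀ p ∈ F, v p.1 = p.2

theorem SatGood.small {𝒬 : Ultrafilter (β → C)} {B : Set C} {G : Set (β × C)}
    (hG : SatGood L 𝒬 B G) (hβ : Sm κ β) : Sm κ G := by
  refine hβ.of_inj (f := fun p : G => p.1.1) fun p q e => ?_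
  obtain ⟨v, -, hv⟩ := hG {p.1, q.1} (insert_subset p.2 (singleton_subset_iff.2 q.2))
    (toFinite _) univ definable_univ univ_mem
  refine Subtype.ext (Prod.ext e ?_)
  rw [← hv p.1 (mem_insert _ _), ← hv q.1 (mem_insert_of_mem _ rfl)]
  exact congrArg v e

theorem SatGood.step (hm : Mon L C κ) {B : Set C} (hB : Sm κ B) (hβ : Sm κ β)
    {𝒬 : Ultrafilter (β → C)} {G : Set (β × C)} (hG : SatGood L 𝒬 B G) (i : β) :
    ∃ y, SatGood L 𝒬 B (insert (i, y) G) := by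
  classical
  have := hm.ne
  have hA : Sm κ (B ∪ Prod.snd '' G : Set C) := hm.union hB ((hG.small hβ).image _)
  let ι := {D : Set (β → C) // Df L B D ∧ D ∈ 𝒬} × {F : Finset (β × C) // (F : Set (β × C)) ⊆ G}
  let W : ι → Set (β ⊕ PUnit.{2} → C) := fun x =>
    {w | w ∘ Sum.inl ∈ x.1.1} ∩ ({w | w (Sum.inl i) = w (Sum.inr PUnit.unit)} ∩
      {w | ∀ p ∈ x.2.1, w ∈ {w : β ⊕ PUnit.{2} → C | w (Sum.inl p.1) = p.2}})
  have hW : ∀ x, Df L (B ∪ Prod.snd '' G) (W x) := fun x =>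
    ((x.1.2.1.comp Sum.inl).mono subset_union_left).inter ((Df.eq _ _ _).inter
      (Df.finsetInter _ _ fun p hp => Df.eqc _ (Or.inr ⟨p, x.2.2 hp, rfl⟩)))
  obtain ⟨y, hy⟩ := sat_one hm hA (fun x : ι => {u | ∃ v : β → C, Sum.elim v u ∈ W x})
    (fun x => (hW x).ex) fun s => by
      obtain ⟨v, hv1, hv2⟩ := hG (s.biUnion (fun x => x.2.1) : Finset (β × C))
        (fun p hp => by
          obtain ⟨x, -, hx⟩ := Finset.mem_biUnion.1 hp
          exact x.2.2 hx)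
        (Finset.finite_toSet _) {v | ∀ x ∈ s, v ∈ x.1.1}
        (Df.finsetInter _ _ fun x _ => x.1.2.1)
        ((eventually_all_finset s).2 fun x _ => x.1.2.2)
      exact ⟨v i, fun x hx => ⟨v, hv1 x hx, rfl, fun p hp =>
        hv2 p (Finset.mem_coe.2 (Finset.mem_biUnion.2 ⟨x, hx, hp⟩))⟩⟩
  refine ⟨y, fun F hF hfin D hD hQ => ?_⟩
  obtain ⟨v, h1, h2, h3⟩ := hy (⟨D, hD, hQ⟩, ⟨(hfin.inter_of_left G).toFinset, fun p hp =>
    ((Finite.mem_toFinset _).1 hp).2⟩)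
  refine ⟨v, h1, fun p hp => ?_⟩
  rcases hF hp with rfl | hpG
  · exact h2
  · exact h3 p ((Finite.mem_toFinset _).2 ⟨hp, hpG⟩)

theorem limEx (hm : Mon L C κ) {B : Set C} (hB : Sm κ B) (hβ : Sm κ β)
    (𝒬 : Ultrafilter (β → C)) : ∃ t, Lim L 𝒬 B t := by
  classical
  have hfc : Order.IsOfFiniteCharacter {G : Set (β × C) | SatGood L 𝒬 B G} := fun G =>
    ⟨fun h F hF _ F' hF' => h F' (hF'.trans hF), fun h F hF hfin => h F hF hfin F subset_rfl hfin⟩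
  have h0 : (∅ : Set (β × C)) ∈ {G : Set (β × C) | SatGood L 𝒬 B G} := fun F hF _ D _ hQ => by
    obtain ⟨v, hv⟩ := Ultrafilter.nonempty_of_mem hQ
    exact ⟨v, hv, fun p hp => (hF hp).elim⟩
  obtain ⟨G, -, hG⟩ := hfc.exists_maximal h0
  have hall : ∀ i, ∃ y, (i, y) ∈ G := fun i => by
    obtain ⟨y, hy⟩ := SatGood.step hm hB hβ hG.1 i
    exact ⟨y, hG.2 hy (subset_insert _ _) (mem_insert _ _)⟩
  choose t ht using hall
  have key : ∀ D : Set (β → C), Df L B D → D ∈ 𝒬 → t ∈ D := fun D hD hQ => by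
    obtain ⟨s, hs⟩ := hD.supp
    obtain ⟨v, hv1, hv2⟩ := hG.1 ((fun i => (i, t i)) '' s)
      (by rintro _ ⟨i, -, rfl⟩; exact ht i) (s.finite_toSet.image _) D hD hQ
    exact (hs v t fun i hi => hv2 (i, t i) ⟨i, hi, rfl⟩).1 hv1
  refine ⟨t, fun D hD => ⟨fun h => ?_, key D hD⟩⟩
  by_contra hn
  exact key Dᶜ hD.compl (Ultrafilter.compl_mem_iff_notMem.2 hn) h

theorem sat (hm : Mon L C κ) {B : Set C} (hB : Sm κ B) (hβ : Sm κ β) {ι : Type*}
    (D : ι → Set (β → C)) (hD : ∀ i, Df L B (D i))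
    (h : ∀ s : Finset ι, ∃ v, ∀ i ∈ s, v ∈ D i) : ∃ v, ∀ i, v ∈ D i := by
  obtain ⟨𝒬, hQ⟩ := exU D h
  obtain ⟨t, ht⟩ := limEx hm hB hβ 𝒬
  exact ⟨t, fun i => (ht _ (hD i)).2 (hQ i)⟩

/-- a limit extends to more coordinates -/
theorem limExt (hm : Mon L C κ) {B : Set C} (hB : Sm κ B) (hβ : Sm κ β) (hγ : Sm κ γ)
    {X : Type*} {𝒳 : Ultrafilter X} {f : X → β → C} {t : β → C} (h : Lim L (𝒳.map f) B t)
    (g : X → γ → C) : ∃ w, Lim L (𝒳.map fun x => Sum.elim (f x) (g x)) B (Sum.elim t w) := by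
  obtain ⟨r, hr⟩ := limEx hm hB (hm.sum hβ hγ) (𝒳.map fun x => Sum.elim (f x) (g x))
  have h1 : Lim L (𝒳.map f) B (r ∘ Sum.inl) := hr.comp Sum.inl
  obtain ⟨σ, hσ, e⟩ := (h1.eqv h).aut hm hB hβ
  refine ⟨σ ∘ r ∘ Sum.inr, ?_⟩
  have e2 : Sum.elim t (σ ∘ r ∘ Sum.inr) = σ ∘ r := by
    funext x
    cases x with
    | inl i => exact (congrFun e i).symm
    | inr i => rfl
  rw [e2]
  exact hr.of_eqv (Eqv.of_fix hσ r)

end Pool.Agent.Lib.MP_e4697a_lc.N1
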