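import Pool.Agent.Lib.MP_e4697a_lc.N1.TL1

/-!
The tree lemma.
-/

set_option autoImplicit false

namespace Pool.Agent.Lib.MP_e4697a_lc.N1

open FirstOrder Set Filter

variable {L : FirstOrder.Language.{0, 0}} {C : Type 1} [L.Structure C] {κ : Cardinal.{1}}
  {α β γ γ0 δ ε ζ I : Type 1}

theorem treeLemma (hm : Mon L C κ) (hN : ¬ HasSOP1 L C) {M : Set C} (hM : Sm κ M)
    (hb : Base L M) (hβ : Sm κ β) (hγ : Sm κ γ) {n0 : γ → C} {l0 : β → C} (h : KInd L M n0 l0)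
    {ρ : γ0 → γ} (hρ : Function.Injective ρ) {ℛ : Ultrafilter (γ0 → C)} (hS : Sup ℛ M)
    (hL : Lim L ℛ M (n0 ∘ ρ)) {D : Set (γ ⊕ β → C)} (hD : Df L M D) (h0 : Sum.elim n0 l0 ∈ D)
    (k : ℕ) : ∃ l : List (γ → C), l.length = k ∧ HG L ℛ M n0 ρ l ∧
      ∃ x : β → C, ∀ t ∈ l, Sum.elim t x ∈ D := by
  by_contra hc
  have hk : ∀ l : List (γ → C), l.length = k → HG L ℛ M n0 ρ l →
      ¬ ∃ x : β → C, ∀ t ∈ l, Sum.elim t x ∈ D := fun l h1 h2 h3 => hc ⟨l, h1, h2, h3⟩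
  have hs : ∀ s : ℕ, ∃ (Λ : Type 1) (w : Λ → C) (𝒲 : Ultrafilter ((ℕ × Bool × γ) ⊕ β → Λ))
      (𝒜 : Set ((ℕ × Bool × γ) ⊕ β → Λ)), Sm κ Λ ∧ Stage L M n0 l0 ρ ℛ s w 𝒲 𝒜 := by
    intro s
    induction s with
    | zero => exact stage_zero hm hβ hγ h ρ ℛ
    | succ s ih =>
      obtain ⟨Λ, w, 𝒲, 𝒜, hΛ, hst⟩ := ih
      obtain ⟨w', 𝒲', 𝒜', h'⟩ := hst.succ hm hN hM hb hγ hρ hS hL hΛ
      exact ⟨_, w', 𝒲', 𝒜', hm.cprod ℕ (hm.sum hγ hΛ), h'⟩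
  refine hN (arr_sop1 hm hγ hM (D := {v | v ∘ Sum.swap ∈ D}) (hD.preimage_comp _) k fun n => ?_)
  obtain ⟨Λ, w, 𝒲, 𝒜, -, hst⟩ := hs n
  exact hst.arr hm hM hβ hγ hD h0 k hk

end Pool.Agent.Lib.MP_e4697a_lc.N1
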