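import Pool.Agent.Lib.MP_e4697a_lc.N1.KL

/-!
Stages of the tree construction.
-/

set_option autoImplicit false

namespace Pool.Agent.Lib.MP_e4697a_lc.N1

open FirstOrder Set Filter

variable {L : FirstOrder.Language.{0, 0}} {C : Type 1} [L.Structure C] {κ : Cardinal.{1}}
  {α β γ γ0 δ ε ζ I : Type 1}

/-- row `i`, column `b` of an address -/
def row {Λ : Type 1} (a : (ℕ × Bool × γ) ⊕ β → Λ) (i : ℕ) (b : Bool) : γ → Λ :=
  fun g => a (.inl (i, b, g))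

/-- the rows before `i` and the entry `(i, b)` -/
def trunc {Λ : Type 1} (i : ℕ) (b : Bool) (a : (ℕ × Bool × γ) ⊕ β → Λ) : ℕ × Bool × γ → Λ :=
  fun x => if x.1 < i then a (.inl x) else a (.inl (i, b, x.2.2))

variable (L) in
/-- stage `s` of the tree construction -/
structure Stage (M : Set C) (n0 : γ → C) (l0 : β → C) (ρ : γ0 → γ) (ℛ : Ultrafilter (γ0 → C))
    (s : ℕ) {Λ : Type 1} (w : Λ → C) (𝒲 : Ultrafilter ((ℕ × Bool × γ) ⊕ β → Λ))
    (𝒜 : Set ((ℕ × Bool × γ) ⊕ β → Λ)) : Prop where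
  mem : 𝒜 ∈ 𝒲
  s1 : ∀ D : Set (γ ⊕ β → C), Df L M D → Sum.elim n0 l0 ∈ D →
    ∀ as : List ((ℕ × Bool × γ) ⊕ β → Λ), (∀ a ∈ as, a ∈ 𝒜) →
      NKD L M {v | ∀ a ∈ as, v ∘ Sum.map id (a ∘ Sum.inr) ∈ D} w
  s2 : ∀ a ∈ 𝒜, ∀ i < s,
    Eqv L M (Sum.elim (w ∘ row a i false) (w ∘ a ∘ Sum.inr)) (Sum.elim n0 l0)
  s3 : ∀ a ∈ 𝒜, ∀ i < s, Eqv L M (w ∘ row a i true) n0 ∧
    Lim L ℛ (M ∪ {x | ∃ j, i < j ∧ x ∈ range (w ∘ row a j true)}) (w ∘ row a i true ∘ ρ)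
  s4 : ∀ i < s, 𝒲.map (trunc i false) = 𝒲.map (trunc i true)

theorem stage_zero (hm : Mon L C κ) {M : Set C} (hβ : Sm κ β) {n0 : γ → C} {l0 : β → C}
    (hγ : Sm κ γ) (h : KInd L M n0 l0) (ρ : γ0 → γ) (ℛ : Ultrafilter (γ0 → C)) :
    ∃ (Λ : Type 1) (w : Λ → C) (𝒲 : Ultrafilter ((ℕ × Bool × γ) ⊕ β → Λ))
      (𝒜 : Set ((ℕ × Bool × γ) ⊕ β → Λ)), Sm κ Λ ∧ Stage L M n0 l0 ρ ℛ 0 w 𝒲 𝒜 := by
  refine ⟨γ ⊕ β, Sum.elim n0 l0, pure (Sum.map (fun x => x.2.2) id),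
    {Sum.map (fun x => x.2.2) id}, hm.sum hγ hβ, ?_, ?_, ?_, ?_, ?_⟩
  · exact Ultrafilter.mem_pure.2 rfl
  · intro D hD h0 as has
    have h1 : NKD L M D (Sum.elim n0 l0 ∘ (Sum.inr : β → γ ⊕ β)) := h D hD h0
    refine h1.up.mono fun v hv a ha => ?_
    rw [has a ha]
    exact hv
  · exact fun _ _ i hi => absurd hi (Nat.not_lt_zero i)
  · exact fun _ _ i hi => absurd hi (Nat.not_lt_zero i)
  · exact fun i hi => absurd hi (Nat.not_lt_zero i)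

/-- a root above all leaves -/
theorem Stage.root (hm : Mon L C κ) {M : Set C} (hM : Sm κ M) (hb : Base L M) (hγ : Sm κ γ)
    {n0 : γ → C} {l0 : β → C} {ρ : γ0 → γ} {ℛ : Ultrafilter (γ0 → C)} {s : ℕ} {Λ : Type 1}
    (hΛ : Sm κ Λ) {w : Λ → C} {𝒲 : Ultrafilter ((ℕ × Bool × γ) ⊕ β → Λ)}
    {𝒜 : Set ((ℕ × Bool × γ) ⊕ β → Λ)} (h : Stage L M n0 l0 ρ ℛ s w 𝒲 𝒜) :
    ∃ r : γ → C, ∀ a ∈ 𝒜, Eqv L M (Sum.elim r (w ∘ a ∘ Sum.inr)) (Sum.elim n0 l0) := by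
  obtain ⟨r, hr⟩ := sat hm (hm.union hM (hΛ.range w)) hγ
    (ι := {D : Set (γ ⊕ β → C) // Df L M D ∧ Sum.elim n0 l0 ∈ D} × 𝒜)
    (fun p => {r | Sum.elim r (w ∘ p.2.1 ∘ Sum.inr) ∈ p.1.1})
    (fun p => p.1.2.1.plug subset_union_left fun i => Or.inr ⟨_, rfl⟩) (by
      intro t
      have hD : Df L M {v | ∀ p ∈ t, v ∈ p.1.1} :=
        Df.finsetInter t (fun p => p.1.1) fun p _ => p.1.2.1
      have h1 := h.s1 _ hD (fun p _ => p.1.2.2) (t.toList.map fun p => p.2.1) (by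
        intro a ha
        obtain ⟨p, -, rfl⟩ := List.mem_map.1 ha
        exact p.2.2)
      obtain ⟨r, hr⟩ := h1.ex hm hM hb hΛ
        (Df.listInter _ (fun a => {v : γ ⊕ Λ → C | v ∘ Sum.map id (a ∘ Sum.inr) ∈
          {v | ∀ p ∈ t, v ∈ p.1.1}}) fun a _ => hD.comp _)
      refine ⟨r, fun p hp => ?_⟩
      have h2 := hr p.2.1 (List.mem_map.2 ⟨p, Finset.mem_toList.2 hp, rfl⟩) p hp
      have e : Sum.elim r w ∘ Sum.map id (p.2.1 ∘ Sum.inr) =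
          Sum.elim r (w ∘ p.2.1 ∘ Sum.inr) := by
        funext x; cases x <;> rfl
      rw [e] at h2
      exact h2)
  refine ⟨r, fun a ha D hD => ⟨fun h1 => ?_, fun h1 => hr (⟨D, hD, h1⟩, ⟨a, ha⟩)⟩⟩
  by_contra h2
  exact hr (⟨Dᶜ, hD.compl, h2⟩, ⟨a, ha⟩) h1

/-- the limit of a stage is an array -/
theorem Stage.arr (hm : Mon L C κ) {M : Set C} (hM : Sm κ M) (hβ : Sm κ β) (hγ : Sm κ γ)
    {n0 : γ → C} {l0 : β → C} {ρ : γ0 → γ} {ℛ : Ultrafilter (γ0 → C)} {s : ℕ} {Λ : Type 1}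
    {w : Λ → C} {𝒲 : Ultrafilter ((ℕ × Bool × γ) ⊕ β → Λ)}
    {𝒜 : Set ((ℕ × Bool × γ) ⊕ β → Λ)} (h : Stage L M n0 l0 ρ ℛ s w 𝒲 𝒜)
    {D : Set (γ ⊕ β → C)} (hD : Df L M D) (h0 : Sum.elim n0 l0 ∈ D) (k : ℕ)
    (hk : ∀ l : List (γ → C), l.length = k → HG L ℛ M n0 ρ l →
      ¬ ∃ x : β → C, ∀ t ∈ l, Sum.elim t x ∈ D) :
    ∃ c : ℕ → Bool → γ → C, Arr L M {v | v ∘ Sum.swap ∈ D} k s c := by
  have := hm.ne
  obtain ⟨c, hc⟩ := limEx hm hM (hm.sum (hm.cprod ℕ (hm.cprod Bool hγ)) hβ)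
    (𝒲.map fun a => w ∘ a)
  refine ⟨row c, fun i hi => ?_, ⟨c ∘ Sum.inr, fun i hi => ?_⟩, ?_⟩
  · have hl : ∀ b : Bool, Lim L ((𝒲.map (trunc i b)).map fun a => w ∘ a) M (trunc i b c) := by
      intro b
      have h1 := hc.comp (trunc i b (id : (ℕ × Bool × γ) ⊕ β → (ℕ × Bool × γ) ⊕ β))
      have e1 : c ∘ trunc i b id = trunc i b c := by
        funext x
        simp only [Function.comp, trunc]
        split_ifs <;> rfl
      have e2 : ((fun v => v ∘ trunc i b id) ∘ fun a : (ℕ × Bool × γ) ⊕ β → Λ => w ∘ a) =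
          (fun a => w ∘ a) ∘ trunc i b := by
        funext a x
        simp only [Function.comp, trunc]
        split_ifs <;> rfl
      rw [e1, Ultrafilter.map_map, e2, ← Ultrafilter.map_map] at h1
      exact h1
    have h1 := hl false
    rw [h.s4 i hi] at h1
    have h2 := (h1.eqv (hl true)).comp
      (Sum.elim (fun g => (i, false, g)) Subtype.val :
        γ ⊕ {x : ℕ × Bool × γ // x.1 < i} → ℕ × Bool × γ)
    have e : ∀ b : Bool, trunc i b c ∘ (Sum.elim (fun g => (i, false, g)) Subtype.val :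
        γ ⊕ {x : ℕ × Bool × γ // x.1 < i} → ℕ × Bool × γ) =
        Sum.elim (row c i b) fun x : {x : ℕ × Bool × γ // x.1 < i} => c (.inl x.1) := by
      intro b
      funext x
      rcases x with g | x
      · simp [trunc, row]
      · simp [trunc, x.2]
    rw [e, e, ← eqv_elim_iff] at h2
    refine h2.mono (union_subset_union_right _ ?_)
    rintro _ ⟨j, hj, b, g, rfl⟩
    exact ⟨⟨(j, b, g), hj⟩, rfl⟩
  · have h1 := (hc _ (hD.comp (Sum.map (fun g => (i, false, g)) id :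
      γ ⊕ β → (ℕ × Bool × γ) ⊕ β))).2 (by
        rw [Ultrafilter.mem_map]
        refine Filter.mem_of_superset h.mem fun a ha => ?_
        have h2 := (h.s2 a ha i hi D hD).2 h0
        have e : (w ∘ a) ∘ (Sum.map (fun g => (i, false, g)) id :
            γ ⊕ β → (ℕ × Bool × γ) ⊕ β) =
            Sum.elim (w ∘ row a i false) (w ∘ a ∘ Sum.inr) := by
          funext x; cases x <;> rfl
        show (w ∘ a) ∘ _ ∈ D
        rw [e]; exact h2)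
    have e : Sum.elim (c ∘ Sum.inr) (row c i false) ∘ Sum.swap =
        c ∘ (Sum.map (fun g => (i, false, g)) id : γ ⊕ β → (ℕ × Bool × γ) ⊕ β) := by
      funext x; cases x <;> rfl
    show _ ∘ Sum.swap ∈ D
    rw [e]; exact h1
  · rintro t ht hts hlen ⟨x, hx⟩
    have hE : Df L M {v : (ℕ × Bool × γ) ⊕ β → C | ∃ x : β → C, Sum.elim x v ∈
        {u : β ⊕ ((ℕ × Bool × γ) ⊕ β) → C | ∀ i ∈ t, u ∈ {u : β ⊕ ((ℕ × Bool × γ) ⊕ β) → C |
          u ∘ Sum.elim (fun g => Sum.inr (Sum.inl (i, true, g))) Sum.inl ∈ D}}} :=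
      Df.ex (Df.listInter t _ fun i _ => hD.comp _)
    have e : ∀ (i : ℕ) (x : β → C) (v : (ℕ × Bool × γ) ⊕ β → C),
        Sum.elim x v ∘ Sum.elim (fun g => Sum.inr (Sum.inl (i, true, g))) Sum.inl =
          Sum.elim (row v i true) x := by
      intro i x v
      funext y; cases y <;> rfl
    have h1 := (hc _ hE).1 ⟨x, fun i hi => by
      have h2 : Sum.elim x (row c i true) ∘ Sum.swap ∈ D := hx i hi
      have e' : Sum.elim x (row c i true) ∘ Sum.swap = Sum.elim (row c i true) x := by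
        funext y; cases y <;> rfl
      show _ ∘ _ ∈ D
      rw [e, ← e']; exact h2⟩
    rw [Ultrafilter.mem_map] at h1
    obtain ⟨a, ⟨y, hy⟩, ha⟩ := Ultrafilter.nonempty_of_mem (Filter.inter_mem h1 h.mem)
    have hg : ∀ t : List ℕ, t.Pairwise (· < ·) → (∀ i ∈ t, i < s) →
        HG L ℛ M n0 ρ (t.map fun i => w ∘ row a i true) := by
      intro t
      induction t with
      | nil => exact fun _ _ => trivial
      | cons i t ih =>
        intro h2 h3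
        rw [List.pairwise_cons] at h2
        obtain ⟨h4, h5⟩ := h.s3 a ha i (h3 i List.mem_cons_self)
        refine ⟨h4, h5.mono (union_subset_union_right _ ?_),
          ih h2.2 fun j hj => h3 j (List.mem_cons_of_mem _ hj)⟩
        rintro z ⟨u, hu, hz⟩
        obtain ⟨j, hj, rfl⟩ := List.mem_map.1 hu
        exact ⟨j, h2.1 j hj, hz⟩
    refine hk _ (by rw [List.length_map, hlen]) (hg t ht hts) ⟨y, fun u hu => ?_⟩
    obtain ⟨i, hi, rfl⟩ := List.mem_map.1 hu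
    have h2 : Sum.elim y (w ∘ a) ∘ _ ∈ D := hy i hi
    rw [e] at h2
    exact h2

end Pool.Agent.Lib.MP_e4697a_lc.N1
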