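import Pool.Agent.Lib.MP_e4697a_lc.N1.TL0

/-!
The successor stage.
-/

set_option autoImplicit false

namespace Pool.Agent.Lib.MP_e4697a_lc.N1

open FirstOrder Set Filter

variable {L : FirstOrder.Language.{0, 0}} {C : Type 1} [L.Structure C] {κ : Cardinal.{1}}
  {α β γ γ0 δ ε ζ I : Type 1}

/-- new address: path through copy `j`, sibling root in copy `j'` -/
def consA {Λ : Type 1} (j j' : ℕ) (a : (ℕ × Bool × γ) ⊕ β → Λ) :
    (ℕ × Bool × γ) ⊕ β → ℕ × (γ ⊕ Λ)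
  | .inl (0, false, g) => (j, .inl g)
  | .inl (0, true, g) => (j', .inl g)
  | .inl (i + 1, b, g) => (j, .inr (a (.inl (i, b, g))))
  | .inr x => (j, .inr (a (.inr x)))

/-- the truncation of a new address -/
def consT {Λ : Type 1} (j j' : ℕ) (y : ℕ × Bool × γ → Λ) : ℕ × Bool × γ → ℕ × (γ ⊕ Λ)
  | (0, false, g) => (j, .inl g)
  | (0, true, g) => (j', .inl g)
  | (i + 1, b, g) => (j, .inr (y (i, b, g)))

theorem trunc_succ {Λ : Type 1} (j j' i : ℕ) (b : Bool) (a : (ℕ × Bool × γ) ⊕ β → Λ) :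
    trunc (i + 1) b (consA j j' a) = consT j j' (trunc i b a) := by
  funext ⟨i', b', g⟩
  cases i' with
  | zero => cases b' <;> simp [trunc, consA, consT]
  | succ i' =>
    by_cases h : i' < i
    · simp [trunc, consA, consT, h]
    · simp [trunc, consA, consT, h]

theorem Stage.succ (hm : Mon L C κ) (hN : ¬ HasSOP1 L C) {M : Set C} (hM : Sm κ M)
    (hb : Base L M) (hγ : Sm κ γ) {n0 : γ → C} {l0 : β → C} {ρ : γ0 → γ}
    (hρ : Function.Injective ρ) {ℛ : Ultrafilter (γ0 → C)} (hS : Sup ℛ M)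
    (hL : Lim L ℛ M (n0 ∘ ρ)) {s : ℕ} {Λ : Type 1} (hΛ : Sm κ Λ) {w : Λ → C}
    {𝒲 : Ultrafilter ((ℕ × Bool × γ) ⊕ β → Λ)} {𝒜 : Set ((ℕ × Bool × γ) ⊕ β → Λ)}
    (h : Stage L M n0 l0 ρ ℛ s w 𝒲 𝒜) :
    ∃ (w' : ℕ × (γ ⊕ Λ) → C) (𝒲' : Ultrafilter ((ℕ × Bool × γ) ⊕ β → ℕ × (γ ⊕ Λ)))
      (𝒜' : Set ((ℕ × Bool × γ) ⊕ β → ℕ × (γ ⊕ Λ))), Stage L M n0 l0 ρ ℛ (s + 1) w' 𝒲' 𝒜' := by
  obtain ⟨r, hr⟩ := h.root hm hM hb hγ hΛ
  obtain ⟨a0, ha0⟩ := Ultrafilter.nonempty_of_mem h.mem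
  have := hm.ne
  have hrn : Eqv L M r n0 := (hr a0 ha0).comp Sum.inl
  have hρ' : Function.Injective ((Sum.inl : γ → γ ⊕ Λ) ∘ ρ) := Sum.inl_injective.comp hρ
  obtain ⟨𝒯, hT1, hT2, hT3⟩ := coheirExt hb hρ' (Sum.elim r w) hS
    (hL.of_eqv (hrn.comp ρ).symm)
  obtain ⟨θ, hθ, hθ'⟩ := morAut hm hM (hm.sum hγ hΛ) hT2
  refine ⟨fun p => θ p.1 (Sum.elim r w p.2),
    UU.bind fun j => UU.bind fun j' => 𝒲.map (consA j j'),
    {a' | ∃ j j' a, j < j' ∧ a ∈ 𝒜 ∧ a' = consA j j' a}, ?_, ?_, ?_, ?_, ?_⟩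
  · rw [mem_ubind]
    refine Eventually.of_forall fun j => ?_
    rw [mem_ubind]
    filter_upwards [UU_gt j] with j' hj
    rw [Ultrafilter.mem_map]
    exact mem_of_superset h.mem fun a ha => ⟨j, j', a, hj, ha, rfl⟩
  · intro D hD h0 as has
    have key : ∃ (N : ℕ) (bs : List ((ℕ × Bool × γ) ⊕ β → Λ)), (∀ a ∈ bs, a ∈ 𝒜) ∧
        ∀ a' ∈ as, ∃ j < N, ∃ a ∈ bs, a' ∘ Sum.inr = fun x => (j, Sum.inr (a (.inr x))) := by
      induction as with
      | nil => exact ⟨0, [], by simp, by simp⟩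
      | cons a' as ih =>
        obtain ⟨N, bs, h1, h2⟩ := ih fun a ha => has a (List.mem_cons_of_mem _ ha)
        obtain ⟨j, j', a, -, ha, rfl⟩ := has a' List.mem_cons_self
        refine ⟨max N (j + 1), a :: bs, ?_, ?_⟩
        · intro b hb
          rcases List.mem_cons.1 hb with rfl | hb
          exacts [ha, h1 b hb]
        · intro b hb
          rcases List.mem_cons.1 hb with rfl | hb
          · exact ⟨j, by omega, a, List.mem_cons_self, rfl⟩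
          · obtain ⟨i, hi, c, hc, e⟩ := h2 b hb
            exact ⟨i, by omega, c, List.mem_cons_of_mem _ hc, e⟩
    obtain ⟨N, bs, hbs, hkey⟩ := key
    have h1 := h.s1 D hD h0 bs hbs
    have h2 : NKD L M {v : γ ⊕ γ ⊕ Λ → C | v ∘ Sum.map id Sum.inr ∈
        {v : γ ⊕ Λ → C | ∀ a ∈ bs, v ∘ Sum.map id (a ∘ Sum.inr) ∈ D}} (Sum.elim r w) :=
      NKD.up (w := Sum.elim r w) (π := Sum.inr) h1
    have hD2 : Df L M {v : γ ⊕ γ ⊕ Λ → C | v ∘ Sum.map id Sum.inr ∈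
        {v : γ ⊕ Λ → C | ∀ a ∈ bs, v ∘ Sum.map id (a ∘ Sum.inr) ∈ D}} :=
      Df.comp (Df.listInter bs (fun a => {v : γ ⊕ Λ → C | v ∘ Sum.map id (a ∘ Sum.inr) ∈ D})
        fun a _ => Df.comp hD _) _
    have hmor := mor_of_seq hθ' (List.range N).reverse
      (List.pairwise_reverse.2 (List.pairwise_lt_range))
    have h3 := chainCond hm hN hM (hm.sum hγ hΛ) hD2 h2 hT1 hT2
      (fun p : ℕ × (γ ⊕ Λ) => θ p.1 (Sum.elim r w p.2))
      ((List.range N).reverse.map fun j y => (j, y)) (by rw [List.map_map]; exact hmor)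
    refine h3.mono fun v hv a' ha' => ?_
    obtain ⟨j, hj, a, ha, e⟩ := hkey a' ha'
    have := hv (fun y => (j, y)) (List.mem_map.2 ⟨j, by simpa using hj, rfl⟩) a ha
    rw [e]
    convert this using 1
    funext x
    cases x <;> rfl
  · rintro _ ⟨j, j', a, -, ha, rfl⟩ i hi
    cases i with
    | zero =>
      refine Eqv.trans ?_ (hr a ha)
      refine Eqv.symm ?_
      convert Eqv.of_fix (hθ j) (Sum.elim r (w ∘ a ∘ Sum.inr)) using 1
      funext x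
      cases x <;> rfl
    | succ i =>
      refine Eqv.trans ?_ (h.s2 a ha i (by omega))
      refine Eqv.symm ?_
      convert Eqv.of_fix (hθ j) (Sum.elim (w ∘ row a i false) (w ∘ a ∘ Sum.inr)) using 1
      funext x
      cases x <;> rfl
  · rintro _ ⟨j, j', a, hj, ha, rfl⟩ i hi
    cases i with
    | zero =>
      refine ⟨(Eqv.of_fix (hθ j') r).symm.trans hrn, ?_⟩
      have := (hθ' j').comp (Sum.inl ∘ ρ)
      rw [hT3] at this
      refine this.mono (union_subset_union_right _ ?_)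
      rintro x ⟨i, hi, g, rfl⟩
      obtain ⟨i, rfl⟩ : ∃ k, i = k + 1 := ⟨i - 1, by omega⟩
      exact ⟨j, hj, .inr (a (.inl (i, true, g))), rfl⟩
    | succ i =>
      obtain ⟨e1, e2⟩ := h.s3 a ha i (by omega)
      refine ⟨(Eqv.of_fix (hθ j) (w ∘ row a i true)).symm.trans e1, ?_⟩
      refine (e2.fix hS (hθ j)).mono ?_
      rintro x (hx | ⟨k, hk, g, rfl⟩)
      · exact ⟨x, Or.inl hx, hθ j x hx⟩
      · obtain ⟨k, rfl⟩ : ∃ k', k = k' + 1 := ⟨k - 1, by omega⟩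
        exact ⟨w (a (.inl (k, true, g))), Or.inr ⟨k, by omega, g, rfl⟩, rfl⟩
  · intro i hi
    ext X
    simp only [Ultrafilter.mem_map, mem_ubind]
    cases i with
    | zero =>
      have e1 : ∀ j j' : ℕ, (consA j j' ⁻¹' (trunc 0 false ⁻¹' X) ∈ 𝒲) ↔
          (fun x : ℕ × Bool × γ => (j, (Sum.inl x.2.2 : γ ⊕ Λ))) ∈ X := fun j j' =>
        eventually_const (f := (𝒲 : Filter ((ℕ × Bool × γ) ⊕ β → Λ)))
          (p := (fun x : ℕ × Bool × γ => (j, (Sum.inl x.2.2 : γ ⊕ Λ))) ∈ X)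
      have e2 : ∀ j j' : ℕ, (consA j j' ⁻¹' (trunc 0 true ⁻¹' X) ∈ 𝒲) ↔
          (fun x : ℕ × Bool × γ => (j', (Sum.inl x.2.2 : γ ⊕ Λ))) ∈ X := fun j j' =>
        eventually_const (f := (𝒲 : Filter ((ℕ × Bool × γ) ⊕ β → Λ)))
          (p := (fun x : ℕ × Bool × γ => (j', (Sum.inl x.2.2 : γ ⊕ Λ))) ∈ X)
      simp only [e1, e2, eventually_const]
    | succ i =>
      have e : ∀ (j j' : ℕ) (b : Bool), (consA j j' ⁻¹' (trunc (i + 1) b ⁻¹' X) ∈ 𝒲) ↔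
          consT j j' ⁻¹' X ∈ 𝒲.map (trunc i b) := fun j j' b => by
        rw [Ultrafilter.mem_map]
        refine iff_of_eq (congrArg (· ∈ 𝒲) ?_)
        ext a
        simp only [mem_preimage, trunc_succ]
      simp only [e, h.s4 i (by omega)]

end Pool.Agent.Lib.MP_e4697a_lc.N1
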