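import Pool.Agent.Lib.MP_e4697a_lc.N1.Df
import Pool.Agent.Lib.MP_e4697a_lc.N1.Sm

/-!
Witness systems.
-/

set_option autoImplicit false

namespace Pool.Agent.Lib.MP_e4697a_lc.N1

open FirstOrder Set Filter

variable {L : FirstOrder.Language.{0, 0}} {C : Type 1} [L.Structure C] {κ : Cardinal.{1}}
  {α β γ γ0 δ ε ζ I : Type 1}

/-- labels of witness terms -/
def TmLab (L : FirstOrder.Language.{0, 0}) : Type := Σ p : ℕ × ℕ, L.Formula (Option (Fin p.2))

/-- witness terms from labelled trees -/
def tmOfW : (WType fun a : TmLab L => Fin a.1.2) → Tm L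
  | ⟨a, f⟩ => .sk a.1.1 a.1.2 a.2 fun j => tmOfW (f j)

theorem tmOfW_surj : Function.Surjective (tmOfW (L := L)) := by
  intro t
  induction t with
  | sk i n φ args ih =>
    choose f hf using ih
    refine ⟨⟨⟨(i, n), φ⟩, f⟩, ?_⟩
    simp only [tmOfW, hf]

theorem Mon.tm (hm : Mon L C κ) : Sm κ (Tm L) := by
  have hA : ∀ n : ℕ, Cardinal.mk (L.Formula (Option (Fin n))) ≤ max Cardinal.aleph0 L.card := by
    intro n
    have h1 : Cardinal.mk (L.Formula (Option (Fin n))) ≤
        Cardinal.mk (Σ k, L.BoundedFormula (Option (Fin n)) k) :=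
      Cardinal.mk_le_of_injective
        (sigma_mk_injective (β := fun k => L.BoundedFormula (Option (Fin n)) k) (i := 0))
    refine h1.trans (FirstOrder.Language.BoundedFormula.card_le.trans (max_le (le_max_left _ _) ?_))
    simp only [Cardinal.lift_id]
    exact Cardinal.add_le_of_le (le_max_left _ _)
      (Cardinal.mk_le_aleph0.trans (le_max_left _ _)) (le_max_right _ _)
  have hB : Cardinal.mk (TmLab L) ≤ max Cardinal.aleph0 L.card := by
    unfold TmLab
    rw [Cardinal.mk_sigma]
    refine (Cardinal.sum_le_sum _ (fun _ => max Cardinal.aleph0 L.card) fun p : ℕ × ℕ => hA p.2).trans ?_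
    rw [Cardinal.sum_const']
    exact Cardinal.mul_le_of_le (le_max_left _ _) (Cardinal.mk_le_aleph0.trans (le_max_left _ _))
      le_rfl
  have hW : Cardinal.mk (WType fun a : TmLab L => Fin a.1.2) ≤ max Cardinal.aleph0 L.card :=
    WType.cardinalMk_le_max_aleph0_of_finite.trans (max_le hB (le_max_left _ _))
  have h1 := Cardinal.lift_mk_le_lift_mk_of_surjective (tmOfW_surj (L := L))
  have h2 := Cardinal.lift_le.{1}.2 hW
  rw [Cardinal.lift_max, Cardinal.lift_aleph0] at h2
  rw [Cardinal.lift_uzero] at h1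
  exact (h1.trans h2).trans_lt (max_lt hm.unc hm.lang)

theorem Tm.act_act (g h : ℕ → ℕ) (t : Tm L) : (t.act g).act h = t.act (h ∘ g) := by
  induction t with
  | sk i n φ args ih => simp only [Tm.act, ih, Function.comp]

theorem Tm.All.mono {p q : ℕ → Prop} (h : ∀ i, p i → q i) {t : Tm L} (ht : t.All p) :
    t.All q := by
  induction t with
  | sk i n φ args ih => exact ⟨h i ht.1, fun j => ih j (ht.2 j)⟩

theorem Tm.bound (t : Tm L) : ∃ k, t.All (· < k) := by
  induction t with
  | sk i n φ args ih =>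
    choose k hk using ih
    refine ⟨max (i + 1) (Finset.univ.sup k), by show i < _; omega, fun j => (hk j).mono fun x hx => ?_⟩
    have := Finset.le_sup (f := k) (Finset.mem_univ j)
    omega

theorem Tm.bound_finset (s : Finset (Tm L)) : ∃ k, ∀ t ∈ s, t.All (· < k) := by
  choose k hk using Tm.bound (L := L)
  exact ⟨s.sup k, fun t ht => (hk t).mono fun x hx => hx.trans_le (Finset.le_sup ht)⟩

theorem Tm.act_congr {k : ℕ} {t : Tm L} (ht : t.All (· < k)) {g g' : ℕ → ℕ}
    (h : ∀ i < k, g i = g' i) : t.act g = t.act g' := by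
  induction t with
  | sk i n φ args ih =>
    simp only [Tm.act, h i ht.1]
    congr 1
    exact funext fun j => ih j (ht.2 j)

theorem Tm.all_act {k : ℕ} {t : Tm L} (ht : t.All (· < k)) {g : ℕ → ℕ} {p : ℕ → Prop}
    (h : ∀ i < k, p (g i)) : (t.act g).All p := by
  induction t with
  | sk i n φ args ih => exact ⟨h i ht.1, fun j => ih j (ht.2 j)⟩

theorem Wit.act {m : Tm L → C} (h : Wit m) (g : ℕ → ℕ) : Wit (m ∘ Tm.act g) := by
  intro i n φ args hy
  exact h (g i) n φ (fun j => (args j).act g) hy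

theorem Wit.aut {m : Tm L → C} (h : Wit m) (σ : Aut L C) : Wit (σ ∘ m) := by
  intro i n φ args hy
  have e : ∀ y : C, (φ.Realize fun o => o.elim (σ y) ((σ ∘ m) ∘ args)) ↔
      φ.Realize fun o => o.elim y (m ∘ args) := by
    intro y
    rw [← FirstOrder.Language.StrongHomClass.realize_formula σ φ
      (v := fun o => o.elim y (m ∘ args))]
    congr! 1
    funext o
    cases o <;> rfl
  obtain ⟨y, hy⟩ := hy
  refine (e _).2 (h i n φ args ⟨σ.symm y, (e _).1 ?_⟩)
  rwa [FirstOrder.Language.Equiv.apply_symm_apply]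

theorem df_wit [Nonempty C] (B : Set C) (i n : ℕ) (φ : L.Formula (Option (Fin n)))
    (args : Fin n → Tm L) :
    Df L B {v : Tm L → C | (∃ y : C, φ.Realize fun o => o.elim y (v ∘ args)) →
      φ.Realize fun o => o.elim (v (.sk i n φ args)) (v ∘ args)} := by
  have h1 := Df.formula B φ (β := Tm L) fun o => o.elim (.sk i n φ args) args
  have h2 := (Df.formula B φ (β := PUnit.{2} ⊕ Tm L)
    fun o => o.elim (.inl PUnit.unit) (Sum.inr ∘ args)).ex
  have e1 : ∀ v : Tm L → C, (v ∘ fun o : Option (Fin n) => o.elim (.sk i n φ args) args) =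
      fun o => o.elim (v (.sk i n φ args)) (v ∘ args) := fun v => by
    funext o; cases o <;> rfl
  have e2 : ∀ (a : PUnit.{2} → C) (v : Tm L → C), (Sum.elim a v ∘ fun o : Option (Fin n) =>
      o.elim (.inl PUnit.unit) (Sum.inr ∘ args)) =
      fun o => o.elim (a PUnit.unit) (v ∘ args) := fun a v => by
    funext o; cases o <;> rfl
  convert h2.compl.union h1 using 1
  ext v
  simp only [mem_ofPred_eq, mem_union, mem_compl_iff, e1, e2, ← imp_iff_not_or]
  exact imp_congr_left ⟨fun ⟨y, hy⟩ => ⟨fun _ => y, hy⟩, fun ⟨a, ha⟩ => ⟨_, ha⟩⟩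

theorem Wit.lim {X : Type*} {𝒳 : Ultrafilter X} {f : X → Tm L → C} {B : Set C} {m : Tm L → C}
    (h : Lim L (𝒳.map f) B m) (hf : ∀ᶠ x in (𝒳 : Filter X), Wit (f x)) : Wit m := by
  intro i n φ args
  have : Nonempty C := ⟨m (.sk i n φ args)⟩
  exact (h _ (df_wit B i n φ args)).2 (Ultrafilter.mem_map.2 (hf.mono fun x hx => hx i n φ args))

theorem Wit.base_one {m : Tm L → C} (h : Wit m) {D : Set (PUnit.{2} → C)}
    (hD : Df L (range m) D) (hne : D.Nonempty) : ∃ y ∈ range m, (fun _ => y) ∈ D := by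
  rw [← empty_union (range m)] at hD
  obtain ⟨D', hD', e1⟩ := hD.unplug
  obtain ⟨s, D0, hD0, e2⟩ := hD'.fin
  obtain ⟨φ, rfl⟩ := Set.empty_definable_iff.1 hD0
  let e := s.equivFin
  let args : Fin s.card → Tm L := fun j =>
    Sum.elim (fun _ => Tm.sk 0 0 ⊤ Fin.elim0) id (e.symm j).1
  let g : s → Option (Fin s.card) := fun x => Sum.elim (fun _ => none) (fun _ => some (e x)) x.1
  have key : ∀ y : C, (fun _ => y) ∈ D ↔
      (φ.relabel g).Realize fun o => o.elim y (m ∘ args) := by
    intro y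
    rw [e1, e2, FirstOrder.Language.Formula.realize_relabel, mem_ofPred_eq]
    congr! 1
    funext ⟨x, hx⟩
    cases x with
    | inl a => rfl
    | inr t => simp [g, args]
  obtain ⟨v, hv⟩ := hne
  exact ⟨_, mem_range_self _, (key _).2
    (h 0 _ (φ.relabel g) args ⟨v PUnit.unit, (key _).1 hv⟩)⟩

theorem Wit.base [Nonempty C] {m : Tm L → C} (h : Wit m) : Base L (range m) := by
  classical
  intro β D hD hne
  have key : ∀ s : Finset β, ∃ v ∈ D, ∀ i ∈ s, v i ∈ range m := by
    intro s
    induction s using Finset.induction_on with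
    | empty => exact hne.imp fun v hv => ⟨hv, by simp⟩
    | insert a s _ ih =>
      obtain ⟨v, hv, hs⟩ := ih
      have h1 := (hD.subst subset_rfl (γ := β ⊕ PUnit.{2}) (fun i u =>
        if i ∈ s then v i else if i = a then u (.inr PUnit.unit) else u (.inl i)) fun i => by
          by_cases h1 : i ∈ s
          · exact Or.inr ⟨v i, hs i h1, fun u => if_pos h1⟩
          · by_cases h2 : i = a
            · exact Or.inl ⟨_, fun u => by rw [if_neg h1, if_pos h2]⟩
            · exact Or.inl ⟨_, fun u => by rw [if_neg h1, if_neg h2]⟩).ex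
      obtain ⟨y, hy, w, hw⟩ := h.base_one h1 ⟨fun _ => v a, v, by
        convert hv using 1
        simp only [mem_ofPred_eq, Sum.elim_inr, Sum.elim_inl]
        congr! 1
        funext i
        split_ifs with h1 h2
        · rfl
        · rw [h2]
        · rfl⟩
      refine ⟨_, hw, fun i hi => ?_⟩
      by_cases h1 : i ∈ s
      · rw [if_pos h1]; exact hs i h1
      · rw [if_neg h1, if_pos ((Finset.mem_insert.1 hi).resolve_right h1)]
        exact hy
  obtain ⟨s, hs⟩ := hD.supp
  obtain ⟨v, hv, hv'⟩ := key s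
  refine ⟨fun i => if i ∈ s then v i else m (.sk 0 0 ⊤ Fin.elim0), (hs _ v fun i hi => if_pos hi).2 hv,
    fun i => ?_⟩
  beta_reduce
  by_cases hi : i ∈ s
  · rw [if_pos hi]; exact hv' i hi
  · rw [if_neg hi]; exact mem_range_self _

open Classical in
/-- keep the values below level `k`, choose witnesses elsewhere -/
noncomputable def tmF [Nonempty C] (k : ℕ) (m : Tm L → C) : Tm L → C
  | .sk i n φ args =>
    if (Tm.sk i n φ args).All (· < k) then m (.sk i n φ args)
    else Classical.epsilon fun y : C =>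
      φ.Realize fun o => o.elim y fun j => tmF k m (args j)

theorem tmF_low [Nonempty C] {k : ℕ} {m : Tm L → C} {t : Tm L} (ht : t.All (· < k)) :
    tmF k m t = m t := by
  cases t with
  | sk i n φ args => rw [tmF, if_pos ht]

theorem tmF_wit [Nonempty C] {k : ℕ} {m : Tm L → C} (h : k = 0 ∨ Wit m) : Wit (tmF k m) := by
  intro i n φ args hy
  by_cases ht : (Tm.sk i n φ args).All (· < k)
  · have e : tmF k m ∘ args = m ∘ args := funext fun j => tmF_low (ht.2 j)
    rw [e] at hy ⊢
    rw [tmF_low ht]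
    rcases h with rfl | h
    · exact absurd ht.1 (Nat.not_lt_zero i)
    · exact h i n φ args hy
  · rw [tmF, if_neg ht]
    exact Classical.epsilon_spec hy

/-- canonical completion above level `k` -/
theorem exF [Nonempty C] : ∃ F : ℕ → (Tm L → C) → Tm L → C, (∀ m, Wit (F 0 m)) ∧
    (∀ k m, Wit m → Wit (F k m)) ∧ (∀ k m t, t.All (· < k) → F k m t = m t) ∧
    ∀ k b m m', (∀ t, t.All (b ≤ ·) → t.All (· < k) → m t = m' t) →
      ∀ t, t.All (b ≤ ·) → F k m t = F k m' t := by
  refine ⟨tmF, fun m => tmF_wit (Or.inl rfl), fun k m h => tmF_wit (Or.inr h),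
    fun k m t ht => tmF_low ht, fun k b m m' h t => ?_⟩
  induction t with
  | sk i n φ args ih =>
    intro ht
    by_cases hk : (Tm.sk i n φ args).All (· < k)
    · rw [tmF_low hk, tmF_low hk, h _ ht hk]
    · rw [tmF, tmF, if_neg hk, if_neg hk]
      have e : (fun j => tmF k m (args j)) = fun j => tmF k m' (args j) :=
        funext fun j => ih j (ht.2 j)
      rw [e]

end Pool.Agent.Lib.MP_e4697a_lc.N1
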