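import Pool.Agent.Lib.MP_e4697a_lc.N1.Sat

/-!
Arrays give SOP_1.
-/

set_option autoImplicit false

namespace Pool.Agent.Lib.MP_e4697a_lc.N1

open FirstOrder Set Filter

variable {L : FirstOrder.Language.{0, 0}} {C : Type 1} [L.Structure C] {κ : Cardinal.{1}}
  {α β γ γ0 δ ε ζ I : Type 1}

/-- a set definable without parameters is given by a formula in finitely many variables -/
theorem tree_formula {D : Set (α ⊕ β → C)} (hD : Df L ∅ D) :
    ∃ (n m : ℕ) (φ : L.Formula (Fin n ⊕ Fin m)) (p : Fin n → α) (q : Fin m → β),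
      Function.Injective p ∧
        ∀ x t, φ.Realize (Sum.elim (x ∘ p) (t ∘ q)) ↔ Sum.elim x t ∈ D := by
  classical
  obtain ⟨s, D0, h0, hs⟩ := Df.fin hD
  obtain ⟨ψ, hψ⟩ := Set.empty_definable_iff.1 h0
  let ea := s.toLeft.equivFin
  let eb := s.toRight.equivFin
  let g : s → Fin s.toLeft.card ⊕ Fin s.toRight.card := fun i =>
    match i with
    | ⟨Sum.inl a, h⟩ => Sum.inl (ea ⟨a, Finset.mem_toLeft.2 h⟩)
    | ⟨Sum.inr b, h⟩ => Sum.inr (eb ⟨b, Finset.mem_toRight.2 h⟩)
  refine ⟨_, _, ψ.relabel g, fun i => (ea.symm i).1, fun j => (eb.symm j).1,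
    Subtype.val_injective.comp ea.symm.injective, fun x t => ?_⟩
  rw [Language.Formula.realize_relabel, hs, hψ]
  have e : Sum.elim (x ∘ fun i => (ea.symm i).1) (t ∘ fun j => (eb.symm j).1) ∘ g =
      fun i : s => Sum.elim x t i := by
    funext i
    obtain ⟨a | b, h⟩ := i <;> simp [g]
  rw [e]
  rfl

/-- trees for a set definable without parameters, in tuples of any length -/
theorem sop1_of_tree (hm : Mon L C κ) {D : Set (α ⊕ β → C)} (hD : Df L ∅ D)
    (a : List Bool → β → C)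
    (h1 : ∀ (η : ℕ → Bool) (N : ℕ), ∃ x : α → C, ∀ k < N,
      Sum.elim x (a (List.ofFn fun i : Fin k => η i)) ∈ D)
    (h2 : ∀ η ν : List Bool, η ++ [false] <+: ν →
      ¬ ∃ x : α → C, Sum.elim x (a (η ++ [true])) ∈ D ∧ Sum.elim x (a ν) ∈ D) :
    HasSOP1 L C := by
  obtain ⟨n, m, φ, p, q, hp, h⟩ := tree_formula hD
  obtain ⟨c⟩ := hm.ne
  refine ⟨n, m, φ, fun η => a η ∘ q, fun η N => ?_, fun η ν hν => ?_⟩
  · obtain ⟨x, hx⟩ := h1 η N
    exact ⟨x ∘ p, fun k hk => (h _ _).2 (hx k hk)⟩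
  · rintro ⟨x, hx, hx'⟩
    have e : Function.extend p x (fun _ => c) ∘ p = x := Function.extend_comp hp _ _
    rw [← e] at hx hx'
    exact h2 η ν hν ⟨_, (h _ _).1 hx, (h _ _).1 hx'⟩

/-- one instance read off a long tuple -/
theorem tree_inst {D : Set (α ⊕ β → C)} (hD : Df L ∅ D) (l : List Bool) :
    Df L ∅ {w : α ⊕ (List Bool × β) → C |
      Sum.elim (w ∘ Sum.inl) (fun i => w (Sum.inr (l, i))) ∈ D} := by
  have h := Df.comp hD (Sum.map id fun i => (l, i) : α ⊕ β → α ⊕ (List Bool × β))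
  convert h using 4 with w
  funext i
  cases i <;> rfl

/-- finite trees of every height suffice -/
theorem sop1_of_finite_trees (hm : Mon L C κ) (hβ : Sm κ β) {D : Set (α ⊕ β → C)} (hD : Df L ∅ D)
    (h : ∀ n : ℕ, ∃ a : List Bool → β → C,
      (∀ η : ℕ → Bool, ∃ x : α → C, ∀ k < n,
        Sum.elim x (a (List.ofFn fun i : Fin k => η i)) ∈ D) ∧
      ∀ η ν : List Bool, ν.length < n → η ++ [false] <+: ν →
        ¬ ∃ x : α → C, Sum.elim x (a (η ++ [true])) ∈ D ∧ Sum.elim x (a ν) ∈ D) :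
    HasSOP1 L C := by
  have := hm.ne
  choose a ha hb using h
  let f : ℕ → List Bool × β → C := fun n p => a n p.1 p.2
  obtain ⟨t, ht⟩ := limEx hm hm.empty (hm.cprod (List Bool) hβ) (UU.map f)
  refine sop1_of_tree hm hD (fun l i => t (l, i)) (fun η N => ?_) fun η ν hν => ?_
  · have hE := Df.ex (Df.finsetInter (Finset.range N) _
      fun k _ => tree_inst hD (List.ofFn fun i : Fin k => η i))
    have h1 := (ht _ hE).2 (by
      rw [Ultrafilter.mem_map]
      refine (UU_gt N).mono fun n hn => ?_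
      obtain ⟨x, hx⟩ := ha n η
      exact ⟨x, fun k hk => hx k ((Finset.mem_range.1 hk).trans hn)⟩)
    obtain ⟨x, hx⟩ := h1
    exact ⟨x, fun k hk => hx k (Finset.mem_range.2 hk)⟩
  · rintro ⟨x, hx, hx'⟩
    have hE := Df.ex ((tree_inst hD (η ++ [true])).inter (tree_inst hD ν))
    have h1 := (ht _ hE).1 ⟨x, hx, hx'⟩
    rw [Ultrafilter.mem_map] at h1
    obtain ⟨n, ⟨y, hy, hy'⟩, hn⟩ := (Filter.Eventually.and h1 (UU_gt ν.length)).exists
    exact hb n η ν hn hν ⟨y, hy, hy'⟩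

/-- the automorphism attached to a word read from level `k` -/
def tau (σ : ℕ → Aut L C) : ℕ → List Bool → Aut L C
  | _, [] => Language.Equiv.refl L C
  | k, b :: l => (if b then σ (k + 1) else Language.Equiv.refl L C).comp (tau σ (k + 1) l)

theorem tau_append (σ : ℕ → Aut L C) (η μ : List Bool) :
    ∀ (k : ℕ) (c : C), tau σ k (η ++ μ) c = tau σ k η (tau σ (k + η.length) μ c) := by
  induction η with
  | nil => intro k c; rfl
  | cons b l ih =>
    intro k c
    simp only [List.cons_append, tau, Language.Equiv.comp_apply, ih, List.length_cons]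
    rw [show k + 1 + l.length = k + (l.length + 1) by omega]

theorem tau_fix {σ : ℕ → Aut L C} {B : ℕ → Set C} {n : ℕ} (hB : Monotone B)
    (hσ : ∀ r < n, Fix (σ r) (B r)) (μ : List Bool) :
    ∀ k : ℕ, k + μ.length < n → Fix (tau σ k μ) (B (k + 1)) := by
  induction μ with
  | nil => intro k _ c _; rfl
  | cons b l ih =>
    intro k hk c hc
    rw [List.length_cons] at hk
    simp only [tau, Language.Equiv.comp_apply]
    rw [ih (k + 1) (by omega) c (hB (Nat.le_succ _) hc)]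
    cases b
    · rfl
    · exact hσ (k + 1) (by omega) c hc

theorem tree_aut {D : Set (α ⊕ β → C)} (hD : Df L ∅ D) (τ : Aut L C) (x : α → C) (t : β → C) :
    Sum.elim (τ ∘ x) (τ ∘ t) ∈ D ↔ Sum.elim x t ∈ D := by
  rw [← Df.fix hD (σ := τ) (fun _ h => h.elim) (Sum.elim x t), Sum.comp_elim]

theorem ofFn_split (η : ℕ → Bool) {k m : ℕ} (h : k ≤ m) :
    ∃ μ : List Bool, (List.ofFn fun i : Fin m => η i) = (List.ofFn fun i : Fin k => η i) ++ μ := by
  obtain ⟨j, rfl⟩ := Nat.exists_eq_add_of_le h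
  exact ⟨_, List.ofFn_add⟩

/-- the tree of conjugates -/
theorem finite_tree {D : Set (α ⊕ β → C)} (hD : Df L ∅ D) (n : ℕ) (d : ℕ → β → C)
    (B : ℕ → Set C) (σ : ℕ → Aut L C) (X : ℕ → Set (α → C)) (hB : Monotone B)
    (hd : ∀ r i, d r i ∈ B (r + 1)) (hσ : ∀ r < n, Fix (σ r) (B r))
    (hX : ∀ r < n, Df L (B (r + 1)) (X r))
    (h1 : ∀ r < n, ∀ x, Sum.elim x (σ r ∘ d r) ∈ D → x ∈ X r)
    (h2 : ∀ r r', r ≤ r' → r' < n → ∀ x ∈ X r, Sum.elim x (d r') ∉ D)
    (h3 : ∃ x : α → C, ∀ r < n, Sum.elim x (d r) ∈ D) :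
    ∃ a : List Bool → β → C,
      (∀ η : ℕ → Bool, ∃ x : α → C, ∀ k < n,
        Sum.elim x (a (List.ofFn fun i : Fin k => η i)) ∈ D) ∧
      ∀ η ν : List Bool, ν.length < n → η ++ [false] <+: ν →
        ¬ ∃ x : α → C, Sum.elim x (a (η ++ [true])) ∈ D ∧ Sum.elim x (a ν) ∈ D := by
  refine ⟨fun η => tau σ 0 η ∘ d η.length, fun η => ?_, fun η ν hν hp => ?_⟩
  · obtain ⟨x, hx⟩ := h3
    refine ⟨tau σ 0 (List.ofFn fun i : Fin (n - 1) => η i) ∘ x, fun k hk => ?_⟩
    obtain ⟨μ, hμ⟩ := ofFn_split η (show k ≤ n - 1 by omega)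
    have hl := congrArg List.length hμ
    simp only [List.length_ofFn, List.length_append] at hl
    have e : tau σ 0 (List.ofFn fun i : Fin k => η i) ∘ d k =
        tau σ 0 (List.ofFn fun i : Fin (n - 1) => η i) ∘ d k := by
      funext i
      simp only [Function.comp_apply, hμ, tau_append, List.length_ofFn, zero_add]
      rw [tau_fix hB hσ μ k (by omega) _ (hd k i)]
    simp only [List.length_ofFn]
    rw [e, tree_aut hD]
    exact hx k hk
  · rintro ⟨x, hx, hx'⟩
    obtain ⟨μ, rfl⟩ := hp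
    simp only [List.length_append, List.length_singleton] at hν hx hx'
    set r := η.length + 1 with hr
    set τ := tau σ 0 η with hτ
    set ρ := tau σ r μ with hρ
    have hρf : Fix ρ (B (r + 1)) := tau_fix hB hσ μ r hν
    have e1 : tau σ 0 (η ++ [true]) ∘ d r = τ ∘ (σ r ∘ d r) := by
      funext i
      simp only [Function.comp_apply, tau_append, zero_add]
      rfl
    have e2 : tau σ 0 (η ++ [false] ++ μ) ∘ d (r + μ.length) = τ ∘ (ρ ∘ d (r + μ.length)) := by
      funext i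
      simp only [Function.comp_apply, tau_append, zero_add, List.length_append,
        List.length_singleton]
      rfl
    have ex : x = τ ∘ (ρ ∘ (ρ.symm ∘ (τ.symm ∘ x))) := by
      funext i
      simp
    set y := ρ.symm ∘ (τ.symm ∘ x) with hy
    rw [e1, ex, tree_aut hD] at hx
    rw [e2, ex, tree_aut hD, tree_aut hD] at hx'
    have hr' : r < n := by omega
    exact h2 r _ (Nat.le_add_right _ _) hν y
      ((Df.fix (hX r hr') hρf y).1 (h1 r hr' _ hx)) hx'

end Pool.Agent.Lib.MP_e4697a_lc.N1
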